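import Mathlib

/-! Coefficientwise comparison of the products `∏ (T + a_j ^ 2)` which occur in the second
variation. -/

set_option autoImplicit false

open Polynomial Finset

namespace Pool.Agent.D0H14.SV

/-- nonnegative coefficients, and coefficientwise comparison -/
def PL (P Q : ℝ[X]) : Prop := ∀ i, 0 ≤ P.coeff i ∧ P.coeff i ≤ Q.coeff i

theorem PL.mul {P Q P' Q' : ℝ[X]} (h : PL P Q) (h' : PL P' Q') : PL (P * P') (Q * Q') := by
  intro i
  rw [coeff_mul, coeff_mul]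
  constructor
  · exact sum_nonneg fun x _ => mul_nonneg (h x.1).1 (h' x.2).1
  · exact sum_le_sum fun x _ => mul_le_mul (h x.1).2 (h' x.2).2 (h' x.2).1
      ((h x.1).1.trans (h x.1).2)

theorem PL.refl_of {P : ℝ[X]} (h : ∀ i, 0 ≤ P.coeff i) : PL P P := fun i => ⟨h i, le_rfl⟩

theorem PL.left {P Q : ℝ[X]} (h : PL P Q) : ∀ i, 0 ≤ P.coeff i := fun i => (h i).1

theorem PL.right {P Q : ℝ[X]} (h : PL P Q) : ∀ i, 0 ≤ Q.coeff i := fun i => (h i).1.trans (h i).2

theorem PL.const {a b : ℝ} (ha : 0 ≤ a) (hab : a ≤ b) : PL (C a) (C b) := by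
  intro i
  rw [coeff_C, coeff_C]
  split_ifs
  · exact ⟨ha, hab⟩
  · exact ⟨le_rfl, le_rfl⟩

theorem PL.lin {c d a b : ℝ} (hc : 0 ≤ c) (hcd : c ≤ d) (ha : 0 ≤ a) (hab : c * a ≤ d * b) :
    PL (C c * (X + C a)) (C d * (X + C b)) := by
  intro i
  have e : ∀ u v : ℝ, (C u * (X + C v) : ℝ[X]).coeff i
      = if i = 0 then u * v else if i = 1 then u else 0 := by
    intro u v
    rw [coeff_C_mul, coeff_add, coeff_X, coeff_C]
    rcases i with _ | _ | i
    · simp
    · simp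
    · simp
  rw [e, e]
  split_ifs
  · exact ⟨mul_nonneg hc ha, hab⟩
  · exact ⟨hc, hcd⟩
  · exact ⟨le_rfl, le_rfl⟩

theorem PL.prod {n : ℕ} {P Q : ℕ → ℝ[X]} (h : ∀ j < n, PL (P j) (Q j)) :
    PL (∏ j ∈ range n, P j) (∏ j ∈ range n, Q j) := by
  induction n with
  | zero =>
    intro i
    rw [prod_range_zero, prod_range_zero, coeff_one]
    split_ifs
    · exact ⟨zero_le_one, le_rfl⟩
    · exact ⟨le_rfl, le_rfl⟩
  | succ n ih =>
    rw [prod_range_succ, prod_range_succ]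
    exact (ih fun j hj => h j (by omega)).mul (h n (by omega))

/-- `∏_{j<n} (T + (y + j + c)^2)` -/
noncomputable def TP (n : ℕ) (y : ℝ) : ℝ[X] := ∏ j ∈ range n, (X + C ((y + j) ^ 2))

/-- `∏_{j<n} (y + j)` -/
noncomputable def RF (n : ℕ) (y : ℝ) : ℝ := ∏ j ∈ range n, (y + j)

theorem RF_pos (n : ℕ) {y : ℝ} (hy : 0 < y) : 0 < RF n y :=
  prod_pos fun j _ => by positivity

theorem TP_succ (n : ℕ) (y : ℝ) : TP (n + 1) y = TP n y * (X + C ((y + n) ^ 2)) :=
  prod_range_succ _ _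

theorem RF_succ (n : ℕ) (y : ℝ) : RF (n + 1) y = RF n y * (y + n) :=
  prod_range_succ _ _

theorem TP_nonneg (n : ℕ) (y : ℝ) : PL (TP n y) (TP n y) := by
  rw [TP]
  refine PL.prod fun j _ => ?_
  have h := PL.lin (c := 1) (d := 1) (a := (y + j) ^ 2) (b := (y + j) ^ 2) zero_le_one le_rfl
    (sq_nonneg _) le_rfl
  simpa using h

/-- comparison for shifts `c ≥ 0`, without gain -/
theorem cmp0 (n : ℕ) {s c : ℝ} (hs : 0 < s) (hs2 : s < 1 / 2) (hc : 0 ≤ c) :
    PL (C (RF n s ^ 2) * TP n (1 - s + c)) (C (RF n (1 - s) ^ 2) * TP n (s + c)) := by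
  induction n with
  | zero =>
    have h := PL.const (a := 1) (b := 1) zero_le_one le_rfl
    simpa [RF, TP] using h
  | succ n ih =>
    have h : PL (C ((s + n) ^ 2) * (X + C ((1 - s + c + n) ^ 2)))
        (C ((1 - s + n) ^ 2) * (X + C ((s + c + n) ^ 2))) := by
      have hn : (0 : ℝ) ≤ n := Nat.cast_nonneg n
      apply PL.lin (sq_nonneg _)
      · gcongr
        linarith
      · exact sq_nonneg _
      · rw [← mul_pow, ← mul_pow]
        apply pow_le_pow_left₀ (by apply mul_nonneg <;> linarith)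
        nlinarith
    have h2 := ih.mul h
    rw [RF_succ, RF_succ, TP_succ, TP_succ]
    have e1 : (C ((RF n s * (s + n)) ^ 2) * (TP n (1 - s + c) * (X + C ((1 - s + c + n) ^ 2)))
        : ℝ[X]) = C (RF n s ^ 2) * TP n (1 - s + c) * (C ((s + n) ^ 2)
          * (X + C ((1 - s + c + n) ^ 2))) := by
      rw [mul_pow, C_mul]; ring
    have e2 : (C ((RF n (1 - s) * (1 - s + n)) ^ 2) * (TP n (s + c) * (X + C ((s + c + n) ^ 2)))
        : ℝ[X]) = C (RF n (1 - s) ^ 2) * TP n (s + c) * (C ((1 - s + n) ^ 2)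
          * (X + C ((s + c + n) ^ 2))) := by
      rw [mul_pow, C_mul]; ring
    rw [e1, e2]
    exact h2

theorem lam_mul {s : ℝ} (hs : 0 < s) : (1 - s) / s * s ^ 2 = (1 - s) * s := by
  field_simp

/-- comparison for shifts `c ≥ 1/2`, with gain `(1 - s) / s` -/
theorem cmp1 (n : ℕ) {s c : ℝ} (hs : 0 < s) (hs2 : s < 1 / 2) (hc : 1 / 2 ≤ c) :
    PL (C ((1 - s) / s * RF (n + 1) s ^ 2) * TP (n + 1) (1 - s + c))
      (C (RF (n + 1) (1 - s) ^ 2) * TP (n + 1) (s + c)) := by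
  induction n with
  | zero =>
    have h : PL (C ((1 - s) / s * s ^ 2) * (X + C ((1 - s + c) ^ 2)))
        (C ((1 - s) ^ 2) * (X + C ((s + c) ^ 2))) := by
      rw [lam_mul hs]
      apply PL.lin
      · apply mul_nonneg <;> linarith
      · nlinarith
      · exact sq_nonneg _
      · have h1 : s * (1 - s) ≤ c ^ 2 := by nlinarith [sq_nonneg (s - 1 / 2)]
        have h2 : s * (1 - s + c) ^ 2 ≤ (1 - s) * (s + c) ^ 2 := by
          have : (1 - s) * (s + c) ^ 2 - s * (1 - s + c) ^ 2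
              = (1 - 2 * s) * (c ^ 2 - s * (1 - s)) := by ring
          have h3 : 0 ≤ (1 - 2 * s) * (c ^ 2 - s * (1 - s)) := by
            apply mul_nonneg <;> linarith
          linarith
        have h3 : (1 - s) * (s * (1 - s + c) ^ 2) ≤ (1 - s) * ((1 - s) * (s + c) ^ 2) :=
          mul_le_mul_of_nonneg_left h2 (by linarith)
        calc (1 - s) * s * (1 - s + c) ^ 2 = (1 - s) * (s * (1 - s + c) ^ 2) := by ring
          _ ≤ (1 - s) * ((1 - s) * (s + c) ^ 2) := h3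
          _ = (1 - s) ^ 2 * (s + c) ^ 2 := by ring
    simpa [RF, TP] using h
  | succ n ih =>
    have h : PL (C ((s + (n + 1 : ℕ)) ^ 2) * (X + C ((1 - s + c + (n + 1 : ℕ)) ^ 2)))
        (C ((1 - s + (n + 1 : ℕ)) ^ 2) * (X + C ((s + c + (n + 1 : ℕ)) ^ 2))) := by
      have hn : (0 : ℝ) ≤ (n + 1 : ℕ) := Nat.cast_nonneg _
      apply PL.lin (sq_nonneg _)
      · gcongr
        linarith
      · exact sq_nonneg _
      · rw [← mul_pow, ← mul_pow]
        apply pow_le_pow_left₀ (by apply mul_nonneg <;> linarith)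
        nlinarith
    have h2 := ih.mul h
    rw [RF_succ (n + 1), RF_succ (n + 1), TP_succ (n + 1), TP_succ (n + 1)]
    have e1 : (C ((1 - s) / s * (RF (n + 1) s * (s + (n + 1 : ℕ))) ^ 2)
        * (TP (n + 1) (1 - s + c) * (X + C ((1 - s + c + (n + 1 : ℕ)) ^ 2))) : ℝ[X])
        = C ((1 - s) / s * RF (n + 1) s ^ 2) * TP (n + 1) (1 - s + c)
          * (C ((s + (n + 1 : ℕ)) ^ 2) * (X + C ((1 - s + c + (n + 1 : ℕ)) ^ 2))) := by
      simp only [mul_pow, C_mul]; ring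
    have e2 : (C ((RF (n + 1) (1 - s) * (1 - s + (n + 1 : ℕ))) ^ 2)
        * (TP (n + 1) (s + c) * (X + C ((s + c + (n + 1 : ℕ)) ^ 2))) : ℝ[X])
        = C (RF (n + 1) (1 - s) ^ 2) * TP (n + 1) (s + c)
          * (C ((1 - s + (n + 1 : ℕ)) ^ 2) * (X + C ((s + c + (n + 1 : ℕ)) ^ 2))) := by
      rw [mul_pow, C_mul]; ring
    rw [e1, e2]
    exact h2

/-- the constants -/
theorem gain (n : ℕ) (hn : 1 ≤ n) {s : ℝ} (hs : 0 < s) (hs2 : s < 1 / 2) :
    (1 - s) / s * RF n s ^ 2 < RF n (1 - s) ^ 2 := by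
  induction n, hn using Nat.le_induction with
  | base =>
    have : (1 - s) / s * s ^ 2 < (1 - s) ^ 2 := by
      rw [lam_mul hs]; nlinarith
    simpa [RF] using this
  | succ n hn ih =>
    rw [RF_succ, RF_succ, mul_pow, mul_pow, ← mul_assoc]
    have h0 : 0 < (1 - s) / s := div_pos (by linarith) hs
    have h1 := RF_pos n hs
    have hn0 : (0 : ℝ) ≤ n := Nat.cast_nonneg _
    apply mul_lt_mul'' ih
    · gcongr
      linarith
    · positivity
    · positivity

/-- the same with `N ≤ n` factors in the product -/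
theorem cmp2 (N d : ℕ) (h : 1 ≤ N + d) {s c : ℝ} (hs : 0 < s) (hs2 : s < 1 / 2) (hc : 1 / 2 ≤ c) :
    PL (C ((1 - s) / s * RF (N + d) s ^ 2) * TP N (1 - s + c))
      (C (RF (N + d) (1 - s) ^ 2) * TP N (s + c)) := by
  induction d with
  | zero =>
    obtain ⟨M, rfl⟩ : ∃ M, N = M + 1 := ⟨N - 1, by omega⟩
    exact cmp1 M hs hs2 hc
  | succ d ih =>
    rcases Nat.eq_zero_or_pos (N + d) with h0 | h0
    · have hN : N = 0 := by omega
      have hd : d = 0 := by omega
      subst hN hd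
      have h1 : 0 < (1 - s) / s := div_pos (by linarith) hs
      have h2 := RF_pos 1 hs
      have := PL.const (a := (1 - s) / s * RF 1 s ^ 2) (b := RF 1 (1 - s) ^ 2) (by positivity)
        (gain 1 le_rfl hs hs2).le
      simpa [TP] using this
    · have h1 := (ih h0).mul (PL.const (a := (s + (N + d : ℕ)) ^ 2)
        (b := (1 - s + (N + d : ℕ)) ^ 2) (sq_nonneg _) (by
          have hn0 : (0 : ℝ) ≤ (N + d : ℕ) := Nat.cast_nonneg _
          gcongr
          linarith))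
      rw [← add_assoc, RF_succ (N + d), RF_succ (N + d)]
      have e1 : (C ((1 - s) / s * (RF (N + d) s * (s + (N + d : ℕ))) ^ 2) * TP N (1 - s + c)
          : ℝ[X]) = C ((1 - s) / s * RF (N + d) s ^ 2) * TP N (1 - s + c)
            * C ((s + (N + d : ℕ)) ^ 2) := by
        simp only [mul_pow, C_mul]; ring
      have e2 : (C ((RF (N + d) (1 - s) * (1 - s + (N + d : ℕ))) ^ 2) * TP N (s + c)
          : ℝ[X]) = C (RF (N + d) (1 - s) ^ 2) * TP N (s + c)
            * C ((1 - s + (N + d : ℕ)) ^ 2) := by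
        rw [mul_pow, C_mul]; ring
      rw [e1, e2]
      exact h1

theorem TP_add (k N : ℕ) (y : ℝ) : TP (k + N) y = TP k y * TP N (y + k) := by
  rw [TP, prod_range_add, TP, TP]
  congr 1
  apply prod_congr rfl
  intro j _
  push_cast
  rw [add_assoc]

/-- reflection -/
theorem TP_reflect (k : ℕ) (y y' : ℝ) (h : y + y' = 1 - k) : TP k y = TP k y' := by
  rw [TP, ← prod_range_reflect, TP]
  apply prod_congr rfl
  intro j hj
  have hj' := mem_range.mp hj
  congr 2
  have e : ((k - 1 - j : ℕ) : ℝ) = k - 1 - j := by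
    rw [Nat.cast_sub (by omega), Nat.cast_sub (by omega)]
    simp
  rw [e]
  have : y + (k - 1 - j) = -(y' + j) := by linarith
  rw [this]
  ring

/-- negative modes, `n ≥ k` -/
theorem cmpn1 (n k : ℕ) (hn : 1 ≤ n) (hk : 1 ≤ k) (hkn : k ≤ n) {s : ℝ} (hs : 0 < s)
    (hs2 : s < 1 / 2) :
    PL (C ((1 - s) / s * RF n s ^ 2) * TP n (1 - s - k / 2))
      (C (RF n (1 - s) ^ 2) * TP n (s - k / 2)) := by
  obtain ⟨N, rfl⟩ : ∃ N, n = k + N := ⟨n - k, by omega⟩
  have hk' : (1 : ℝ) ≤ k := by exact_mod_cast hk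
  rw [TP_add, TP_add]
  have e1 : 1 - s - (k : ℝ) / 2 + k = 1 - s + k / 2 := by ring
  have e2 : s - (k : ℝ) / 2 + k = s + k / 2 := by ring
  have e3 : TP k (1 - s - (k : ℝ) / 2) = TP k (s - k / 2) := TP_reflect k _ _ (by ring)
  rw [e1, e2, e3]
  have h1 := (TP_nonneg k (s - k / 2)).mul (cmp2 N k (by omega) (c := k / 2) hs hs2 (by linarith))
  rw [add_comm k N]
  convert h1 using 1 <;> ring

/-- negative modes, `n < k` -/
theorem cmpn2 (n k : ℕ) (hn : 1 ≤ n) (hkn : n < k) {s : ℝ} (hs : 0 < s)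
    (hs2 : s < 1 / 2) :
    PL (C ((1 - s) / s * RF n s ^ 2) * TP n (1 - s - k / 2))
      (C (RF n (1 - s) ^ 2) * TP n (s - k / 2)) := by
  have h0 : 0 < (1 - s) / s := div_pos (by linarith) hs
  have h1 := RF_pos n hs
  refine (PL.const (by positivity) (gain n hn hs hs2).le).mul ?_
  have hfac : ∀ N : ℕ, 2 * N ≤ k → PL (TP N (1 - s - k / 2)) (TP N (s - k / 2)) := by
    intro N hN
    refine PL.prod fun j hj => ?_
    have h := PL.lin (c := 1) (d := 1) (a := (1 - s - k / 2 + j) ^ 2) (b := (s - k / 2 + j) ^ 2)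
      zero_le_one le_rfl (sq_nonneg _) (by
        have h2 : (2 * (j : ℝ) + 2) ≤ k := by exact_mod_cast (by omega : 2 * j + 2 ≤ k)
        have h3 : (s - k / 2 + j) ^ 2 - (1 - s - k / 2 + j) ^ 2
            = (1 - 2 * s) * (k - 2 * j - 1) := by ring
        have h4 : 0 ≤ (1 - 2 * s) * (k - 2 * j - 1) := by
          apply mul_nonneg <;> linarith
        linarith)
    simpa using h
  rcases le_or_gt (2 * n) k with h2 | h2
  · exact hfac n h2
  · obtain ⟨N, hN⟩ : ∃ N, k = n + N := ⟨k - n, by omega⟩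
    obtain ⟨M, hM⟩ : ∃ M, n = N + M := ⟨n - N, by omega⟩
    have e3 : TP M (1 - s - (k : ℝ) / 2 + N) = TP M (s - k / 2 + N) := by
      apply TP_reflect
      rw [hN, hM]
      push_cast
      ring
    have h3 := (hfac N (by omega)).mul (TP_nonneg M (s - k / 2 + N))
    have e4 : TP n (1 - s - (k : ℝ) / 2) = TP N (1 - s - k / 2) * TP M (s - k / 2 + N) := by
      rw [← e3, ← TP_add, ← hM]
    have e5 : TP n (s - (k : ℝ) / 2) = TP N (s - k / 2) * TP M (s - k / 2 + N) := by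
      rw [← TP_add, ← hM]
    rw [e4, e5]
    exact h3

/-- all modes `m ≠ 0` -/
theorem cmp (n : ℕ) (hn : 1 ≤ n) (m : ℤ) (hm : m ≠ 0) {s : ℝ} (hs : 0 < s) (hs2 : s < 1 / 2) :
    PL (C ((1 - s) / s * RF n s ^ 2) * TP n (1 - s + m / 2))
      (C (RF n (1 - s) ^ 2) * TP n (s + m / 2)) := by
  rcases lt_or_gt_of_ne hm with h | h
  · obtain ⟨k, hk⟩ := Int.eq_ofNat_of_zero_le (show 0 ≤ -m by omega)
    have hm' : (m : ℝ) = -(k : ℝ) := by
      have : m = -(k : ℤ) := by omega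
      rw [this]; push_cast; ring
    have e1 : 1 - s + (m : ℝ) / 2 = 1 - s - k / 2 := by rw [hm']; ring
    have e2 : s + (m : ℝ) / 2 = s - k / 2 := by rw [hm']; ring
    rw [e1, e2]
    rcases le_or_gt k n with h2 | h2
    · exact cmpn1 n k hn (by omega) h2 hs hs2
    · exact cmpn2 n k hn h2 hs hs2
  · obtain ⟨N, rfl⟩ : ∃ N, n = N + 1 := ⟨n - 1, by omega⟩
    have : (1 : ℝ) ≤ m := by exact_mod_cast h
    exact cmp1 N hs hs2 (by linarith)

theorem TP_coeff_top (n : ℕ) (y : ℝ) : (TP n y).coeff n = 1 ∧ (TP n y).coeff (n + 1) = 0 ∧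
    (TP n y).natDegree = n := by
  have hm : (TP n y).Monic := monic_prod_of_monic _ _ fun j _ => monic_X_add_C _
  have hd : (TP n y).natDegree = n := by
    rw [TP, natDegree_prod_of_monic _ _ fun j _ => monic_X_add_C _]
    simp_rw [natDegree_X_add_C]
    simp
  refine ⟨?_, coeff_eq_zero_of_natDegree_lt (by omega), hd⟩
  have := hm.coeff_natDegree
  rwa [hd] at this

end Pool.Agent.D0H14.SV
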