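import Mathlib

/-! Second order expansion of `‖1 + ε w‖ ^ p`. -/

set_option autoImplicit false

open Set

namespace Pool.Agent.D0H14.SV

/-- `(1 + x) ^ r = 1 + r x + r (r - 1) x ^ 2 / 2 + o (x ^ 2)` -/
theorem taylor (r δ : ℝ) (hδ : 0 < δ) : ∃ η : ℝ, 0 < η ∧ η < 1 ∧ ∀ x : ℝ, |x| ≤ η →
    |(1 + x) ^ r - 1 - r * x - r * (r - 1) / 2 * x ^ 2| ≤ δ * x ^ 2 := by
  have hc : ContinuousAt (fun x : ℝ => r * (r - 1) * ((1 + x) ^ (r - 2) - 1)) 0 := by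
    have h1 : ContinuousAt (fun x : ℝ => (1 + x) ^ (r - 2)) 0 :=
      ContinuousAt.rpow_const (by fun_prop) (Or.inl (by norm_num))
    exact (h1.sub continuousAt_const).const_mul _
  have h0 : r * (r - 1) * ((1 + (0 : ℝ)) ^ (r - 2) - 1) = 0 := by simp
  obtain ⟨η, hη, hη2⟩ := Metric.continuousAt_iff.mp hc δ hδ
  refine ⟨min (η / 2) (1 / 2), by positivity, lt_of_le_of_lt (min_le_right _ _) (by norm_num), ?_⟩
  obtain ⟨ρ, hρ⟩ : ∃ ρ, ρ = min (η / 2) (1 / 2) := ⟨_, rfl⟩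
  rw [← hρ]
  have hρ1 : ρ ≤ 1 / 2 := hρ ▸ min_le_right _ _
  have hρ2 : ρ < η := lt_of_le_of_lt (hρ ▸ min_le_left _ _) (by linarith)
  have hb : ∀ x : ℝ, |x| ≤ ρ → |r * (r - 1) * ((1 + x) ^ (r - 2) - 1)| ≤ δ := by
    intro x hx
    have := @hη2 x (by rw [Real.dist_eq, sub_zero]; linarith)
    rw [h0, Real.dist_eq, sub_zero] at this
    exact this.le
  have hpos : ∀ x : ℝ, |x| ≤ ρ → (0 : ℝ) < 1 + x := fun x hx => by
    have := neg_abs_le x; linarith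
  have hd1 : ∀ x : ℝ, |x| ≤ ρ → HasDerivAt (fun x : ℝ => r * (1 + x) ^ (r - 1) - r - r * (r - 1) * x)
      (r * (r - 1) * ((1 + x) ^ (r - 2) - 1)) x := by
    intro x hx
    have h1 : HasDerivAt (fun x : ℝ => (1 + x) ^ (r - 1)) (1 * (r - 1) * (1 + x) ^ (r - 1 - 1)) x :=
      ((hasDerivAt_id x).const_add 1).rpow_const (Or.inl (hpos x hx).ne')
    have h2 := ((h1.const_mul r).sub_const r).fun_sub ((hasDerivAt_id x).const_mul (r * (r - 1)))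
    refine h2.congr_deriv ?_
    have : r - 1 - 1 = r - 2 := by ring
    rw [this]
    ring
  have hd2 : ∀ x : ℝ, |x| ≤ ρ → HasDerivAt
      (fun x : ℝ => (1 + x) ^ r - 1 - r * x - r * (r - 1) / 2 * x ^ 2)
      (r * (1 + x) ^ (r - 1) - r - r * (r - 1) * x) x := by
    intro x hx
    have h1 : HasDerivAt (fun x : ℝ => (1 + x) ^ r) (1 * r * (1 + x) ^ (r - 1)) x :=
      ((hasDerivAt_id x).const_add 1).rpow_const (Or.inl (hpos x hx).ne')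
    have h2 := ((h1.sub_const 1).fun_sub ((hasDerivAt_id x).const_mul r)).fun_sub
      (((hasDerivAt_id x).fun_pow 2).const_mul (r * (r - 1) / 2))
    refine h2.congr_deriv ?_
    simp only [id]
    push_cast
    ring
  have hconv : ∀ t : ℝ, Convex ℝ (Icc (-t) t) := fun t => convex_Icc _ _
  have hg1 : ∀ x : ℝ, |x| ≤ ρ → |r * (1 + x) ^ (r - 1) - r - r * (r - 1) * x| ≤ δ * |x| := by
    intro x hx
    have h := (hconv |x|).norm_image_sub_le_of_norm_hasDerivWithin_le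
      (f := fun x : ℝ => r * (1 + x) ^ (r - 1) - r - r * (r - 1) * x)
      (f' := fun x => r * (r - 1) * ((1 + x) ^ (r - 2) - 1)) (C := δ) (x := 0) (y := x)
      (fun y hy => (hd1 y ((abs_le.mpr hy).trans hx)).hasDerivWithinAt)
      (fun y hy => by rw [Real.norm_eq_abs]; exact hb y ((abs_le.mpr hy).trans hx))
      ⟨by simp, by simp⟩ ⟨neg_abs_le x, le_abs_self x⟩
    simpa using h
  intro x hx
  have h := (hconv |x|).norm_image_sub_le_of_norm_hasDerivWithin_le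
    (f := fun x : ℝ => (1 + x) ^ r - 1 - r * x - r * (r - 1) / 2 * x ^ 2)
    (f' := fun x => r * (1 + x) ^ (r - 1) - r - r * (r - 1) * x) (C := δ * |x|) (x := 0) (y := x)
    (fun y hy => (hd2 y ((abs_le.mpr hy).trans hx)).hasDerivWithinAt)
    (fun y hy => by
      rw [Real.norm_eq_abs]
      have h1 := hg1 y ((abs_le.mpr hy).trans hx)
      have h2 : |y| ≤ |x| := abs_le.mpr hy
      nlinarith)
    ⟨by simp, by simp⟩ ⟨neg_abs_le x, le_abs_self x⟩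
  have e : δ * |x| * |x| = δ * x ^ 2 := by rw [mul_assoc, ← pow_two, sq_abs]
  simpa [e] using h

/-- the quadratic form of the expansion, up to the factor `p / 2` -/
def QF (α β : ℝ) (w : ℂ) : ℝ := α * w.re ^ 2 + β * w.im ^ 2

/-- `‖1 + ε w‖ ^ p = 1 + p ε Re w + (p / 2) ε ^ 2 ((p - 1) (Re w) ^ 2 + (Im w) ^ 2) + o (ε ^ 2)` -/
theorem expand (p B δ : ℝ) (hp : 2 < p) (hB : 0 ≤ B) (hδ : 0 < δ) : ∃ ε₀ : ℝ, 0 < ε₀ ∧
    ∀ ε : ℝ, |ε| ≤ ε₀ → ∀ w : ℂ, ‖w‖ ≤ B →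
      |‖1 + (ε : ℂ) * w‖ ^ p - (1 + p * ε * w.re + ε ^ 2 * (p / 2 * QF (p - 1) 1 w))| ≤ δ * ε ^ 2 := by
  obtain ⟨M, hM⟩ : ∃ M, M = 2 * B + B ^ 2 := ⟨_, rfl⟩
  have hM0 : 0 ≤ M := by rw [hM]; positivity
  obtain ⟨η, hη, hη1, ht⟩ := taylor (p / 2) (δ / 2 / (M ^ 2 + 1)) (by positivity)
  obtain ⟨C, hC⟩ : ∃ C, C = |p / 2 * (p / 2 - 1) / 2| * (4 * B ^ 3 + B ^ 4) := ⟨_, rfl⟩
  have hC0 : 0 ≤ C := by rw [hC]; positivity
  refine ⟨min 1 (min (η / (M + 1)) (δ / 2 / (C + 1))), by positivity, fun ε hε w hw => ?_⟩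
  have h1 : |ε| ≤ 1 := hε.trans (min_le_left _ _)
  have h2 : |ε| ≤ η / (M + 1) := hε.trans ((min_le_right _ _).trans (min_le_left _ _))
  have h3 : |ε| ≤ δ / 2 / (C + 1) := hε.trans ((min_le_right _ _).trans (min_le_right _ _))
  obtain ⟨x, hx⟩ : ∃ x, x = 2 * ε * w.re + ε ^ 2 * ‖w‖ ^ 2 := ⟨_, rfl⟩
  have hw2 : ‖w‖ ^ 2 = w.re ^ 2 + w.im ^ 2 := by
    rw [← Complex.normSq_eq_norm_sq, Complex.normSq_apply]; ring
  have hsq : ‖1 + (ε : ℂ) * w‖ ^ 2 = 1 + x := by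
    rw [← Complex.normSq_eq_norm_sq, Complex.normSq_apply, hx, hw2]
    simp
    ring
  have hre : |w.re| ≤ B := (Complex.abs_re_le_norm w).trans hw
  have hwB : ‖w‖ ^ 2 ≤ B ^ 2 := pow_le_pow_left₀ (norm_nonneg _) hw 2
  have hxM : |x| ≤ |ε| * M := by
    rw [hx, hM]
    calc |2 * ε * w.re + ε ^ 2 * ‖w‖ ^ 2| ≤ |2 * ε * w.re| + |ε ^ 2 * ‖w‖ ^ 2| := abs_add_le _ _
      _ = 2 * |ε| * |w.re| + |ε| * |ε| * ‖w‖ ^ 2 := by
          rw [abs_mul, abs_mul, abs_mul, abs_two, abs_pow, abs_pow, abs_norm, pow_two |ε|]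
      _ ≤ 2 * |ε| * B + |ε| * 1 * B ^ 2 := by gcongr
      _ = |ε| * (2 * B + B ^ 2) := by ring
  have hxη : |x| ≤ η := by
    calc |x| ≤ |ε| * M := hxM
      _ ≤ η / (M + 1) * M := by gcongr
      _ ≤ η := by
          rw [div_mul_eq_mul_div, div_le_iff₀ (by positivity)]
          nlinarith
  have ht1 := ht x hxη
  have hpw : ‖1 + (ε : ℂ) * w‖ ^ p = (1 + x) ^ (p / 2) := by
    rw [← hsq, ← Real.rpow_natCast, ← Real.rpow_mul (norm_nonneg _)]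
    congr 1
    push_cast
    ring
  have hx2 : x ^ 2 ≤ ε ^ 2 * M ^ 2 := by
    have := pow_le_pow_left₀ (abs_nonneg x) hxM 2
    rwa [sq_abs, mul_pow, sq_abs] at this
  have hb1 : δ / 2 / (M ^ 2 + 1) * x ^ 2 ≤ δ / 2 * ε ^ 2 := by
    calc δ / 2 / (M ^ 2 + 1) * x ^ 2 ≤ δ / 2 / (M ^ 2 + 1) * (ε ^ 2 * M ^ 2) := by gcongr
      _ = δ / 2 * ε ^ 2 * (M ^ 2 / (M ^ 2 + 1)) := by ring
      _ ≤ δ / 2 * ε ^ 2 * 1 := by
          apply mul_le_mul_of_nonneg_left _ (by positivity)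
          rw [div_le_one (by positivity)]
          linarith
      _ = δ / 2 * ε ^ 2 := mul_one _
  have he : (1 + x) ^ (p / 2) - (1 + p * ε * w.re + ε ^ 2 * (p / 2 * QF (p - 1) 1 w))
      = ((1 + x) ^ (p / 2) - 1 - p / 2 * x - p / 2 * (p / 2 - 1) / 2 * x ^ 2)
        + p / 2 * (p / 2 - 1) / 2 * (4 * ε ^ 3 * w.re * ‖w‖ ^ 2 + ε ^ 4 * (‖w‖ ^ 2) ^ 2) := by
    rw [hx, QF, hw2]
    ring
  have hb2 : |p / 2 * (p / 2 - 1) / 2 * (4 * ε ^ 3 * w.re * ‖w‖ ^ 2 + ε ^ 4 * (‖w‖ ^ 2) ^ 2)|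
      ≤ δ / 2 * ε ^ 2 := by
    have h4 : |4 * ε ^ 3 * w.re * ‖w‖ ^ 2 + ε ^ 4 * (‖w‖ ^ 2) ^ 2|
        ≤ |ε| * ε ^ 2 * (4 * B ^ 3 + B ^ 4) := by
      calc |4 * ε ^ 3 * w.re * ‖w‖ ^ 2 + ε ^ 4 * (‖w‖ ^ 2) ^ 2|
          ≤ |4 * ε ^ 3 * w.re * ‖w‖ ^ 2| + |ε ^ 4 * (‖w‖ ^ 2) ^ 2| := abs_add_le _ _
        _ = 4 * (|ε| * |ε| ^ 2) * |w.re| * ‖w‖ ^ 2 + |ε| * |ε| ^ 2 * |ε| * (‖w‖ ^ 2) ^ 2 := by
            have e4 : |(4 : ℝ)| = 4 := by norm_num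
            simp only [abs_mul, abs_pow, abs_norm, e4]
            ring
        _ ≤ 4 * (|ε| * |ε| ^ 2) * B * B ^ 2 + |ε| * |ε| ^ 2 * 1 * (B ^ 2) ^ 2 := by gcongr
        _ = |ε| * ε ^ 2 * (4 * B ^ 3 + B ^ 4) := by rw [sq_abs]; ring
    rw [abs_mul]
    calc |p / 2 * (p / 2 - 1) / 2| * |4 * ε ^ 3 * w.re * ‖w‖ ^ 2 + ε ^ 4 * (‖w‖ ^ 2) ^ 2|
        ≤ |p / 2 * (p / 2 - 1) / 2| * (|ε| * ε ^ 2 * (4 * B ^ 3 + B ^ 4)) := by gcongr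
      _ = |ε| * C * ε ^ 2 := by rw [hC]; ring
      _ ≤ δ / 2 / (C + 1) * C * ε ^ 2 := by gcongr
      _ ≤ δ / 2 * ε ^ 2 := by
          apply mul_le_mul_of_nonneg_right _ (sq_nonneg _)
          rw [div_mul_eq_mul_div, div_le_iff₀ (by positivity)]
          nlinarith
  rw [hpw, he]
  calc _ ≤ |(1 + x) ^ (p / 2) - 1 - p / 2 * x - p / 2 * (p / 2 - 1) / 2 * x ^ 2|
        + |p / 2 * (p / 2 - 1) / 2 * (4 * ε ^ 3 * w.re * ‖w‖ ^ 2 + ε ^ 4 * (‖w‖ ^ 2) ^ 2)| :=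
          abs_add_le _ _
    _ ≤ δ / 2 * ε ^ 2 + δ / 2 * ε ^ 2 := add_le_add (ht1.trans hb1) hb2
    _ = δ * ε ^ 2 := by ring

end Pool.Agent.D0H14.SV
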