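import Mathlib
import Pool.Agent.D0H14.SV.Poly
import Pool.Agent.D0H14.SV.Tay

/-! The operators `∏ (a_j + σ ∂ / 2)` on smooth compactly supported functions, and their quadratic
integrals. -/

set_option autoImplicit false

open Set MeasureTheory
open scoped ContDiff

namespace Pool.Agent.D0H14.SV

/-- smooth functions supported in `[A, B]` -/
def SC (A B : ℝ) (f : ℝ → ℂ) : Prop := ContDiff ℝ ∞ f ∧ ∀ t, t ∉ Icc A B → f t = 0

/-- `(a + σ ∂ / 2) f` -/
noncomputable def st (σ a : ℝ) (f : ℝ → ℂ) (t : ℝ) : ℂ := (a : ℂ) * f t + (σ / 2 : ℝ) * deriv f t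

/-- `∏_{j<n} (a_j + σ ∂ / 2) f` -/
noncomputable def Dn (σ : ℝ) (a : ℕ → ℝ) : ℕ → (ℝ → ℂ) → ℝ → ℂ
  | 0, f => f
  | n + 1, f => st σ (a n) (Dn σ a n f)

theorem smooth_deriv {f : ℝ → ℂ} (hf : ContDiff ℝ ∞ f) : ContDiff ℝ ∞ (deriv f) :=
  (contDiff_infty_iff_deriv.mp hf).2

theorem st_smooth {σ a : ℝ} {f : ℝ → ℂ} (hf : ContDiff ℝ ∞ f) : ContDiff ℝ ∞ (st σ a f) :=
  (contDiff_const.mul hf).add (contDiff_const.mul (smooth_deriv hf))

theorem Dn_smooth {σ : ℝ} {a : ℕ → ℝ} (n : ℕ) {f : ℝ → ℂ} (hf : ContDiff ℝ ∞ f) :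
    ContDiff ℝ ∞ (Dn σ a n f) := by
  induction n with
  | zero => exact hf
  | succ n ih => exact st_smooth ih

theorem deriv_st {σ a : ℝ} {f : ℝ → ℂ} (hf : ContDiff ℝ ∞ f) :
    deriv (st σ a f) = st σ a (deriv f) := by
  funext t
  have h1 := (hf.differentiable (by simp)).differentiableAt (x := t)
  have h2 := ((smooth_deriv hf).differentiable (by simp)).differentiableAt (x := t)
  exact ((h1.hasDerivAt.const_mul (a : ℂ)).fun_add (h2.hasDerivAt.const_mul ((σ / 2 : ℝ) : ℂ))).deriv

theorem deriv_Dn {σ : ℝ} {a : ℕ → ℝ} (n : ℕ) {f : ℝ → ℂ} (hf : ContDiff ℝ ∞ f) :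
    deriv (Dn σ a n f) = Dn σ a n (deriv f) := by
  induction n with
  | zero => rfl
  | succ n ih =>
    show deriv (st σ (a n) (Dn σ a n f)) = st σ (a n) (Dn σ a n (deriv f))
    rw [deriv_st (Dn_smooth n hf), ih]

theorem SC.deriv {A B : ℝ} {f : ℝ → ℂ} (hf : SC A B f) : SC A B (deriv f) := by
  refine ⟨smooth_deriv hf.1, fun t ht => ?_⟩
  have h1 : f =ᶠ[nhds t] fun _ => 0 := by
    filter_upwards [isClosed_Icc.isOpen_compl.mem_nhds ht] with x hx
    exact hf.2 x hx
  rw [h1.deriv_eq]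
  simp

theorem SC.st {A B σ a : ℝ} {f : ℝ → ℂ} (hf : SC A B f) : SC A B (st σ a f) := by
  refine ⟨st_smooth hf.1, fun t ht => ?_⟩
  rw [SV.st, hf.2 t ht, hf.deriv.2 t ht]
  simp

theorem SC.Dn {A B σ : ℝ} {a : ℕ → ℝ} (n : ℕ) {f : ℝ → ℂ} (hf : SC A B f) :
    SC A B (Dn σ a n f) := by
  induction n with
  | zero => exact hf
  | succ n ih => exact ih.st

theorem SC.iter {A B : ℝ} {f : ℝ → ℂ} (hf : SC A B f) (n : ℕ) : SC A B (_root_.deriv^[n] f) := by
  induction n with
  | zero => exact hf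
  | succ n ih => rw [Function.iterate_succ_apply']; exact ih.deriv

/-- integral of a compactly supported continuous function and its restriction -/
theorem int_Icc {E : Type*} [NormedAddCommGroup E] [NormedSpace ℝ E] {A B : ℝ} {g : ℝ → E}
    (hg : ∀ t, t ∉ Icc A B → g t = 0) : ∫ t in Icc A B, g t = ∫ t, g t :=
  setIntegral_eq_integral_of_forall_compl_eq_zero hg

theorem SC.cpt {A B : ℝ} {f : ℝ → ℂ} (hf : SC A B f) : HasCompactSupport f :=
  HasCompactSupport.intro isCompact_Icc hf.2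

/-- the integral of a derivative vanishes -/
theorem int_deriv {E : Type*} [NormedAddCommGroup E] [NormedSpace ℝ E] [CompleteSpace E]
    {A B : ℝ} {g g' : ℝ → E}
    (hd : ∀ t, HasDerivAt g (g' t) t) (hc : Continuous g') (hg : ∀ t, t ∉ Icc A B → g t = 0)
    (hg' : ∀ t, t ∉ Icc A B → g' t = 0) : ∫ t, g' t = 0 := by
  rcases lt_or_ge B A with h | h
  · have : ∀ t, g' t = 0 := fun t => hg' t (fun ht => by linarith [ht.1, ht.2])
    simp [this]
  · have h1 : ∫ t, g' t = ∫ t in (A - 1)..(B + 1), g' t := by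
      rw [← int_Icc (A := A - 1) (B := B + 1) (g := g')
        (fun t ht => hg' t fun h2 => ht ⟨by linarith [h2.1], by linarith [h2.2]⟩),
        integral_Icc_eq_integral_Ioc, intervalIntegral.integral_of_le (by linarith)]
    rw [h1, intervalIntegral.integral_eq_sub_of_hasDerivAt (fun t _ => hd t)
      (hc.intervalIntegrable _ _), hg (B + 1) (fun h2 => by linarith [h2.2]),
      hg (A - 1) (fun h2 => by linarith [h2.1]), sub_zero]

/-- the quadratic integral -/
noncomputable def NQ (α β : ℝ) (h : ℝ → ℂ) : ℝ := ∫ t, QF α β (h t)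

theorem QF_cont (α β : ℝ) : Continuous (QF α β) := by unfold QF; fun_prop

theorem QF_zero (α β : ℝ) : QF α β 0 = 0 := by simp [QF]

theorem QF_int {A B : ℝ} {h : ℝ → ℂ} (hh : SC A B h) (α β : ℝ) :
    Integrable fun t => QF α β (h t) := by
  apply Continuous.integrable_of_hasCompactSupport
  · exact (QF_cont α β).comp hh.1.continuous
  · exact HasCompactSupport.intro isCompact_Icc fun t ht => by rw [hh.2 t ht, QF_zero]

theorem NQ_nonneg {α β : ℝ} (hα : 0 ≤ α) (hβ : 0 ≤ β) (h : ℝ → ℂ) : 0 ≤ NQ α β h :=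
  integral_nonneg fun t => by unfold QF; positivity

/-- `N ((a + σ ∂ / 2) h) = a ^ 2 N h + N h' / 4` -/
theorem NQ_st {A B : ℝ} {h : ℝ → ℂ} (hh : SC A B h) {σ : ℝ} (hσ : σ ^ 2 = 1) (a α β : ℝ) :
    NQ α β (st σ a h) = a ^ 2 * NQ α β h + NQ α β (deriv h) / 4 := by
  have hd : ∀ t, HasDerivAt h (deriv h t) t := fun t =>
    ((hh.1.differentiable (by simp)).differentiableAt (x := t)).hasDerivAt
  have hdr : ∀ t, HasDerivAt (fun t => (h t).re) (deriv h t).re t := fun t =>
    (Complex.reCLM.hasFDerivAt.comp_hasDerivAt t (hd t))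
  have hdi : ∀ t, HasDerivAt (fun t => (h t).im) (deriv h t).im t := fun t =>
    (Complex.imCLM.hasFDerivAt.comp_hasDerivAt t (hd t))
  have hc := hh.1.continuous
  have hc' := hh.deriv.1.continuous
  have hcr : Continuous fun t => (h t).re := Complex.continuous_re.comp hc
  have hci : Continuous fun t => (h t).im := Complex.continuous_im.comp hc
  have hcr' : Continuous fun t => (deriv h t).re := Complex.continuous_re.comp hc'
  have hci' : Continuous fun t => (deriv h t).im := Complex.continuous_im.comp hc'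
  have h0 : ∫ t, (α * (2 * (h t).re * (deriv h t).re) + β * (2 * (h t).im * (deriv h t).im))
      = 0 := by
    apply int_deriv (A := A) (B := B) (g := fun t => QF α β (h t))
    · intro t
      have := (((hdr t).fun_pow 2).const_mul α).fun_add (((hdi t).fun_pow 2).const_mul β)
      refine this.congr_deriv ?_
      simp
    · fun_prop
    · intro t ht
      show QF α β (h t) = 0
      rw [hh.2 t ht, QF_zero]
    · intro t ht
      rw [hh.2 t ht]
      simp
  have hI : Integrable fun t => (α * (2 * (h t).re * (deriv h t).re)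
      + β * (2 * (h t).im * (deriv h t).im)) := by
    apply Continuous.integrable_of_hasCompactSupport
    · fun_prop
    · exact HasCompactSupport.intro isCompact_Icc fun t ht => by rw [hh.2 t ht]; simp
  have e : ∀ t, QF α β (st σ a h t) = a ^ 2 * QF α β (h t)
      + (a * σ / 2) * (α * (2 * (h t).re * (deriv h t).re) + β * (2 * (h t).im * (deriv h t).im))
      + QF α β (deriv h t) / 4 := by
    intro t
    simp only [QF, st, Complex.add_re, Complex.add_im, Complex.re_ofReal_mul, Complex.im_ofReal_mul]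
    have h4 : (σ / 2) ^ 2 = 1 / 4 := by rw [div_pow, hσ]; norm_num
    linear_combination (α * (deriv h t).re ^ 2 + β * (deriv h t).im ^ 2) * h4
  rw [NQ, NQ, NQ]
  simp_rw [e]
  have i1 : Integrable fun t => a ^ 2 * QF α β (h t) := (QF_int hh α β).const_mul _
  have i2 : Integrable fun t => (a * σ / 2) * (α * (2 * (h t).re * (deriv h t).re)
      + β * (2 * (h t).im * (deriv h t).im)) := hI.const_mul _
  have i3 : Integrable fun t => QF α β (deriv h t) / 4 := (QF_int hh.deriv α β).div_const _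
  have i12 : Integrable fun t => a ^ 2 * QF α β (h t) + (a * σ / 2) * (α * (2 * (h t).re
      * (deriv h t).re) + β * (2 * (h t).im * (deriv h t).im)) := i1.add i2
  rw [integral_add i12 i3, integral_add i1 i2, integral_const_mul, integral_const_mul,
    integral_div, h0]
  ring

/-- `∫ (a + σ ∂ / 2) h = a ∫ h` -/
theorem int_st {A B : ℝ} {h : ℝ → ℂ} (hh : SC A B h) (σ a : ℝ) :
    ∫ t, st σ a h t = a * ∫ t, h t := by
  have hd : ∀ t, HasDerivAt h (deriv h t) t := fun t =>
    ((hh.1.differentiable (by simp)).differentiableAt (x := t)).hasDerivAt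
  have h0 := int_deriv hd hh.deriv.1.continuous hh.2 hh.deriv.2
  have i1 : Integrable h := hh.1.continuous.integrable_of_hasCompactSupport hh.cpt
  have i2 : Integrable (deriv h) :=
    hh.deriv.1.continuous.integrable_of_hasCompactSupport hh.deriv.cpt
  unfold st
  rw [integral_add (i1.const_mul _) (i2.const_mul _), integral_const_mul, integral_const_mul, h0]
  simp

theorem int_Dn {A B : ℝ} {h : ℝ → ℂ} (hh : SC A B h) (σ : ℝ) (a : ℕ → ℝ) (n : ℕ) :
    ∫ t, Dn σ a n h t = (∏ j ∈ Finset.range n, a j : ℝ) * ∫ t, h t := by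
  induction n with
  | zero => simp [Dn]
  | succ n ih =>
    show ∫ t, st σ (a n) (Dn σ a n h) t = _
    rw [int_st (hh.Dn n), ih, Finset.prod_range_succ]
    push_cast
    ring

open Polynomial in
/-- the formula `N (∏ (a_j + σ ∂ / 2) f) = ∑ coeff_i (∏ (T + a_j ^ 2)) N (f^(i)) / 4 ^ i` -/
theorem NQ_Dn {A B : ℝ} {σ : ℝ} (hσ : σ ^ 2 = 1) (a : ℕ → ℝ) (α β : ℝ) (n : ℕ) :
    ∀ f : ℝ → ℂ, SC A B f → NQ α β (Dn σ a n f)
      = ∑ i ∈ Finset.range (n + 1), (∏ j ∈ Finset.range n, (X + C (a j ^ 2)) : ℝ[X]).coeff i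
        * (NQ α β (deriv^[i] f) / 4 ^ i) := by
  induction n with
  | zero => intro f hf; simp [Dn]
  | succ n ih =>
    intro f hf
    show NQ α β (st σ (a n) (Dn σ a n f)) = _
    rw [NQ_st (hf.Dn n) hσ, deriv_Dn n hf.1, ih f hf, ih _ hf.deriv]
    obtain ⟨P, hP⟩ : ∃ P : ℝ[X], P = ∏ j ∈ Finset.range n, (X + C (a j ^ 2)) := ⟨_, rfl⟩
    have hdeg : P.coeff (n + 1) = 0 := by
      apply coeff_eq_zero_of_natDegree_lt
      rw [hP, natDegree_prod_of_monic _ _ fun j _ => monic_X_add_C _]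
      simp_rw [natDegree_X_add_C]
      simp
    rw [Finset.prod_range_succ, ← hP]
    have e1 : ∀ i, (P * (X + C (a n ^ 2))).coeff i = (P * X).coeff i + a n ^ 2 * P.coeff i := by
      intro i
      rw [mul_add, coeff_add, coeff_mul_C]
      ring
    simp_rw [e1, add_mul]
    rw [Finset.sum_add_distrib, Finset.sum_range_succ' _ (n + 1), Finset.sum_range_succ _ (n + 1),
      hdeg]
    simp_rw [coeff_mul_X]
    have e2 : (P * X).coeff 0 = 0 := by simp
    rw [e2, Finset.mul_sum, Finset.sum_div]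
    have e3 : ∀ i, P.coeff i * (NQ α β (deriv^[i + 1] f) / 4 ^ (i + 1))
        = P.coeff i * (NQ α β (deriv^[i] (deriv f)) / 4 ^ i) / 4 := by
      intro i
      rw [Function.iterate_succ_apply, pow_succ]
      ring
    simp_rw [e3]
    have e4 : ∀ i, a n ^ 2 * (P.coeff i * (NQ α β (deriv^[i] f) / 4 ^ i))
        = a n ^ 2 * P.coeff i * (NQ α β (deriv^[i] f) / 4 ^ i) := fun i => by ring
    simp_rw [e4]
    ring

/-- a smooth compactly supported function with a vanishing derivative of some order vanishes -/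
theorem zero_of_iter {A B : ℝ} {f : ℝ → ℂ} (hf : SC A B f) (n : ℕ)
    (h : ∀ t, deriv^[n] f t = 0) : ∀ t, f t = 0 := by
  induction n with
  | zero => exact h
  | succ n ih =>
    apply ih
    have h1 := hf.iter n
    have hdiff : Differentiable ℝ (deriv^[n] f) := h1.1.differentiable (by simp)
    have h2 : ∀ x y, deriv^[n] f x = deriv^[n] f y :=
      is_const_of_deriv_eq_zero hdiff fun t => by
        rw [← Function.iterate_succ_apply' deriv n f]; exact h t
    intro t
    rw [h2 t (B + 1)]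
    exact h1.2 _ fun h3 => by linarith [h3.2]

theorem NQ_pos {A B : ℝ} {f : ℝ → ℂ} (hf : SC A B f) {α β : ℝ} (hα : 0 < α) (hβ : 0 < β)
    (hne : ∃ t, f t ≠ 0) : 0 < NQ α β f := by
  have hc : Continuous fun t => QF α β (f t) := (QF_cont α β).comp hf.1.continuous
  have hnn : ∀ t, 0 ≤ QF α β (f t) := fun t => by unfold QF; positivity
  rw [NQ, integral_pos_iff_support_of_nonneg hnn (QF_int hf α β)]
  obtain ⟨t, ht⟩ := hne
  refine hc.isOpen_support.measure_pos volume ⟨t, ?_⟩
  show QF α β (f t) ≠ 0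
  intro h0
  apply ht
  unfold QF at h0
  have h1 : 0 ≤ α * (f t).re ^ 2 := by positivity
  have h2 : 0 ≤ β * (f t).im ^ 2 := by positivity
  have h3 : α * (f t).re ^ 2 = 0 := by linarith
  have h4 : β * (f t).im ^ 2 = 0 := by linarith
  have h5 : (f t).re = 0 := by
    rcases mul_eq_zero.mp h3 with h | h
    · exact absurd h hα.ne'
    · exact pow_eq_zero_iff (two_ne_zero) |>.mp h
  have h6 : (f t).im = 0 := by
    rcases mul_eq_zero.mp h4 with h | h
    · exact absurd h hβ.ne'
    · exact pow_eq_zero_iff (two_ne_zero) |>.mp h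
  exact Complex.ext h5 h6

end Pool.Agent.D0H14.SV
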