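import Mathlib
import Pool.Agent.D0H14.BA.Cal
import Pool.Agent.D0H14.SV.Ops

/-! Wirtinger derivatives of sums of functions `z ^ k H (log ‖z‖)`. -/

set_option autoImplicit false

open Set MeasureTheory
open scoped ContDiff

namespace Pool.Agent.D0H14.SV

open Pool.Agent.D0H14.BA

/-- `z ^ k H (log ‖z‖)` -/
noncomputable def MM (k : ℤ) (H : ℝ → ℂ) (z : ℂ) : ℂ := z ^ k * H (Real.log ‖z‖)

theorem log_fderiv {z : ℂ} (hz : z ≠ 0) :
    ∃ L : ℂ →L[ℝ] ℝ, HasFDerivAt (fun z : ℂ => Real.log ‖z‖) L z ∧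
      L 1 = z.re / ‖z‖ ^ 2 ∧ L Complex.I = z.im / ‖z‖ ^ 2 := by
  have hn : (0 : ℝ) < ‖z‖ := norm_pos_iff.mpr hz
  have hre : HasFDerivAt (fun z : ℂ => z.re) Complex.reCLM z := Complex.reCLM.hasFDerivAt
  have him : HasFDerivAt (fun z : ℂ => z.im) Complex.imCLM z := Complex.imCLM.hasFDerivAt
  have hsq : z.re ^ 2 + z.im ^ 2 = ‖z‖ ^ 2 := by
    rw [← Complex.normSq_eq_norm_sq, Complex.normSq_apply]; ring
  have h0 : HasFDerivAt (fun z : ℂ => z.re ^ 2 + z.im ^ 2) _ z := (hre.pow 2).add (him.pow 2)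
  have h1 := (h0.log (by rw [hsq]; positivity)).const_mul (1 / 2 : ℝ)
  have e : (fun z : ℂ => Real.log ‖z‖) = fun z : ℂ => (1 / 2 : ℝ) * Real.log (z.re ^ 2 + z.im ^ 2) := by
    funext w
    have hsq' : w.re ^ 2 + w.im ^ 2 = ‖w‖ ^ 2 := by
      rw [← Complex.normSq_eq_norm_sq, Complex.normSq_apply]; ring
    rw [hsq', Real.log_pow]
    push_cast
    ring
  rw [← e] at h1
  refine ⟨_, h1, ?_, ?_⟩
  · rw [hsq]
    simp
    field_simp
  · rw [hsq]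
    simp
    field_simp

theorem zpow_fderiv (k : ℤ) {z : ℂ} (hz : z ≠ 0) :
    ∃ L : ℂ →L[ℝ] ℂ, HasFDerivAt (fun z : ℂ => z ^ k) L z ∧
      L 1 = k * z ^ (k - 1) ∧ L Complex.I = k * z ^ (k - 1) * Complex.I := by
  have h1 := (hasDerivAt_zpow k z (Or.inl hz)).hasFDerivAt.restrictScalars ℝ
  refine ⟨_, h1, ?_, ?_⟩
  · simp
  · simp [mul_comm]

theorem MM_fderiv (k : ℤ) {H : ℝ → ℂ} (hH : ContDiff ℝ ∞ H) {z : ℂ} (hz : z ≠ 0) :
    DifferentiableAt ℝ (MM k H) z ∧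
    fderiv ℝ (MM k H) z 1 = k * z ^ (k - 1) * H (Real.log ‖z‖)
      + z ^ k * ((z.re / ‖z‖ ^ 2 : ℝ) * deriv H (Real.log ‖z‖)) ∧
    fderiv ℝ (MM k H) z Complex.I = k * z ^ (k - 1) * Complex.I * H (Real.log ‖z‖)
      + z ^ k * ((z.im / ‖z‖ ^ 2 : ℝ) * deriv H (Real.log ‖z‖)) := by
  obtain ⟨L, hL, l1, l2⟩ := log_fderiv hz
  obtain ⟨P, hP, p1, p2⟩ := zpow_fderiv k hz
  have hHd : HasDerivAt H (deriv H (Real.log ‖z‖)) (Real.log ‖z‖) :=
    ((hH.differentiable (by simp)).differentiableAt).hasDerivAt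
  have h2 : HasFDerivAt (fun z : ℂ => H (Real.log ‖z‖)) _ z := hHd.hasFDerivAt.comp z hL
  have h3 : HasFDerivAt (MM k H) _ z := hP.mul h2
  refine ⟨h3.differentiableAt, ?_, ?_⟩
  · rw [h3.fderiv]
    simp [p1, l1, Complex.real_smul]
    ring
  · rw [h3.fderiv]
    simp [p2, l2, Complex.real_smul]
    ring

theorem zsplit (z : ℂ) : (z.re : ℂ) + z.im * Complex.I = z := Complex.re_add_im z

theorem MM_dz (k : ℤ) {H : ℝ → ℂ} (hH : ContDiff ℝ ∞ H) {z : ℂ} (hz : z ≠ 0) :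
    dz (MM k H) z = z ^ (k - 1) * st 1 k H (Real.log ‖z‖) := by
  obtain ⟨-, h1, h2⟩ := MM_fderiv k hH hz
  have hn : ((‖z‖ : ℝ) : ℂ) ≠ 0 := by simpa using hz
  have hzz : (‖z‖ : ℂ) ^ 2 = z * (z.re - z.im * Complex.I) := by
    have : (‖z‖ ^ 2 : ℝ) = z.re ^ 2 + z.im ^ 2 := by
      rw [← Complex.normSq_eq_norm_sq, Complex.normSq_apply]; ring
    rw [← Complex.ofReal_pow, this]
    push_cast
    linear_combination ((z.re : ℂ) - z.im * Complex.I) * zsplit z + (z.im : ℂ) ^ 2 * Complex.I_sq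
  have hk : z ^ k = z ^ (k - 1) * z := by
    rw [← zpow_add_one₀ hz]; congr 1; ring
  rw [dz, h1, h2, st, hk]
  push_cast
  have h3 : z * ((z.re : ℂ) / (‖z‖ : ℂ) ^ 2 - Complex.I * (z.im / (‖z‖ : ℂ) ^ 2)) = 1 := by
    field_simp
    linear_combination -hzz
  linear_combination (z ^ (k - 1) * deriv H (Real.log ‖z‖) / 2) * h3
    + (-(k : ℂ) * z ^ (k - 1) * H (Real.log ‖z‖) / 2) * Complex.I_mul_I

theorem MM_dzb (k : ℤ) {H : ℝ → ℂ} (hH : ContDiff ℝ ∞ H) {z : ℂ} (hz : z ≠ 0) :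
    dzb (MM k H) z = z ^ (k + 1) * ((Real.exp (-2 * Real.log ‖z‖) : ℝ)
      * (deriv H (Real.log ‖z‖) / 2)) := by
  obtain ⟨-, h1, h2⟩ := MM_fderiv k hH hz
  have hn0 : 0 < ‖z‖ := norm_pos_iff.mpr hz
  have hn : ((‖z‖ : ℝ) : ℂ) ≠ 0 := by simpa using hz
  have hk : z ^ (k + 1) = z ^ k * z := zpow_add_one₀ hz k
  have he : Real.exp (-2 * Real.log ‖z‖) = 1 / ‖z‖ ^ 2 := by
    rw [neg_mul, Real.exp_neg, mul_comm, Real.exp_mul, Real.exp_log hn0]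
    norm_num
  rw [dzb, h1, h2, hk, he]
  push_cast
  have h3 : (z.re : ℂ) / (‖z‖ : ℂ) ^ 2 + Complex.I * (z.im / (‖z‖ : ℂ) ^ 2)
      = z * (1 / (‖z‖ : ℂ) ^ 2) := by
    linear_combination (1 / (‖z‖ : ℂ) ^ 2) * zsplit z
  linear_combination (z ^ k * deriv H (Real.log ‖z‖) / 2) * h3
    + ((k : ℂ) * z ^ (k - 1) * H (Real.log ‖z‖) / 2) * Complex.I_mul_I

/-- `∂ ^ j (z ^ k H)` -/
noncomputable def AZ (k : ℤ) (H : ℝ → ℂ) (j : ℕ) : ℝ → ℂ := Dn 1 (fun l => (k : ℝ) - l) j H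

/-- `∂̄ ^ j (z ^ k H)` -/
noncomputable def BZ (H : ℝ → ℂ) : ℕ → ℝ → ℂ
  | 0 => H
  | j + 1 => fun t => (Real.exp (-2 * t) : ℝ) * (deriv (BZ H j) t / 2)

theorem exp_smooth (c : ℝ) : ContDiff ℝ ∞ fun t : ℝ => ((Real.exp (c * t) : ℝ) : ℂ) :=
  Complex.ofRealCLM.contDiff.comp (Real.contDiff_exp.comp (contDiff_const.mul contDiff_id))

theorem BZ_smooth {H : ℝ → ℂ} (hH : ContDiff ℝ ∞ H) (j : ℕ) : ContDiff ℝ ∞ (BZ H j) := by
  induction j with
  | zero => exact hH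
  | succ j ih => exact (exp_smooth (-2)).mul ((smooth_deriv ih).div_const _)

theorem congr_dz {u v : ℂ → ℂ} (h : ∀ z, z ≠ 0 → u z = v z) {z : ℂ} (hz : z ≠ 0) :
    dz u z = dz v z := by
  have h1 : u =ᶠ[nhds z] v := by
    filter_upwards [nhds_ne hz] with x hx
    exact h x hx
  rw [dz, dz, h1.fderiv_eq]

theorem congr_dzb {u v : ℂ → ℂ} (h : ∀ z, z ≠ 0 → u z = v z) {z : ℂ} (hz : z ≠ 0) :
    dzb u z = dzb v z := by
  have h1 : u =ᶠ[nhds z] v := by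
    filter_upwards [nhds_ne hz] with x hx
    exact h x hx
  rw [dzb, dzb, h1.fderiv_eq]

theorem dz_sum {ι : Type*} (S : Finset ι) (f : ι → ℂ → ℂ) {z : ℂ}
    (hf : ∀ i ∈ S, DifferentiableAt ℝ (f i) z) :
    dz (fun z => ∑ i ∈ S, f i z) z = ∑ i ∈ S, dz (f i) z := by
  have h := fderiv_fun_sum hf
  simp only [dz, h, ContinuousLinearMap.sum_apply, Finset.mul_sum]
  rw [← Finset.sum_sub_distrib, Finset.sum_div]

theorem dzb_sum {ι : Type*} (S : Finset ι) (f : ι → ℂ → ℂ) {z : ℂ}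
    (hf : ∀ i ∈ S, DifferentiableAt ℝ (f i) z) :
    dzb (fun z => ∑ i ∈ S, f i z) z = ∑ i ∈ S, dzb (f i) z := by
  have h := fderiv_fun_sum hf
  simp only [dzb, h, ContinuousLinearMap.sum_apply, Finset.mul_sum]
  rw [← Finset.sum_add_distrib, Finset.sum_div]

theorem dz_iter {ι : Type*} (S : Finset ι) (k : ι → ℤ) (H : ι → ℝ → ℂ)
    (hH : ∀ i, ContDiff ℝ ∞ (H i)) {u : ℂ → ℂ}
    (hu : ∀ z, z ≠ 0 → u z = ∑ i ∈ S, MM (k i) (H i) z) (j : ℕ) :
    ∀ z, z ≠ 0 → (dz^[j] u) z = ∑ i ∈ S, MM (k i - j) (AZ (k i) (H i) j) z := by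
  induction j with
  | zero =>
    intro z hz
    rw [Function.iterate_zero, id, hu z hz]
    simp [AZ, Dn]
  | succ j ih =>
    intro z hz
    rw [Function.iterate_succ_apply', congr_dz ih hz, dz_sum]
    · apply Finset.sum_congr rfl
      intro i _
      rw [MM_dz _ (show ContDiff ℝ ∞ (AZ (k i) (H i) j) from Dn_smooth j (hH i)) hz, MM]
      have e1 : k i - (j + 1 : ℕ) = k i - j - 1 := by push_cast; ring
      have e2 : AZ (k i) (H i) (j + 1) = st 1 ((k i : ℝ) - j) (AZ (k i) (H i) j) := rfl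
      rw [e1, e2]
      push_cast
      rfl
    · intro i _
      exact (MM_fderiv _ (Dn_smooth j (hH i)) hz).1

theorem dzb_iter {ι : Type*} (S : Finset ι) (k : ι → ℤ) (H : ι → ℝ → ℂ)
    (hH : ∀ i, ContDiff ℝ ∞ (H i)) {u : ℂ → ℂ}
    (hu : ∀ z, z ≠ 0 → u z = ∑ i ∈ S, MM (k i) (H i) z) (j : ℕ) :
    ∀ z, z ≠ 0 → (dzb^[j] u) z = ∑ i ∈ S, MM (k i + j) (BZ (H i) j) z := by
  induction j with
  | zero =>
    intro z hz
    rw [Function.iterate_zero, id, hu z hz]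
    simp [BZ]
  | succ j ih =>
    intro z hz
    rw [Function.iterate_succ_apply', congr_dzb ih hz, dzb_sum]
    · apply Finset.sum_congr rfl
      intro i _
      rw [MM_dzb _ (BZ_smooth (hH i) j) hz, MM]
      have e1 : k i + (j + 1 : ℕ) = k i + j + 1 := by push_cast; ring
      rw [e1]
      rfl
    · intro i _
      exact (MM_fderiv _ (BZ_smooth (hH i) j) hz).1

/-- conjugation with exponentials -/
theorem st_exp {σ a c : ℝ} {φ : ℝ → ℂ} (hφ : ContDiff ℝ ∞ φ) (t : ℝ) :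
    st σ a (fun t => ((Real.exp (c * t) : ℝ) : ℂ) * φ t) t
      = ((Real.exp (c * t) : ℝ) : ℂ) * st σ (a + σ / 2 * c) φ t := by
  have h1 : HasDerivAt (fun t : ℝ => ((Real.exp (c * t) : ℝ) : ℂ))
      (((Real.exp (c * t) * c : ℝ)) : ℂ) t := by
    have h2 : HasDerivAt (fun t : ℝ => Real.exp (c * t)) (Real.exp (c * t) * c) t := by
      have := ((hasDerivAt_id t).const_mul c).exp
      simpa using this
    exact h2.ofReal_comp
  have h2 := ((hφ.differentiable (by simp)).differentiableAt (x := t)).hasDerivAt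
  rw [st, (h1.fun_mul h2).deriv, st]
  push_cast
  ring

theorem AZ_exp (k : ℤ) (c : ℝ) {φ : ℝ → ℂ} (hφ : ContDiff ℝ ∞ φ) (j : ℕ) :
    AZ k (fun t => ((Real.exp (c * t) : ℝ) : ℂ) * φ t) j
      = fun t => ((Real.exp (c * t) : ℝ) : ℂ) * Dn 1 (fun l => (k : ℝ) - l + c / 2) j φ t := by
  induction j with
  | zero => rfl
  | succ j ih =>
    funext t
    show st 1 ((k : ℝ) - j) (AZ k _ j) t = _
    rw [ih, st_exp (Dn_smooth j hφ)]
    have : (k : ℝ) - j + 1 / 2 * c = k - j + c / 2 := by ring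
    rw [this]
    rfl

theorem BZ_exp (c : ℝ) {φ : ℝ → ℂ} (hφ : ContDiff ℝ ∞ φ) (j : ℕ) :
    BZ (fun t => ((Real.exp (-c * t) : ℝ) : ℂ) * φ t) j
      = fun t => (-1) ^ j * ((Real.exp (-(c + 2 * j) * t) : ℝ) : ℂ)
        * Dn (-1) (fun l => c / 2 + l) j φ t := by
  induction j with
  | zero =>
    funext t
    simp [BZ, Dn]
  | succ j ih =>
    funext t
    show (Real.exp (-2 * t) : ℝ) * (deriv (BZ _ j) t / 2) = _
    rw [ih]
    have e0 : (fun t => (-1 : ℂ) ^ j * ((Real.exp (-(c + 2 * j) * t) : ℝ) : ℂ)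
        * Dn (-1) (fun l => c / 2 + l) j φ t) = fun t => (-1 : ℂ) ^ j
        * (((Real.exp (-(c + 2 * j) * t) : ℝ) : ℂ) * Dn (-1) (fun l => c / 2 + l) j φ t) := by
      funext t; ring
    have hs := Dn_smooth (σ := -1) (a := fun l => c / 2 + l) j hφ
    have hsm : DifferentiableAt ℝ (fun t => ((Real.exp (-(c + 2 * j) * t) : ℝ) : ℂ)
        * Dn (-1) (fun l => c / 2 + l) j φ t) t :=
      (((exp_smooth (-(c + 2 * j))).mul hs).differentiable (by simp)).differentiableAt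
    rw [e0, deriv_const_mul _ hsm]
    have h1 := st_exp (σ := -1) (a := 0) (c := -(c + 2 * j)) hs t
    rw [st] at h1
    have e1 : (0 : ℝ) + -1 / 2 * -(c + 2 * j) = c / 2 + j := by ring
    rw [e1] at h1
    have e2 : Dn (-1) (fun l : ℕ => c / 2 + l) (j + 1) φ t
        = st (-1) (c / 2 + j) (Dn (-1) (fun l => c / 2 + l) j φ) t := rfl
    rw [e2]
    have e3 : ((Real.exp (-(c + 2 * (j + 1 : ℕ)) * t) : ℝ) : ℂ)
        = (Real.exp (-2 * t) : ℝ) * ((Real.exp (-(c + 2 * j) * t) : ℝ) : ℂ) := by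
      rw [← Complex.ofReal_mul, ← Real.exp_add]
      congr 2
      push_cast
      ring
    rw [e3, pow_succ]
    push_cast at h1 ⊢
    linear_combination (-(-1 : ℂ) ^ j * Complex.exp (-2 * t)) * h1

end Pool.Agent.D0H14.SV
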