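import Mathlib
import Pool.Agent.D0H14.SV.Wir

/-! Polar coordinates on annuli and trigonometric sums. -/

set_option autoImplicit false

open Set MeasureTheory
open scoped ContDiff

namespace Pool.Agent.D0H14.SV

open Pool.Agent.D0H14.BA

/-- polar coordinates on an annulus, with `t = log r` -/
theorem polar_int {G : ℂ → ℂ} {g : ℝ → ℝ → ℝ} (hg : Continuous (Function.uncurry g)) {p a b : ℝ}
    (ha : 0 < a) (hab : a ≤ b)
    (h : ∀ t θ : ℝ, ‖G ((Real.exp t : ℝ) * ci θ)‖ ^ p = Real.exp (-2 * t) * g t θ) :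
    ∫ z in {z : ℂ | a ≤ ‖z‖ ∧ ‖z‖ ≤ b}, ‖G z‖ ^ p
      = ∫ t in (Real.log a)..(Real.log b), ∫ θ in (-Real.pi)..Real.pi, g t θ := by
  have hpi := Real.pi_pos
  have hS : MeasurableSet {z : ℂ | a ≤ ‖z‖ ∧ ‖z‖ ≤ b} :=
    (measurableSet_le measurable_const measurable_norm).inter
      (measurableSet_le measurable_norm measurable_const)
  rw [← integral_indicator hS, ← Complex.integral_comp_polarCoord_symm]
  have h1 : ∀ x ∈ polarCoord.target,
      x.1 • ({z : ℂ | a ≤ ‖z‖ ∧ ‖z‖ ≤ b}.indicator (fun z => ‖G z‖ ^ p))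
        (Complex.polarCoord.symm x)
      = (Icc a b ×ˢ (univ : Set ℝ)).indicator (fun x : ℝ × ℝ => x.1⁻¹ * g (Real.log x.1) x.2) x := by
    intro x hx
    have hx1 : 0 < x.1 := hx.1
    have e1 : Complex.polarCoord.symm x = x.1 * ci x.2 := by
      rw [Complex.polarCoord_symm_apply, ci_split]
    have e2 : ‖Complex.polarCoord.symm x‖ = x.1 := by
      rw [e1, norm_mul, ci_norm, mul_one, Complex.norm_real, Real.norm_of_nonneg hx1.le]
    by_cases hr : x.1 ∈ Icc a b
    · have hz : Complex.polarCoord.symm x ∈ {z : ℂ | a ≤ ‖z‖ ∧ ‖z‖ ≤ b} := by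
        simp only [mem_setOf_eq, e2]
        exact hr
      have hr' : x ∈ Icc a b ×ˢ (univ : Set ℝ) := ⟨hr, mem_univ _⟩
      rw [indicator_of_mem hz, indicator_of_mem hr', e1]
      have h3 := h (Real.log x.1) x.2
      rw [Real.exp_log hx1] at h3
      rw [h3, smul_eq_mul, ← mul_assoc]
      congr 1
      have he : Real.exp (-2 * Real.log x.1) = 1 / x.1 ^ 2 := by
        rw [neg_mul, Real.exp_neg, mul_comm, Real.exp_mul, Real.exp_log hx1]
        norm_num
      rw [he]
      field_simp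
    · have hz : Complex.polarCoord.symm x ∉ {z : ℂ | a ≤ ‖z‖ ∧ ‖z‖ ≤ b} := by
        simp only [mem_setOf_eq, e2]
        exact hr
      have hr' : x ∉ Icc a b ×ˢ (univ : Set ℝ) := fun h => hr h.1
      rw [indicator_of_notMem hz, indicator_of_notMem hr']
      simp
  rw [setIntegral_congr_fun polarCoord.open_target.measurableSet h1]
  have h2 : polarCoord.target = Ioi (0 : ℝ) ×ˢ Ioo (-Real.pi) Real.pi := rfl
  have hm : MeasurableSet (Icc a b ×ˢ (univ : Set ℝ)) := measurableSet_Icc.prod MeasurableSet.univ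
  rw [h2, setIntegral_indicator hm]
  have h3 : Ioi (0 : ℝ) ×ˢ Ioo (-Real.pi) Real.pi ∩ Icc a b ×ˢ (univ : Set ℝ)
      = Icc a b ×ˢ Ioo (-Real.pi) Real.pi := by
    rw [prod_inter_prod, inter_univ]
    congr 1
    exact inter_eq_right.mpr fun x hx => lt_of_lt_of_le ha hx.1
  rw [h3, Measure.volume_eq_prod]
  have hcont : ContinuousOn (fun x : ℝ × ℝ => x.1⁻¹ * g (Real.log x.1) x.2)
      (Icc a b ×ˢ Icc (-Real.pi) Real.pi) := by
    have hx : ∀ x ∈ (Icc a b ×ˢ Icc (-Real.pi) Real.pi : Set (ℝ × ℝ)), x.1 ≠ 0 :=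
      fun x hx => (lt_of_lt_of_le ha hx.1.1).ne'
    apply ContinuousOn.mul
    · exact continuousOn_fst.inv₀ hx
    · exact hg.comp_continuousOn ((continuousOn_fst.log hx).prodMk continuousOn_snd)
  have hint : IntegrableOn (fun x : ℝ × ℝ => x.1⁻¹ * g (Real.log x.1) x.2)
      (Icc a b ×ˢ Ioo (-Real.pi) Real.pi) (volume.prod volume) := by
    have := hcont.integrableOn_compact (μ := (volume : Measure ℝ).prod volume)
      (isCompact_Icc.prod isCompact_Icc)
    exact this.mono_set (prod_mono le_rfl Ioo_subset_Icc_self)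
  rw [setIntegral_prod _ hint]
  have h4 : ∀ x : ℝ, ∫ y in Ioo (-Real.pi) Real.pi, x⁻¹ * g (Real.log x) y
      = ((fun t => ∫ θ in (-Real.pi)..Real.pi, g t θ) ∘ Real.log) x * x⁻¹ := by
    intro x
    rw [integral_const_mul, Function.comp, intervalIntegral.integral_of_le (by linarith),
      integral_Ioc_eq_integral_Ioo, mul_comm]
  simp_rw [h4]
  rw [integral_Icc_eq_integral_Ioc, ← intervalIntegral.integral_of_le hab]
  apply intervalIntegral.integral_comp_mul_deriv
  · intro x hx
    rw [uIcc_of_le hab] at hx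
    exact Real.hasDerivAt_log (lt_of_lt_of_le ha hx.1).ne'
  · apply ContinuousOn.inv₀ continuousOn_id
    intro x hx
    rw [uIcc_of_le hab] at hx
    exact (lt_of_lt_of_le ha hx.1).ne'
  · exact intervalIntegral.continuous_parametric_intervalIntegral_of_continuous' hg _ _

theorem ci_zero : ci 0 = 1 := by rw [ci]; simp

/-- orthogonality -/
theorem int_ci (m : ℤ) : ∫ θ in (-Real.pi)..Real.pi, ci (m * θ)
    = if m = 0 then ((2 * Real.pi : ℝ) : ℂ) else 0 := by
  split_ifs with h
  · subst h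
    simp [ci_zero]
    ring
  · have hm : (m : ℂ) ≠ 0 := by exact_mod_cast h
    have h1 : ∀ θ ∈ uIcc (-Real.pi) Real.pi,
        HasDerivAt (fun θ : ℝ => ci ((m : ℝ) * θ) / (Complex.I * m)) (ci (m * θ)) θ := by
      intro θ _
      have := (ci_lin m θ).div_const (Complex.I * m)
      refine this.congr_deriv ?_
      have hI := Complex.I_ne_zero
      push_cast
      field_simp
    have hc : Continuous fun θ : ℝ => ci ((m : ℝ) * θ) :=
      (ci_smooth 0).continuous.comp (continuous_const.mul continuous_id)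
    rw [intervalIntegral.integral_eq_sub_of_hasDerivAt h1 (hc.intervalIntegrable _ _)]
    have h2 : (m : ℝ) * Real.pi = m * -Real.pi + m * (2 * Real.pi) := by ring
    rw [h2, ci_periodic.int_mul m]
    simp

/-- a trigonometric sum -/
noncomputable def TS (S : Finset ℤ) (c : ℤ → ℂ) (θ : ℝ) : ℂ := ∑ m ∈ S, ci (m * θ) * c m

theorem TS_cont (S : Finset ℤ) (c : ℤ → ℂ) : Continuous (TS S c) := by
  unfold TS
  refine continuous_finset_sum _ fun m _ => ?_
  exact ((ci_smooth 0).continuous.comp (continuous_const.mul continuous_id)).mul continuous_const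

theorem int_TS (S : Finset ℤ) (c : ℤ → ℂ) (h0 : 0 ∈ S) :
    ∫ θ in (-Real.pi)..Real.pi, TS S c θ = (2 * Real.pi : ℝ) * c 0 := by
  unfold TS
  have hc : ∀ m : ℤ, Continuous fun θ : ℝ => ci ((m : ℝ) * θ) * c m := fun m =>
    ((ci_smooth 0).continuous.comp (continuous_const.mul continuous_id)).mul continuous_const
  rw [intervalIntegral.integral_finset_sum fun m _ => (hc m).intervalIntegrable _ _]
  simp_rw [intervalIntegral.integral_mul_const, int_ci]
  rw [Finset.sum_eq_single 0]
  · simp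
  · intro m _ hm
    simp [hm]
  · intro h; exact absurd h0 h

theorem int_TS0 (S : Finset ℤ) (c : ℤ → ℂ) (h0 : 0 ∉ S) :
    ∫ θ in (-Real.pi)..Real.pi, TS S c θ = 0 := by
  unfold TS
  have hc : ∀ m : ℤ, Continuous fun θ : ℝ => ci ((m : ℝ) * θ) * c m := fun m =>
    ((ci_smooth 0).continuous.comp (continuous_const.mul continuous_id)).mul continuous_const
  rw [intervalIntegral.integral_finset_sum fun m _ => (hc m).intervalIntegrable _ _]
  simp_rw [intervalIntegral.integral_mul_const, int_ci]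
  apply Finset.sum_eq_zero
  intro m hm
  have : m ≠ 0 := fun h => h0 (h ▸ hm)
  simp [this]

/-- Parseval -/
theorem parseval (S : Finset ℤ) (c : ℤ → ℂ) :
    ∫ θ in (-Real.pi)..Real.pi, ‖TS S c θ‖ ^ 2 = 2 * Real.pi * ∑ m ∈ S, ‖c m‖ ^ 2 := by
  have e1 : ∀ θ : ℝ, ((‖TS S c θ‖ ^ 2 : ℝ) : ℂ)
      = ∑ m ∈ S, ∑ k ∈ S, ci ((m - k : ℤ) * θ) * (c m * (starRingEnd ℂ) (c k)) := by
    intro θ
    have : ((‖TS S c θ‖ ^ 2 : ℝ) : ℂ) = TS S c θ * (starRingEnd ℂ) (TS S c θ) := by
      rw [Complex.mul_conj, Complex.normSq_eq_norm_sq]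
    rw [this, TS, map_sum, Finset.sum_mul_sum]
    refine Finset.sum_congr rfl fun m _ => Finset.sum_congr rfl fun k _ => ?_
    rw [map_mul]
    have h2 : (starRingEnd ℂ) (ci (k * θ)) = ci (-(k * θ)) := by
      rw [ci, ci, ← Complex.exp_conj]
      congr 1
      simp
    have h3 : ((m - k : ℤ) : ℝ) * θ = m * θ + -(k * θ) := by push_cast; ring
    rw [h2, h3, ci_add]
    ring
  have h2 : ((∫ θ in (-Real.pi)..Real.pi, ‖TS S c θ‖ ^ 2 : ℝ) : ℂ)
      = ((2 * Real.pi * ∑ m ∈ S, ‖c m‖ ^ 2 : ℝ) : ℂ) := by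
    rw [← intervalIntegral.integral_ofReal]
    simp_rw [e1]
    have hc : ∀ m k : ℤ, Continuous fun θ : ℝ => ci (((m - k : ℤ) : ℝ) * θ)
        * (c m * (starRingEnd ℂ) (c k)) := fun m k =>
      ((ci_smooth 0).continuous.comp (continuous_const.mul continuous_id)).mul continuous_const
    rw [intervalIntegral.integral_finset_sum fun m _ =>
      (continuous_finset_sum _ fun k _ => hc m k).intervalIntegrable _ _]
    have h3 : ∀ m ∈ S, ∫ θ in (-Real.pi)..Real.pi, ∑ k ∈ S, ci (((m - k : ℤ) : ℝ) * θ)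
        * (c m * (starRingEnd ℂ) (c k)) = ((2 * Real.pi * ‖c m‖ ^ 2 : ℝ) : ℂ) := by
      intro m hm
      rw [intervalIntegral.integral_finset_sum fun k _ => (hc m k).intervalIntegrable _ _]
      simp_rw [intervalIntegral.integral_mul_const, int_ci]
      rw [Finset.sum_eq_single m]
      · rw [sub_self, if_pos rfl, Complex.mul_conj, Complex.normSq_eq_norm_sq]
        push_cast
        ring
      · intro k _ hk
        rw [if_neg (sub_ne_zero.mpr (Ne.symm hk)), zero_mul]
      · intro h; exact absurd hm h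
    rw [Finset.sum_congr rfl h3, Finset.mul_sum]
    push_cast
    rfl
  exact_mod_cast h2

theorem QF11 (w : ℂ) : QF 1 1 w = ‖w‖ ^ 2 := by
  rw [← Complex.normSq_eq_norm_sq, Complex.normSq_apply, QF]; ring

/-- splitting off the mode `0` -/
theorem split_QF (S : Finset ℤ) (c : ℤ → ℂ) (h0 : 0 ∈ S) (α : ℝ) :
    ∫ θ in (-Real.pi)..Real.pi, QF α 1 (TS S c θ)
      = 2 * Real.pi * QF α 1 (c 0)
        + ∫ θ in (-Real.pi)..Real.pi, QF α 1 (TS (S.erase 0) c θ) := by
  have e1 : ∀ θ, TS S c θ = c 0 + TS (S.erase 0) c θ := by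
    intro θ
    unfold TS
    rw [← Finset.add_sum_erase S _ h0]
    simp [ci_zero]
  have hU := TS_cont (S.erase 0) c
  have hUr : Continuous fun θ => (TS (S.erase 0) c θ).re := Complex.continuous_re.comp hU
  have hUi : Continuous fun θ => (TS (S.erase 0) c θ).im := Complex.continuous_im.comp hU
  have hI := int_TS0 (S.erase 0) c (Finset.notMem_erase 0 S)
  have hr : ∫ θ in (-Real.pi)..Real.pi, (TS (S.erase 0) c θ).re = 0 := by
    have := Complex.reCLM.intervalIntegral_comp_comm (hU.intervalIntegrable (-Real.pi) Real.pi)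
      (μ := volume)
    rw [hI] at this
    simpa using this
  have hi : ∫ θ in (-Real.pi)..Real.pi, (TS (S.erase 0) c θ).im = 0 := by
    have := Complex.imCLM.intervalIntegral_comp_comm (hU.intervalIntegrable (-Real.pi) Real.pi)
      (μ := volume)
    rw [hI] at this
    simpa using this
  have e2 : ∀ θ, QF α 1 (TS S c θ) = QF α 1 (c 0) + 2 * α * (c 0).re * (TS (S.erase 0) c θ).re
      + 2 * (c 0).im * (TS (S.erase 0) c θ).im + QF α 1 (TS (S.erase 0) c θ) := by
    intro θ
    rw [e1]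
    simp only [QF, Complex.add_re, Complex.add_im]
    ring
  simp_rw [e2]
  have i1 : IntervalIntegrable (fun _ : ℝ => QF α 1 (c 0)) volume (-Real.pi) Real.pi :=
    continuous_const.intervalIntegrable _ _
  have i2 : IntervalIntegrable (fun θ => 2 * α * (c 0).re * (TS (S.erase 0) c θ).re) volume
      (-Real.pi) Real.pi := (continuous_const.mul hUr).intervalIntegrable _ _
  have i3 : IntervalIntegrable (fun θ => 2 * (c 0).im * (TS (S.erase 0) c θ).im) volume
      (-Real.pi) Real.pi := (continuous_const.mul hUi).intervalIntegrable _ _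
  have i4 : IntervalIntegrable (fun θ => QF α 1 (TS (S.erase 0) c θ)) volume
      (-Real.pi) Real.pi := ((QF_cont α 1).comp hU).intervalIntegrable _ _
  rw [intervalIntegral.integral_add ((i1.add i2).add i3) i4,
    intervalIntegral.integral_add (i1.add i2) i3, intervalIntegral.integral_add i1 i2,
    intervalIntegral.integral_const_mul, intervalIntegral.integral_const_mul, hr, hi,
    intervalIntegral.integral_const, smul_eq_mul]
  ring

/-- the two-sided bound for the form on a trigonometric sum -/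
theorem QF_bounds (S : Finset ℤ) (c : ℤ → ℂ) (h0 : 0 ∈ S) {α : ℝ} (hα : 1 ≤ α) :
    2 * Real.pi * (QF α 1 (c 0) + ∑ m ∈ S.erase 0, QF 1 1 (c m))
        ≤ ∫ θ in (-Real.pi)..Real.pi, QF α 1 (TS S c θ) ∧
      ∫ θ in (-Real.pi)..Real.pi, QF α 1 (TS S c θ)
        ≤ 2 * Real.pi * (QF α 1 (c 0) + ∑ m ∈ S.erase 0, α * QF 1 1 (c m)) := by
  have hU := TS_cont (S.erase 0) c
  have hpi := Real.pi_pos
  have hP := parseval (S.erase 0) c
  simp_rw [← QF11] at hP
  have hQ1 : Continuous fun θ => QF 1 1 (TS (S.erase 0) c θ) := (QF_cont 1 1).comp hU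
  have hQ2 : Continuous fun θ => QF α 1 (TS (S.erase 0) c θ) := (QF_cont α 1).comp hU
  rw [split_QF S c h0]
  constructor
  · have h1 : ∫ θ in (-Real.pi)..Real.pi, QF 1 1 (TS (S.erase 0) c θ)
        ≤ ∫ θ in (-Real.pi)..Real.pi, QF α 1 (TS (S.erase 0) c θ) := by
      apply intervalIntegral.integral_mono_on (by linarith) (hQ1.intervalIntegrable _ _)
        (hQ2.intervalIntegrable _ _)
      intro θ _
      unfold QF
      gcongr
    rw [mul_add, ← hP]
    linarith
  · have h1 : ∫ θ in (-Real.pi)..Real.pi, QF α 1 (TS (S.erase 0) c θ)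
        ≤ ∫ θ in (-Real.pi)..Real.pi, α * QF 1 1 (TS (S.erase 0) c θ) := by
      apply intervalIntegral.integral_mono_on (by linarith) (hQ2.intervalIntegrable _ _)
        ((continuous_const.mul hQ1).intervalIntegrable _ _)
      intro θ _
      show QF α 1 (TS (S.erase 0) c θ) ≤ α * QF 1 1 (TS (S.erase 0) c θ)
      unfold QF
      have := sq_nonneg (TS (S.erase 0) c θ).im
      nlinarith
    rw [intervalIntegral.integral_const_mul, hP] at h1
    rw [mul_add, ← Finset.mul_sum]
    linarith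

end Pool.Agent.D0H14.SV
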