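import Mathlib
import Pool.Agent.D0H14.SV.Ops

/-! The weighted `L²` inequality, mode by mode. -/

set_option autoImplicit false

open Set MeasureTheory
open scoped ContDiff

namespace Pool.Agent.D0H14.SV

/-- the mode `m` of `∂̄ ^ n` -/
noncomputable def wP (n : ℕ) (s : ℝ) (m : ℤ) (f : ℝ → ℂ) (t : ℝ) : ℂ :=
  ((RF n s)⁻¹ : ℝ) * Dn (-1) (fun l => s + m / 2 + l) n f t

/-- the mode `m` of `∂ ^ n` -/
noncomputable def wM (n : ℕ) (s : ℝ) (m : ℤ) (f : ℝ → ℂ) (t : ℝ) : ℂ :=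
  ((RF n (1 - s))⁻¹ : ℝ) * Dn 1 (fun l => n - l - s + m / 2) n f t

theorem QF_smul (α β r : ℝ) (w : ℂ) : QF α β ((r : ℂ) * w) = r ^ 2 * QF α β w := by
  simp only [QF, Complex.re_ofReal_mul, Complex.im_ofReal_mul]
  ring

theorem NQ_smul (α β r : ℝ) (h : ℝ → ℂ) : NQ α β (fun t => (r : ℂ) * h t) = r ^ 2 * NQ α β h := by
  unfold NQ
  simp_rw [QF_smul]
  exact integral_const_mul _ _

theorem SC.smul {A B : ℝ} {f : ℝ → ℂ} (hf : SC A B f) (r : ℝ) : SC A B fun t => (r : ℂ) * f t :=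
  ⟨contDiff_const.mul hf.1, fun t ht => by
    show (r : ℂ) * f t = 0
    rw [hf.2 t ht, mul_zero]⟩

theorem SC.wP {A B : ℝ} {f : ℝ → ℂ} (hf : SC A B f) (n : ℕ) (s : ℝ) (m : ℤ) :
    SC A B (wP n s m f) := (hf.Dn n).smul _

theorem SC.wM {A B : ℝ} {f : ℝ → ℂ} (hf : SC A B f) (n : ℕ) (s : ℝ) (m : ℤ) :
    SC A B (wM n s m f) := (hf.Dn n).smul _

theorem refl_TP (n : ℕ) (s x : ℝ) :
    (∏ j ∈ Finset.range n, (Polynomial.X + Polynomial.C ((n - j - s + x) ^ 2)) : Polynomial ℝ)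
      = TP n (1 - s + x) := by
  rw [TP, ← Finset.prod_range_reflect]
  apply Finset.prod_congr rfl
  intro j hj
  have hj' := Finset.mem_range.mp hj
  have e : ((n - 1 - j : ℕ) : ℝ) = n - 1 - j := by
    rw [Nat.cast_sub (by omega), Nat.cast_sub (by omega)]
    simp
  rw [e]
  congr 3
  ring

theorem refl_RF (n : ℕ) (s : ℝ) :
    (∏ j ∈ Finset.range n, ((n : ℝ) - j - s + (0 : ℤ) / 2)) = RF n (1 - s) := by
  rw [RF, ← Finset.prod_range_reflect]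
  apply Finset.prod_congr rfl
  intro j hj
  have hj' := Finset.mem_range.mp hj
  have e : ((n - 1 - j : ℕ) : ℝ) = n - 1 - j := by
    rw [Nat.cast_sub (by omega), Nat.cast_sub (by omega)]
    simp
  rw [e]
  push_cast
  ring

open Polynomial in
/-- the inequality for one mode -/
theorem mode_ineq {A B : ℝ} {f : ℝ → ℂ} (hf : SC A B f) (n : ℕ) {s lam α β : ℝ} (m : ℤ)
    (hs : 0 < s) (hs2 : s < 1 / 2) (hα : 0 ≤ α) (hβ : 0 ≤ β)
    (hPL : PL (C (lam * RF n s ^ 2) * TP n (1 - s + m / 2)) (C (RF n (1 - s) ^ 2) * TP n (s + m / 2))) :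
    lam * NQ α β (wM n s m f) + ((RF n s)⁻¹ ^ 2 - lam * (RF n (1 - s))⁻¹ ^ 2)
      * (NQ α β (deriv^[n] f) / 4 ^ n) ≤ NQ α β (wP n s m f) := by
  have hX := RF_pos n hs
  have hY := RF_pos n (show 0 < 1 - s by linarith)
  have e1 : NQ α β (wP n s m f) = (RF n s)⁻¹ ^ 2 * NQ α β (Dn (-1) (fun l => s + m / 2 + l) n f) :=
    NQ_smul _ _ _ _
  have e2 : NQ α β (wM n s m f) = (RF n (1 - s))⁻¹ ^ 2
      * NQ α β (Dn 1 (fun l => n - l - s + m / 2) n f) := NQ_smul _ _ _ _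
  rw [e1, e2, NQ_Dn (by norm_num) _ α β n f hf, NQ_Dn (by norm_num) _ α β n f hf, refl_TP]
  have e3 : (∏ j ∈ Finset.range n, (X + C ((s + (m : ℝ) / 2 + j) ^ 2)) : ℝ[X])
      = TP n (s + m / 2) := rfl
  rw [e3, Finset.sum_range_succ, Finset.sum_range_succ, (TP_coeff_top n _).1, (TP_coeff_top n _).1]
  have h1 : lam * RF n s ^ 2 * ∑ i ∈ Finset.range n, (TP n (1 - s + m / 2)).coeff i
        * (NQ α β (deriv^[i] f) / 4 ^ i)
      ≤ RF n (1 - s) ^ 2 * ∑ i ∈ Finset.range n, (TP n (s + m / 2)).coeff i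
        * (NQ α β (deriv^[i] f) / 4 ^ i) := by
    rw [Finset.mul_sum, Finset.mul_sum]
    apply Finset.sum_le_sum
    intro i _
    have h2 := (hPL i).2
    rw [coeff_C_mul, coeff_C_mul] at h2
    have h3 : 0 ≤ NQ α β (deriv^[i] f) / 4 ^ i :=
      div_nonneg (NQ_nonneg hα hβ _) (by positivity)
    have := mul_le_mul_of_nonneg_right h2 h3
    linarith
  obtain ⟨U, hU⟩ : ∃ U, U = ∑ i ∈ Finset.range n, (TP n (1 - s + (m : ℝ) / 2)).coeff i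
        * (NQ α β (deriv^[i] f) / 4 ^ i) := ⟨_, rfl⟩
  obtain ⟨V, hV⟩ : ∃ V, V = ∑ i ∈ Finset.range n, (TP n (s + (m : ℝ) / 2)).coeff i
        * (NQ α β (deriv^[i] f) / 4 ^ i) := ⟨_, rfl⟩
  rw [← hU, ← hV] at h1 ⊢
  have h4 : lam * (RF n (1 - s))⁻¹ ^ 2 * U ≤ (RF n s)⁻¹ ^ 2 * V := by
    have h5 := mul_le_mul_of_nonneg_left h1
      (show 0 ≤ (RF n s)⁻¹ ^ 2 * (RF n (1 - s))⁻¹ ^ 2 by positivity)
    have h6 : (RF n s)⁻¹ ^ 2 * RF n s ^ 2 = 1 := by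
      rw [← mul_pow, inv_mul_cancel₀ hX.ne', one_pow]
    have h7 : (RF n (1 - s))⁻¹ ^ 2 * RF n (1 - s) ^ 2 = 1 := by
      rw [← mul_pow, inv_mul_cancel₀ hY.ne', one_pow]
    have h8 : (RF n s)⁻¹ ^ 2 * (RF n (1 - s))⁻¹ ^ 2 * (lam * RF n s ^ 2 * U)
        = lam * (RF n (1 - s))⁻¹ ^ 2 * U := by
      linear_combination (lam * (RF n (1 - s))⁻¹ ^ 2 * U) * h6
    have h9 : (RF n s)⁻¹ ^ 2 * (RF n (1 - s))⁻¹ ^ 2 * (RF n (1 - s) ^ 2 * V)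
        = (RF n s)⁻¹ ^ 2 * V := by
      linear_combination ((RF n s)⁻¹ ^ 2 * V) * h7
    linarith
  linarith

/-- the constant in the lower bound is positive -/
theorem gain_pos {n : ℕ} {s lam : ℝ} (hs : 0 < s) (hs2 : s < 1 / 2)
    (h : lam * RF n s ^ 2 < RF n (1 - s) ^ 2) :
    0 < (RF n s)⁻¹ ^ 2 - lam * (RF n (1 - s))⁻¹ ^ 2 := by
  have hX := RF_pos n hs
  have hY := RF_pos n (show 0 < 1 - s by linarith)
  have e : (RF n s)⁻¹ ^ 2 - lam * (RF n (1 - s))⁻¹ ^ 2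
      = (RF n (1 - s) ^ 2 - lam * RF n s ^ 2) / (RF n s ^ 2 * RF n (1 - s) ^ 2) := by
    field_simp
  rw [e]
  apply div_pos _ (by positivity)
  linarith

/-- the total mode form -/
noncomputable def GG (n : ℕ) (s : ℝ) (S : Finset ℤ) (ψ : ℤ → ℝ → ℂ) : ℝ :=
  (NQ ((1 - s) / s) 1 (wP n s 0 (ψ 0)) - NQ ((1 - s) / s) 1 (wM n s 0 (ψ 0)))
    + ∑ m ∈ S.erase 0, (NQ 1 1 (wP n s m (ψ m)) - (1 - s) / s * NQ 1 1 (wM n s m (ψ m)))

theorem GG_pos {A B : ℝ} (n : ℕ) (hn : 1 ≤ n) {s : ℝ} (hs : 0 < s) (hs2 : s < 1 / 2)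
    (S : Finset ℤ) (ψ : ℤ → ℝ → ℂ) (hψ : ∀ m, SC A B (ψ m))
    (hne : ∃ m ∈ S, ∃ t, ψ m t ≠ 0) : 0 < GG n s S ψ := by
  have hlam : 1 ≤ (1 - s) / s := by rw [le_div_iff₀ hs]; linarith
  have hg1 := gain n hn hs hs2
  have hX := RF_pos n hs
  have hg0 : 1 * RF n s ^ 2 < RF n (1 - s) ^ 2 := by
    refine lt_of_le_of_lt ?_ hg1
    exact mul_le_mul_of_nonneg_right hlam (by positivity)
  have hp1 := gain_pos hs hs2 hg1
  have hp0 := gain_pos hs hs2 hg0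
  have hPL0 : PL (Polynomial.C (1 * RF n s ^ 2) * TP n (1 - s + (0 : ℤ) / 2))
      (Polynomial.C (RF n (1 - s) ^ 2) * TP n (s + (0 : ℤ) / 2)) := by
    have := cmp0 n hs hs2 (c := 0) le_rfl
    simpa using this
  have hder : ∀ m, (∃ t, ψ m t ≠ 0) → ∃ t, deriv^[n] (ψ m) t ≠ 0 := by
    intro m hm
    by_contra h
    push Not at h
    obtain ⟨t, ht⟩ := hm
    exact ht (zero_of_iter (hψ m) n h t)
  have b0 : ((RF n s)⁻¹ ^ 2 - 1 * (RF n (1 - s))⁻¹ ^ 2)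
      * (NQ ((1 - s) / s) 1 (deriv^[n] (ψ 0)) / 4 ^ n)
      ≤ NQ ((1 - s) / s) 1 (wP n s 0 (ψ 0)) - NQ ((1 - s) / s) 1 (wM n s 0 (ψ 0)) := by
    have := mode_ineq (hψ 0) n (lam := 1) (α := (1 - s) / s) (β := 1) 0 hs hs2 (by linarith)
      zero_le_one hPL0
    linarith
  have b1 : ∀ m ∈ S.erase 0, ((RF n s)⁻¹ ^ 2 - (1 - s) / s * (RF n (1 - s))⁻¹ ^ 2)
      * (NQ 1 1 (deriv^[n] (ψ m)) / 4 ^ n)
      ≤ NQ 1 1 (wP n s m (ψ m)) - (1 - s) / s * NQ 1 1 (wM n s m (ψ m)) := by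
    intro m hm
    have := mode_ineq (hψ m) n (lam := (1 - s) / s) (α := 1) (β := 1) m hs hs2 zero_le_one
      zero_le_one (cmp n hn m (Finset.ne_of_mem_erase hm) hs hs2)
    linarith
  have n0 : 0 ≤ NQ ((1 - s) / s) 1 (deriv^[n] (ψ 0)) / 4 ^ n :=
    div_nonneg (NQ_nonneg (by linarith) zero_le_one _) (by positivity)
  have n1 : ∀ m, 0 ≤ NQ 1 1 (deriv^[n] (ψ m)) / 4 ^ n := fun m =>
    div_nonneg (NQ_nonneg zero_le_one zero_le_one _) (by positivity)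
  have t1 : ∀ m ∈ S.erase 0, 0 ≤ NQ 1 1 (wP n s m (ψ m)) - (1 - s) / s
      * NQ 1 1 (wM n s m (ψ m)) := fun m hm => (mul_nonneg hp1.le (n1 m)).trans (b1 m hm)
  have t0 := (mul_nonneg hp0.le n0).trans b0
  obtain ⟨m, hm, hmt⟩ := hne
  unfold GG
  by_cases hm0 : m = 0
  · subst hm0
    have : 0 < NQ ((1 - s) / s) 1 (deriv^[n] (ψ 0)) / 4 ^ n :=
      div_pos (NQ_pos ((hψ 0).iter n) (by linarith) zero_lt_one (hder 0 hmt)) (by positivity)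
    have h2 := lt_of_lt_of_le (mul_pos hp0 this) b0
    have h3 := Finset.sum_nonneg t1
    linarith
  · have hmS : m ∈ S.erase 0 := Finset.mem_erase.mpr ⟨hm0, hm⟩
    have : 0 < NQ 1 1 (deriv^[n] (ψ m)) / 4 ^ n :=
      div_pos (NQ_pos ((hψ m).iter n) zero_lt_one zero_lt_one (hder m hmt)) (by positivity)
    have h2 := lt_of_lt_of_le (mul_pos hp1 this) (b1 m hmS)
    have h3 := Finset.sum_pos' t1 ⟨m, hmS, h2⟩
    linarith

/-- the first variation vanishes -/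
theorem first_var {A B : ℝ} (n : ℕ) {s : ℝ} (hs : 0 < s) (hs2 : s < 1 / 2) {f : ℝ → ℂ}
    (hf : SC A B f) : ∫ t, wP n s 0 f t = ∫ t, wM n s 0 f t := by
  have hX := RF_pos n hs
  have hY := RF_pos n (show 0 < 1 - s by linarith)
  unfold wP wM
  rw [integral_const_mul, integral_const_mul, int_Dn hf, int_Dn hf, refl_RF]
  have e : (∏ j ∈ Finset.range n, (s + ((0 : ℤ) : ℝ) / 2 + j)) = RF n s := by
    rw [RF]
    apply Finset.prod_congr rfl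
    intro j _
    simp
  rw [e, ← mul_assoc, ← mul_assoc, ← Complex.ofReal_mul, ← Complex.ofReal_mul,
    inv_mul_cancel₀ hX.ne', inv_mul_cancel₀ hY.ne']

end Pool.Agent.D0H14.SV
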