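import Mathlib
import Pool.Agent.D0H14.SV.Int
import Pool.Agent.D0H14.SV.Modes

/-! Assembly. -/

set_option autoImplicit false

open Set MeasureTheory
open scoped ContDiff

namespace Pool.Agent.D0H14.SV

open Pool.Agent.D0H14.BA

/-- the conjectured extremal function -/
noncomputable def u0 (n : ℕ) (p : ℝ) (z : ℂ) : ℂ := z ^ n * ((‖z‖ ^ (-(2 / p)) : ℝ) : ℂ)

/-- the direction of perturbation, with the angular modes `m ∈ S` and the radial profiles `ψ m` -/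
noncomputable def pert (n : ℕ) (p : ℝ) (S : Finset ℤ) (ψ : ℤ → ℝ → ℂ) (z : ℂ) : ℂ :=
  u0 n p z * ∑ m ∈ S, ψ m (Real.log ‖z‖) * (z / (‖z‖ : ℂ)) ^ m

theorem Dn_const (σ : ℝ) (a : ℕ → ℝ) (n : ℕ) (t : ℝ) :
    Dn σ a n (fun _ => (1 : ℂ)) t = ((∏ j ∈ Finset.range n, a j : ℝ) : ℂ) := by
  induction n generalizing t with
  | zero => simp [Dn]
  | succ n ih =>
    have e : Dn σ a n (fun _ => (1 : ℂ)) = fun _ => ((∏ j ∈ Finset.range n, a j : ℝ) : ℂ) :=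
      funext ih
    show st σ (a n) (Dn σ a n fun _ => (1 : ℂ)) t = _
    rw [e, st, deriv_const, Finset.prod_range_succ]
    push_cast
    ring

theorem Dn_smul (σ : ℝ) (a : ℕ → ℝ) (n : ℕ) {f : ℝ → ℂ} (hf : ContDiff ℝ ∞ f) (c : ℂ) (t : ℝ) :
    Dn σ a n (fun t => c * f t) t = c * Dn σ a n f t := by
  induction n generalizing t with
  | zero => rfl
  | succ n ih =>
    have e : Dn σ a n (fun t => c * f t) = fun t => c * Dn σ a n f t := funext ih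
    have hd : DifferentiableAt ℝ (Dn σ a n f) t :=
      ((Dn_smooth n hf).differentiable (by simp)).differentiableAt
    show st σ (a n) (Dn σ a n fun t => c * f t) t = c * st σ (a n) (Dn σ a n f) t
    rw [e, st, deriv_const_mul _ hd, st]
    ring

/-- the exponents of the expansion, `none` for the extremal -/
def kk (n : ℕ) : Option ℤ → ℤ
  | none => n
  | some m => n + m

/-- the decay rates -/
noncomputable def cc' (s : ℝ) : Option ℤ → ℝ
  | none => 2 * s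
  | some m => 2 * s + m

/-- the profiles -/
noncomputable def pp (ε : ℝ) (ψ : ℤ → ℝ → ℂ) : Option ℤ → ℝ → ℂ
  | none => fun _ => 1
  | some m => fun t => (ε : ℂ) * ψ m t

theorem pp_smooth (ε : ℝ) {ψ : ℤ → ℝ → ℂ} (hψ : ∀ m, ContDiff ℝ ∞ (ψ m)) (i : Option ℤ) :
    ContDiff ℝ ∞ (pp ε ψ i) := by
  cases i with
  | none => exact contDiff_const
  | some m => exact contDiff_const.mul (hψ m)

/-- the perturbed function as a sum of `z ^ k H (log ‖z‖)` -/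
theorem u_sum (n : ℕ) (p ε : ℝ) (S : Finset ℤ) (ψ : ℤ → ℝ → ℂ) {z : ℂ} (hz : z ≠ 0) :
    u0 n p z + (ε : ℂ) * pert n p S ψ z
      = ∑ i ∈ Finset.insertNone S, MM (kk n i)
        (fun t => ((Real.exp (-cc' (1 / p) i * t) : ℝ) : ℂ) * pp ε ψ i t) z := by
  have hn : 0 < ‖z‖ := norm_pos_iff.mpr hz
  have hnc : ((‖z‖ : ℝ) : ℂ) ≠ 0 := by exact_mod_cast hn.ne'
  have e1 : ((‖z‖ ^ (-(2 / p)) : ℝ) : ℂ) = ((Real.exp (-(2 * (1 / p)) * Real.log ‖z‖) : ℝ) : ℂ) := by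
    rw [Real.rpow_def_of_pos hn]
    congr 2
    ring
  rw [Finset.sum_insertNone, pert, u0, e1]
  congr 1
  · simp only [MM, kk, cc', pp]
    rw [zpow_natCast]
    ring
  · rw [Finset.mul_sum, Finset.mul_sum]
    apply Finset.sum_congr rfl
    intro m _
    simp only [MM, kk, cc', pp]
    have e2 : (z / (‖z‖ : ℂ)) ^ m = z ^ m * ((Real.exp (-(m : ℝ) * Real.log ‖z‖) : ℝ) : ℂ) := by
      rw [div_zpow, div_eq_mul_inv]
      congr 1
      rw [← zpow_neg]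
      have : Real.exp (-(m : ℝ) * Real.log ‖z‖) = ‖z‖ ^ (-m) := by
        rw [mul_comm, ← Real.rpow_def_of_pos hn, ← Real.rpow_intCast]
        push_cast
        rfl
      rw [this]
      push_cast
      rfl
    have e3 : ((Real.exp (-(2 * (1 / p) + (m : ℝ)) * Real.log ‖z‖) : ℝ) : ℂ)
        = ((Real.exp (-(2 * (1 / p)) * Real.log ‖z‖) : ℝ) : ℂ)
          * ((Real.exp (-(m : ℝ) * Real.log ‖z‖) : ℝ) : ℂ) := by
      rw [← Complex.ofReal_mul, ← Real.exp_add]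
      congr 2
      ring
    rw [e2, e3, zpow_add₀ hz, zpow_natCast]
    ring

theorem ci_zpow (m : ℤ) (θ : ℝ) : ci θ ^ m = ci (m * θ) := by
  rw [ci, ci, ← Complex.exp_int_mul]
  congr 1
  push_cast
  ring

theorem zpow_polar (k : ℤ) (t θ : ℝ) : (((Real.exp t : ℝ) : ℂ) * ci θ) ^ k
    = ((Real.exp (k * t) : ℝ) : ℂ) * ci (k * θ) := by
  rw [mul_zpow, ci_zpow]
  congr 1
  rw [← Complex.ofReal_zpow, mul_comm (k : ℝ) t, Real.exp_mul, Real.rpow_intCast]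

theorem polar_ne (t θ : ℝ) : ((Real.exp t : ℝ) : ℂ) * ci θ ≠ 0 :=
  mul_ne_zero (by exact_mod_cast (Real.exp_pos t).ne') (ci_ne θ)

theorem polar_log (t θ : ℝ) : Real.log ‖((Real.exp t : ℝ) : ℂ) * ci θ‖ = t := by
  rw [norm_mul, ci_norm, mul_one, Complex.norm_real, Real.norm_of_nonneg (Real.exp_pos t).le,
    Real.log_exp]

/-- `∂ ^ n` in polar coordinates -/
theorem form_dz (n : ℕ) {p : ℝ} (hp : 2 < p) (ε : ℝ) (S : Finset ℤ) {ψ : ℤ → ℝ → ℂ}
    (hψ : ∀ m, ContDiff ℝ ∞ (ψ m)) (t θ : ℝ) :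
    (dz^[n] (fun z => u0 n p z + (ε : ℂ) * pert n p S ψ z)) (((Real.exp t : ℝ) : ℂ) * ci θ)
      = ((Real.exp (-(2 / p) * t) : ℝ) : ℂ) * (RF n (1 - 1 / p) : ℝ)
        * (1 + (ε : ℂ) * TS S (fun m => wM n (1 / p) m (ψ m) t) θ) := by
  have hp0 : 0 < p := by linarith
  have hs : 0 < 1 / p := by positivity
  have hs2 : 1 / p < 1 / 2 := one_div_lt_one_div_of_lt (by norm_num) hp
  have hY := RF_pos n (show 0 < 1 - 1 / p by linarith)
  have hH : ∀ i, ContDiff ℝ ∞ (fun t => ((Real.exp (-cc' (1 / p) i * t) : ℝ) : ℂ)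
      * pp ε ψ i t) := fun i => (exp_smooth _).mul (pp_smooth ε hψ i)
  rw [dz_iter (Finset.insertNone S) (kk n) _ hH (fun z hz => u_sum n p ε S ψ hz) n _
    (polar_ne t θ), Finset.sum_insertNone]
  have e1 : ∀ i, MM (kk n i - n) (AZ (kk n i) (fun t => ((Real.exp (-cc' (1 / p) i * t) : ℝ) : ℂ)
      * pp ε ψ i t) n) (((Real.exp t : ℝ) : ℂ) * ci θ)
      = ((Real.exp ((kk n i - n : ℤ) * t) : ℝ) : ℂ) * ci ((kk n i - n : ℤ) * θ)
        * (((Real.exp (-cc' (1 / p) i * t) : ℝ) : ℂ)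
          * Dn 1 (fun l => (kk n i : ℝ) - l + -cc' (1 / p) i / 2) n (pp ε ψ i) t) := by
    intro i
    rw [MM, polar_log, zpow_polar, AZ_exp _ _ (pp_smooth ε hψ i)]
  rw [e1 none]
  simp_rw [e1]
  have e2 : (fun l : ℕ => (kk n none : ℝ) - l + -cc' (1 / p) none / 2)
      = fun l : ℕ => (n : ℝ) - l - 1 / p + (0 : ℤ) / 2 := by
    funext l
    simp only [kk, cc']
    push_cast
    ring
  have e3 : ∀ m : ℤ, (fun l : ℕ => (kk n (some m) : ℝ) - l + -cc' (1 / p) (some m) / 2)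
      = fun l : ℕ => (n : ℝ) - l - 1 / p + m / 2 := by
    intro m
    funext l
    simp only [kk, cc']
    push_cast
    ring
  rw [e2]
  simp_rw [e3]
  have e4 : Dn 1 (fun l : ℕ => (n : ℝ) - l - 1 / p + (0 : ℤ) / 2) n (pp ε ψ none) t
      = (RF n (1 - 1 / p) : ℝ) := by
    show Dn 1 _ n (fun _ => (1 : ℂ)) t = _
    rw [Dn_const, refl_RF]
  have e5 : ∀ m : ℤ, Dn 1 (fun l : ℕ => (n : ℝ) - l - 1 / p + m / 2) n (pp ε ψ (some m)) t
      = (ε : ℂ) * (RF n (1 - 1 / p) : ℝ) * wM n (1 / p) m (ψ m) t := by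
    intro m
    show Dn 1 _ n (fun t => (ε : ℂ) * ψ m t) t = _
    have : ((RF n (1 - 1 / p) : ℝ) : ℂ) * (((RF n (1 - 1 / p))⁻¹ : ℝ) : ℂ) = 1 := by
      rw [← Complex.ofReal_mul, mul_inv_cancel₀ hY.ne', Complex.ofReal_one]
    rw [Dn_smul _ _ _ (hψ m), wM]
    linear_combination (-(ε : ℂ) * Dn 1 (fun l : ℕ => (n : ℝ) - l - 1 / p + m / 2) n (ψ m) t) * this
  rw [e4]
  simp_rw [e5]
  have e6 : ((Real.exp ((kk n none - n : ℤ) * t) : ℝ) : ℂ) * ci ((kk n none - n : ℤ) * θ)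
        * (((Real.exp (-cc' (1 / p) none * t) : ℝ) : ℂ)) = ((Real.exp (-(2 / p) * t) : ℝ) : ℂ) := by
    simp only [kk, cc']
    simp only [sub_self, Int.cast_zero, zero_mul, Real.exp_zero, ci_zero, Complex.ofReal_one,
      one_mul]
    congr 2
    ring
  have e7 : ∀ m : ℤ, ((Real.exp ((kk n (some m) - n : ℤ) * t) : ℝ) : ℂ)
        * ci ((kk n (some m) - n : ℤ) * θ)
        * (((Real.exp (-cc' (1 / p) (some m) * t) : ℝ) : ℂ))
        = ((Real.exp (-(2 / p) * t) : ℝ) : ℂ) * ci (m * θ) := by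
    intro m
    simp only [kk, cc', add_sub_cancel_left]
    rw [mul_right_comm, ← Complex.ofReal_mul, ← Real.exp_add]
    congr 3
    ring
  rw [← mul_assoc, e6, mul_add, mul_one]
  congr 1
  rw [TS, Finset.mul_sum, Finset.mul_sum]
  apply Finset.sum_congr rfl
  intro m _
  linear_combination ((ε : ℂ) * (RF n (1 - 1 / p) : ℝ) * wM n (1 / p) m (ψ m) t) * e7 m

/-- `∂̄ ^ n` in polar coordinates -/
theorem form_dzb (n : ℕ) {p : ℝ} (hp : 2 < p) (ε : ℝ) (S : Finset ℤ) {ψ : ℤ → ℝ → ℂ}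
    (hψ : ∀ m, ContDiff ℝ ∞ (ψ m)) (t θ : ℝ) :
    (dzb^[n] (fun z => u0 n p z + (ε : ℂ) * pert n p S ψ z)) (((Real.exp t : ℝ) : ℂ) * ci θ)
      = ((-1) ^ n * ci ((2 * n : ℤ) * θ)) * ((Real.exp (-(2 / p) * t) : ℝ) : ℂ)
        * (RF n (1 / p) : ℝ) * (1 + (ε : ℂ) * TS S (fun m => wP n (1 / p) m (ψ m) t) θ) := by
  have hp0 : 0 < p := by linarith
  have hs : 0 < 1 / p := by positivity
  have hX := RF_pos n hs
  have hH : ∀ i, ContDiff ℝ ∞ (fun t => ((Real.exp (-cc' (1 / p) i * t) : ℝ) : ℂ)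
      * pp ε ψ i t) := fun i => (exp_smooth _).mul (pp_smooth ε hψ i)
  rw [dzb_iter (Finset.insertNone S) (kk n) _ hH (fun z hz => u_sum n p ε S ψ hz) n _
    (polar_ne t θ), Finset.sum_insertNone]
  have e1 : ∀ i, MM (kk n i + n) (BZ (fun t => ((Real.exp (-cc' (1 / p) i * t) : ℝ) : ℂ)
      * pp ε ψ i t) n) (((Real.exp t : ℝ) : ℂ) * ci θ)
      = ((Real.exp ((kk n i + n : ℤ) * t) : ℝ) : ℂ) * ci ((kk n i + n : ℤ) * θ)
        * ((-1) ^ n * ((Real.exp (-(cc' (1 / p) i + 2 * n) * t) : ℝ) : ℂ)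
          * Dn (-1) (fun l => cc' (1 / p) i / 2 + l) n (pp ε ψ i) t) := by
    intro i
    rw [MM, polar_log, zpow_polar, BZ_exp _ (pp_smooth ε hψ i)]
  rw [e1 none]
  simp_rw [e1]
  have e3 : ∀ m : ℤ, (fun l : ℕ => cc' (1 / p) (some m) / 2 + (l : ℝ))
      = fun l : ℕ => 1 / p + m / 2 + l := by
    intro m
    funext l
    simp only [cc']
    ring
  simp_rw [e3]
  have e4 : Dn (-1) (fun l : ℕ => cc' (1 / p) none / 2 + (l : ℝ)) n (pp ε ψ none) t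
      = (RF n (1 / p) : ℝ) := by
    show Dn (-1) _ n (fun _ => (1 : ℂ)) t = _
    rw [Dn_const, RF]
    congr 1
    apply Finset.prod_congr rfl
    intro l _
    simp only [cc']
    ring
  have e5 : ∀ m : ℤ, Dn (-1) (fun l : ℕ => 1 / p + (m : ℝ) / 2 + l) n (pp ε ψ (some m)) t
      = (ε : ℂ) * (RF n (1 / p) : ℝ) * wP n (1 / p) m (ψ m) t := by
    intro m
    show Dn (-1) _ n (fun t => (ε : ℂ) * ψ m t) t = _
    have : ((RF n (1 / p) : ℝ) : ℂ) * (((RF n (1 / p))⁻¹ : ℝ) : ℂ) = 1 := by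
      rw [← Complex.ofReal_mul, mul_inv_cancel₀ hX.ne', Complex.ofReal_one]
    rw [Dn_smul _ _ _ (hψ m), wP]
    linear_combination (-(ε : ℂ) * Dn (-1) (fun l : ℕ => 1 / p + (m : ℝ) / 2 + l) n (ψ m) t) * this
  rw [e4]
  simp_rw [e5]
  have e6 : ((Real.exp ((kk n none + n : ℤ) * t) : ℝ) : ℂ) * ci ((kk n none + n : ℤ) * θ)
        * (((Real.exp (-(cc' (1 / p) none + 2 * n) * t) : ℝ) : ℂ))
        = ci ((2 * n : ℤ) * θ) * ((Real.exp (-(2 / p) * t) : ℝ) : ℂ) := by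
    simp only [kk, cc']
    rw [mul_right_comm, ← Complex.ofReal_mul, ← Real.exp_add, mul_comm]
    congr 3
    · push_cast; ring
    · push_cast; ring
  have e7 : ∀ m : ℤ, ((Real.exp ((kk n (some m) + n : ℤ) * t) : ℝ) : ℂ)
        * ci ((kk n (some m) + n : ℤ) * θ)
        * (((Real.exp (-(cc' (1 / p) (some m) + 2 * n) * t) : ℝ) : ℂ))
        = ci ((2 * n : ℤ) * θ) * ((Real.exp (-(2 / p) * t) : ℝ) : ℂ) * ci (m * θ) := by
    intro m
    simp only [kk, cc']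
    have h1 : ((n + m + n : ℤ) : ℝ) * θ = ((2 * n : ℤ) : ℝ) * θ + m * θ := by push_cast; ring
    rw [h1, ci_add, mul_right_comm, ← Complex.ofReal_mul, ← Real.exp_add]
    have h2 : ((n + m + n : ℤ) : ℝ) * t + -(2 * (1 / p) + (m : ℝ) + 2 * n) * t = -(2 / p) * t := by
      push_cast; ring
    rw [h2]
    ring
  have e8 : ((Real.exp ((kk n none + n : ℤ) * t) : ℝ) : ℂ) * ci ((kk n none + n : ℤ) * θ)
        * ((-1) ^ n * ((Real.exp (-(cc' (1 / p) none + 2 * n) * t) : ℝ) : ℂ) * (RF n (1 / p) : ℝ))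
        = ((-1) ^ n * ci ((2 * n : ℤ) * θ)) * ((Real.exp (-(2 / p) * t) : ℝ) : ℂ)
        * (RF n (1 / p) : ℝ) := by
    linear_combination ((-1) ^ n * ((RF n (1 / p) : ℝ) : ℂ)) * e6
  rw [e8, mul_add, mul_one]
  congr 1
  rw [TS, Finset.mul_sum, Finset.mul_sum]
  apply Finset.sum_congr rfl
  intro m _
  linear_combination ((-1) ^ n * (ε : ℂ) * (RF n (1 / p) : ℝ) * wP n (1 / p) m (ψ m) t) * e7 m

theorem K_eq (n : ℕ) (p : ℝ) : K n p = RF n (1 - 1 / p) / RF n (1 / p) := by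
  rw [K, asc_prod, asc_prod, RF, RF]

end Pool.Agent.D0H14.SV
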