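import Mathlib
import Pool.Agent.D0H14.SV.Fin

/-! Fourier coefficients on circles and Wirtinger derivatives. -/

set_option autoImplicit false

open Set MeasureTheory
open scoped ContDiff

namespace Pool.Agent.D0H14.SV

open Pool.Agent.D0H14.BA

/-- smooth outside the origin -/
def Sm (f : ℂ → ℂ) : Prop := ContDiffOn ℝ ∞ f {0}ᶜ

theorem Sm.diff {f : ℂ → ℂ} (hf : Sm f) {z : ℂ} (hz : z ≠ 0) : DifferentiableAt ℝ f z :=
  (hf.contDiffAt (nhds_ne hz)).differentiableAt (by simp)

theorem Sm.dz {f : ℂ → ℂ} (hf : Sm f) : Sm (dz f) := by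
  have h := hf.fderiv_of_isOpen (m := ∞) isOpen_compl_singleton (by simp)
  have h1 : ContDiffOn ℝ ∞ (fun z => fderiv ℝ f z 1) {0}ᶜ := h.clm_apply contDiffOn_const
  have h2 : ContDiffOn ℝ ∞ (fun z => fderiv ℝ f z Complex.I) {0}ᶜ := h.clm_apply contDiffOn_const
  exact (h1.sub (contDiffOn_const.mul h2)).div_const _

theorem Sm.dzb {f : ℂ → ℂ} (hf : Sm f) : Sm (dzb f) := by
  have h := hf.fderiv_of_isOpen (m := ∞) isOpen_compl_singleton (by simp)
  have h1 : ContDiffOn ℝ ∞ (fun z => fderiv ℝ f z 1) {0}ᶜ := h.clm_apply contDiffOn_const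
  have h2 : ContDiffOn ℝ ∞ (fun z => fderiv ℝ f z Complex.I) {0}ᶜ := h.clm_apply contDiffOn_const
  exact (h1.add (contDiffOn_const.mul h2)).div_const _

theorem Sm.dz_iter {f : ℂ → ℂ} (hf : Sm f) (n : ℕ) : Sm (BA.dz^[n] f) := by
  induction n with
  | zero => exact hf
  | succ n ih => rw [Function.iterate_succ_apply']; exact ih.dz

theorem Sm.dzb_iter {f : ℂ → ℂ} (hf : Sm f) (n : ℕ) : Sm (BA.dzb^[n] f) := by
  induction n with
  | zero => exact hf
  | succ n ih => rw [Function.iterate_succ_apply']; exact ih.dzb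

/-- the point `e ^ (t + i θ)` -/
noncomputable def PO (t θ : ℝ) : ℂ := ((Real.exp t : ℝ) : ℂ) * ci θ

theorem PO_ne (t θ : ℝ) : PO t θ ≠ 0 := polar_ne t θ

theorem PO_cont : Continuous fun x : ℝ × ℝ => PO x.1 x.2 := by
  unfold PO
  exact (Complex.continuous_ofReal.comp (Real.continuous_exp.comp continuous_fst)).mul
    ((ci_smooth 0).continuous.comp continuous_snd)

theorem PO_dt (t θ : ℝ) : HasDerivAt (fun t => PO t θ) (PO t θ) t := by
  unfold PO
  exact ((Real.hasDerivAt_exp t).ofReal_comp).mul_const _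

theorem PO_dθ (t θ : ℝ) : HasDerivAt (fun θ => PO t θ) (Complex.I * PO t θ) θ := by
  unfold PO
  have := (ci_hasDeriv θ).const_mul ((Real.exp t : ℝ) : ℂ)
  refine this.congr_deriv ?_
  ring

theorem Sm.comp_cont {f : ℂ → ℂ} (hf : Sm f) : Continuous fun x : ℝ × ℝ => f (PO x.1 x.2) :=
  hf.continuousOn.comp_continuous PO_cont fun x => PO_ne _ _

theorem Sm.comp_θ {f : ℂ → ℂ} (hf : Sm f) (t : ℝ) : Continuous fun θ : ℝ => f (PO t θ) :=
  hf.comp_cont.comp (continuous_const.prodMk continuous_id)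

theorem ci_cont (k : ℝ) : Continuous fun θ : ℝ => ci (k * θ) :=
  (ci_smooth 0).continuous.comp (continuous_const.mul continuous_id)

/-- real-linearity of the derivative in terms of the Wirtinger derivatives -/
theorem wir {f : ℂ → ℂ} (z : ℂ) :
    2 * (starRingEnd ℂ) z * dzb f z = fderiv ℝ f z z + Complex.I * fderiv ℝ f z (Complex.I * z) ∧
    2 * z * dz f z = fderiv ℝ f z z - Complex.I * fderiv ℝ f z (Complex.I * z) := by
  obtain ⟨L, hL⟩ : ∃ L, L = fderiv ℝ f z := ⟨_, rfl⟩
  rw [dzb, dz, ← hL]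
  have e1 : L z = z.re * L 1 + z.im * L Complex.I := by
    have : z = z.re • (1 : ℂ) + z.im • Complex.I := by
      rw [Complex.real_smul, Complex.real_smul, mul_one, Complex.re_add_im]
    conv_lhs => rw [this]
    rw [map_add, map_smul, map_smul, Complex.real_smul, Complex.real_smul]
  have e2 : L (Complex.I * z) = -z.im * L 1 + z.re * L Complex.I := by
    have : Complex.I * z = (-z.im) • (1 : ℂ) + z.re • Complex.I := by
      rw [Complex.real_smul, Complex.real_smul, mul_one]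
      apply Complex.ext <;> simp
    rw [this, map_add, map_smul, map_smul, Complex.real_smul, Complex.real_smul]
    push_cast
    ring
  have e3 : (starRingEnd ℂ) z = z.re - z.im * Complex.I := by
    apply Complex.ext <;> simp
  have e4 : z = z.re + z.im * Complex.I := (Complex.re_add_im z).symm
  have hI := Complex.I_mul_I
  rw [e1, e2, e3]
  constructor
  · linear_combination (-(z.im : ℂ) * L Complex.I) * hI
  · have : 2 * z * ((L 1 - Complex.I * L Complex.I) / 2)
        = (z.re + z.im * Complex.I) * (L 1 - Complex.I * L Complex.I) := by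
      rw [← e4]; ring
    rw [this]
    linear_combination (-(z.im : ℂ) * L Complex.I) * hI

/-- differentiation under the integral over the circle -/
theorem diff_int {F F' : ℝ → ℝ → ℂ} (hF : Continuous (Function.uncurry F))
    (hF' : Continuous (Function.uncurry F')) (hd : ∀ t θ, HasDerivAt (fun t => F t θ) (F' t θ) t)
    (t : ℝ) : HasDerivAt (fun t => ∫ θ in (-Real.pi)..Real.pi, F t θ)
      (∫ θ in (-Real.pi)..Real.pi, F' t θ) t := by
  have hpi := Real.pi_pos
  have hK : IsCompact (Icc (t - 1) (t + 1) ×ˢ Icc (-Real.pi) Real.pi : Set (ℝ × ℝ)) :=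
    isCompact_Icc.prod isCompact_Icc
  obtain ⟨C, hC⟩ := hK.exists_bound_of_continuousOn hF'.continuousOn
  refine (intervalIntegral.hasDerivAt_integral_of_dominated_loc_of_deriv_le (bound := fun _ => C)
    (s := Icc (t - 1) (t + 1)) (Icc_mem_nhds (by linarith) (by linarith)) ?_ ?_ ?_ ?_ ?_ ?_).2
  · exact Filter.Eventually.of_forall fun x =>
      (hF.comp (continuous_const.prodMk continuous_id) : Continuous (F x)).aestronglyMeasurable
  · exact (hF.comp (continuous_const.prodMk continuous_id) : Continuous (F t)).intervalIntegrable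
      _ _
  · exact (hF'.comp (continuous_const.prodMk continuous_id) :
      Continuous (F' t)).aestronglyMeasurable
  · refine Filter.Eventually.of_forall fun θ hθ x hx => ?_
    rw [uIoc_of_le (by linarith)] at hθ
    exact hC (x, θ) ⟨hx, Ioc_subset_Icc_self hθ⟩
  · exact continuous_const.intervalIntegrable _ _
  · exact Filter.Eventually.of_forall fun θ _ x _ => hd x θ

/-- the Fourier coefficient of a function on the line -/
noncomputable def F1 (k : ℤ) (g : ℝ → ℂ) : ℂ :=
  ((2 * Real.pi)⁻¹ : ℝ) * ∫ θ in (-Real.pi)..Real.pi, g θ * ci (-k * θ)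

/-- the Fourier coefficient on the circle of radius `e ^ t` -/
noncomputable def FC (k : ℤ) (f : ℂ → ℂ) (t : ℝ) : ℂ := F1 k fun θ => f (PO t θ)

theorem ci_int_pi (k : ℤ) : ci (-(k : ℝ) * Real.pi) = ci (-(k : ℝ) * -Real.pi) := by
  have h2 : -(k : ℝ) * -Real.pi = -k * Real.pi + k * (2 * Real.pi) := by ring
  rw [h2, ci_periodic.int_mul k]

theorem PO_pi (t : ℝ) : PO t Real.pi = PO t (-Real.pi) := by
  unfold PO
  have h2 : Real.pi = -Real.pi + 2 * Real.pi := by ring
  conv_lhs => rw [h2]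
  rw [ci_periodic (-Real.pi)]

/-- integration by parts on the circle -/
theorem parts (k : ℤ) {f : ℂ → ℂ} (hf : Sm f) (t : ℝ) :
    ∫ θ in (-Real.pi)..Real.pi, fderiv ℝ f (PO t θ) (Complex.I * PO t θ) * ci (-k * θ)
      = Complex.I * k * ∫ θ in (-Real.pi)..Real.pi, f (PO t θ) * ci (-k * θ) := by
  have hfd : Continuous fun θ : ℝ => fderiv ℝ f (PO t θ) (Complex.I * PO t θ) := by
    have h1 : Sm (dzb f) := hf.dzb
    have h2 : Sm (dz f) := hf.dz
    have e : (fun θ : ℝ => fderiv ℝ f (PO t θ) (Complex.I * PO t θ)) = fun θ =>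
        (2 * (starRingEnd ℂ) (PO t θ) * dzb f (PO t θ) - 2 * PO t θ * dz f (PO t θ))
          / (2 * Complex.I) := by
      funext θ
      have hw := wir (f := f) (PO t θ)
      rw [hw.1, hw.2]
      have hI := Complex.I_ne_zero
      field_simp
      ring
    rw [e]
    have hPO : Continuous fun θ : ℝ => PO t θ :=
      PO_cont.comp (continuous_const.prodMk continuous_id)
    exact (((continuous_const.mul (Complex.continuous_conj.comp hPO)).mul (h1.comp_θ t)).sub
      ((continuous_const.mul hPO).mul (h2.comp_θ t))).div_const _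
  have hg : ∀ θ ∈ uIcc (-Real.pi) Real.pi, HasDerivAt (fun θ => f (PO t θ) * ci (-k * θ))
      (fderiv ℝ f (PO t θ) (Complex.I * PO t θ) * ci (-k * θ)
        + f (PO t θ) * (Complex.I * (-k : ℝ) * ci (-k * θ))) θ := by
    intro θ _
    have h1 := (hf.diff (PO_ne t θ)).hasFDerivAt.comp_hasDerivAt θ (PO_dθ t θ)
    exact h1.fun_mul (ci_lin (-k : ℝ) θ)
  have hc1 : Continuous fun θ : ℝ => fderiv ℝ f (PO t θ) (Complex.I * PO t θ) * ci (-k * θ) :=
    hfd.mul (ci_cont _)
  have hc2 : Continuous fun θ : ℝ => f (PO t θ) * (Complex.I * (-k : ℝ) * ci (-k * θ)) :=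
    (hf.comp_θ t).mul (continuous_const.mul (ci_cont _))
  have h0 := intervalIntegral.integral_eq_sub_of_hasDerivAt hg
    ((hc1.add hc2).intervalIntegrable _ _)
  rw [PO_pi, ci_int_pi k, sub_self, intervalIntegral.integral_add (hc1.intervalIntegrable _ _)
    (hc2.intervalIntegrable _ _)] at h0
  have e : (fun θ : ℝ => f (PO t θ) * (Complex.I * (-k : ℝ) * ci (-k * θ))) = fun θ : ℝ =>
      (-(Complex.I * k)) * (f (PO t θ) * ci (-k * θ)) := by
    funext θ
    push_cast
    ring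
  rw [e, intervalIntegral.integral_const_mul] at h0
  linear_combination h0

theorem FC_deriv_aux (k : ℤ) {f : ℂ → ℂ} (hf : Sm f) (t : ℝ) :
    HasDerivAt (FC k f) (((2 * Real.pi)⁻¹ : ℝ)
      * ∫ θ in (-Real.pi)..Real.pi, fderiv ℝ f (PO t θ) (PO t θ) * ci (-k * θ)) t := by
  have e : ∀ t θ, fderiv ℝ f (PO t θ) (PO t θ) = ((starRingEnd ℂ) (PO t θ) * dzb f (PO t θ)
      + PO t θ * dz f (PO t θ)) := by
    intro t θ
    have hw := wir (f := f) (PO t θ)
    linear_combination (-1 / 2 : ℂ) * hw.1 + (-1 / 2 : ℂ) * hw.2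
  have hfd : Continuous fun x : ℝ × ℝ => fderiv ℝ f (PO x.1 x.2) (PO x.1 x.2) := by
    simp_rw [e]
    exact ((Complex.continuous_conj.comp PO_cont).mul hf.dzb.comp_cont).add
      (PO_cont.mul hf.dz.comp_cont)
  unfold FC F1
  refine HasDerivAt.const_mul _ (diff_int (F := fun t θ => f (PO t θ) * ci (-k * θ))
    (F' := fun t θ => fderiv ℝ f (PO t θ) (PO t θ) * ci (-k * θ)) ?_ ?_ ?_ t)
  · exact hf.comp_cont.mul ((ci_cont (-k)).comp continuous_snd)
  · exact hfd.mul ((ci_cont (-k)).comp continuous_snd)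
  · intro t θ
    exact ((hf.diff (PO_ne t θ)).hasFDerivAt.comp_hasDerivAt t (PO_dt t θ)).mul_const _

theorem FC_dzb (k : ℤ) {f : ℂ → ℂ} (hf : Sm f) (t : ℝ) :
    HasDerivAt (FC k f) (2 * ((Real.exp t : ℝ) : ℂ) * FC (k + 1) (dzb f) t + k * FC k f t) t := by
  refine (FC_deriv_aux k hf t).congr_deriv ?_
  have e1 : ∀ θ : ℝ, fderiv ℝ f (PO t θ) (PO t θ) * ci (-k * θ)
      = 2 * ((Real.exp t : ℝ) : ℂ) * (dzb f (PO t θ) * ci (-(k + 1 : ℤ) * θ))
        - Complex.I * (fderiv ℝ f (PO t θ) (Complex.I * PO t θ) * ci (-k * θ)) := by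
    intro θ
    have hw := (wir (f := f) (PO t θ)).1
    have e2 : (starRingEnd ℂ) (PO t θ) = ((Real.exp t : ℝ) : ℂ) * ci (-θ) := by
      unfold PO
      rw [map_mul, Complex.conj_ofReal]
      congr 1
      rw [ci, ci, ← Complex.exp_conj]
      congr 1
      simp
    have e3 : ci (-((k + 1 : ℤ) : ℝ) * θ) = ci (-k * θ) * ci (-θ) := by
      rw [← ci_add]
      congr 1
      push_cast
      ring
    rw [e2] at hw
    rw [e3]
    linear_combination (-ci (-k * θ)) * hw
  have hc1 : Continuous fun θ : ℝ => dzb f (PO t θ) * ci (-(k + 1 : ℤ) * θ) :=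
    (hf.dzb.comp_θ t).mul (ci_cont _)
  have hfd : Continuous fun θ : ℝ => fderiv ℝ f (PO t θ) (Complex.I * PO t θ) * ci (-k * θ) := by
    have h1 : Sm (dzb f) := hf.dzb
    have h2 : Sm (dz f) := hf.dz
    have e : (fun θ : ℝ => fderiv ℝ f (PO t θ) (Complex.I * PO t θ)) = fun θ =>
        (2 * (starRingEnd ℂ) (PO t θ) * dzb f (PO t θ) - 2 * PO t θ * dz f (PO t θ))
          / (2 * Complex.I) := by
      funext θ
      have hw := wir (f := f) (PO t θ)
      rw [hw.1, hw.2]
      have hI := Complex.I_ne_zero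
      field_simp
      ring
    have hPO : Continuous fun θ : ℝ => PO t θ :=
      PO_cont.comp (continuous_const.prodMk continuous_id)
    refine Continuous.mul ?_ (ci_cont _)
    rw [e]
    exact (((continuous_const.mul (Complex.continuous_conj.comp hPO)).mul (h1.comp_θ t)).sub
      ((continuous_const.mul hPO).mul (h2.comp_θ t))).div_const _
  simp_rw [e1]
  have i1 : IntervalIntegrable (fun θ : ℝ => 2 * ((Real.exp t : ℝ) : ℂ)
      * (dzb f (PO t θ) * ci (-(k + 1 : ℤ) * θ))) volume (-Real.pi) Real.pi :=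
    (continuous_const.mul hc1).intervalIntegrable _ _
  have i2 : IntervalIntegrable (fun θ : ℝ => Complex.I
      * (fderiv ℝ f (PO t θ) (Complex.I * PO t θ) * ci (-k * θ))) volume (-Real.pi) Real.pi :=
    (continuous_const.mul hfd).intervalIntegrable _ _
  rw [intervalIntegral.integral_sub i1 i2, intervalIntegral.integral_const_mul,
    intervalIntegral.integral_const_mul, parts k hf t, FC, FC, F1, F1]
  linear_combination (-(((2 * Real.pi)⁻¹ : ℝ) : ℂ) * k
    * ∫ θ in (-Real.pi)..Real.pi, f (PO t θ) * ci (-k * θ)) * Complex.I_mul_I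

theorem FC_dz (k : ℤ) {f : ℂ → ℂ} (hf : Sm f) (t : ℝ) :
    HasDerivAt (FC k f) (2 * ((Real.exp t : ℝ) : ℂ) * FC (k - 1) (dz f) t - k * FC k f t) t := by
  refine (FC_deriv_aux k hf t).congr_deriv ?_
  have e1 : ∀ θ : ℝ, fderiv ℝ f (PO t θ) (PO t θ) * ci (-k * θ)
      = 2 * ((Real.exp t : ℝ) : ℂ) * (dz f (PO t θ) * ci (-(k - 1 : ℤ) * θ))
        + Complex.I * (fderiv ℝ f (PO t θ) (Complex.I * PO t θ) * ci (-k * θ)) := by
    intro θ
    have hw := (wir (f := f) (PO t θ)).2
    have e3 : ci (-((k - 1 : ℤ) : ℝ) * θ) = ci (-k * θ) * ci θ := by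
      rw [← ci_add]
      congr 1
      push_cast
      ring
    have e2 : PO t θ = ((Real.exp t : ℝ) : ℂ) * ci θ := rfl
    obtain ⟨q, hq⟩ : ∃ q, q = PO t θ := ⟨_, rfl⟩
    rw [← hq] at hw e2 ⊢
    rw [e3]
    linear_combination (-ci (-k * θ)) * hw + (2 * dz f q * ci (-k * θ)) * e2
  have hc1 : Continuous fun θ : ℝ => dz f (PO t θ) * ci (-(k - 1 : ℤ) * θ) :=
    (hf.dz.comp_θ t).mul (ci_cont _)
  have hfd : Continuous fun θ : ℝ => fderiv ℝ f (PO t θ) (Complex.I * PO t θ) * ci (-k * θ) := by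
    have h1 : Sm (dzb f) := hf.dzb
    have h2 : Sm (dz f) := hf.dz
    have e : (fun θ : ℝ => fderiv ℝ f (PO t θ) (Complex.I * PO t θ)) = fun θ =>
        (2 * (starRingEnd ℂ) (PO t θ) * dzb f (PO t θ) - 2 * PO t θ * dz f (PO t θ))
          / (2 * Complex.I) := by
      funext θ
      have hw := wir (f := f) (PO t θ)
      rw [hw.1, hw.2]
      have hI := Complex.I_ne_zero
      field_simp
      ring
    have hPO : Continuous fun θ : ℝ => PO t θ :=
      PO_cont.comp (continuous_const.prodMk continuous_id)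
    refine Continuous.mul ?_ (ci_cont _)
    rw [e]
    exact (((continuous_const.mul (Complex.continuous_conj.comp hPO)).mul (h1.comp_θ t)).sub
      ((continuous_const.mul hPO).mul (h2.comp_θ t))).div_const _
  simp_rw [e1]
  have i1 : IntervalIntegrable (fun θ : ℝ => 2 * ((Real.exp t : ℝ) : ℂ)
      * (dz f (PO t θ) * ci (-(k - 1 : ℤ) * θ))) volume (-Real.pi) Real.pi :=
    (continuous_const.mul hc1).intervalIntegrable _ _
  have i2 : IntervalIntegrable (fun θ : ℝ => Complex.I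
      * (fderiv ℝ f (PO t θ) (Complex.I * PO t θ) * ci (-k * θ))) volume (-Real.pi) Real.pi :=
    (continuous_const.mul hfd).intervalIntegrable _ _
  rw [intervalIntegral.integral_add i1 i2, intervalIntegral.integral_const_mul,
    intervalIntegral.integral_const_mul, parts k hf t, FC, FC, F1, F1]
  linear_combination ((((2 * Real.pi)⁻¹ : ℝ) : ℂ) * k
    * ∫ θ in (-Real.pi)..Real.pi, f (PO t θ) * ci (-k * θ)) * Complex.I_mul_I

theorem FC_contDiff (N : ℕ) : ∀ (f : ℂ → ℂ), Sm f → ∀ k : ℤ, ContDiff ℝ N (FC k f) := by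
  induction N with
  | zero =>
    intro f hf k
    exact contDiff_zero.mpr (continuous_iff_continuousAt.mpr fun t => (FC_dzb k hf t).continuousAt)
  | succ N ih =>
    intro f hf k
    have h1 : Differentiable ℝ (FC k f) := fun t => (FC_dzb k hf t).differentiableAt
    have h2 : deriv (FC k f) = fun t => 2 * ((Real.exp t : ℝ) : ℂ) * FC (k + 1) (dzb f) t
        + k * FC k f t := funext fun t => (FC_dzb k hf t).deriv
    have h3 : ContDiff ℝ N fun t : ℝ => ((Real.exp t : ℝ) : ℂ) :=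
      Complex.ofRealCLM.contDiff.comp Real.contDiff_exp
    have h4 : ContDiff ℝ N (deriv (FC k f)) := by
      rw [h2]
      exact ((contDiff_const.mul h3).mul (ih _ hf.dzb _)).add (contDiff_const.mul (ih _ hf _))
    push_cast
    exact contDiff_succ_iff_deriv.mpr ⟨h1, fun h => by simp at h, h4⟩

theorem FC_smooth (k : ℤ) {f : ℂ → ℂ} (hf : Sm f) : ContDiff ℝ ∞ (FC k f) :=
  contDiff_infty.mpr fun N => FC_contDiff N f hf k

/-- the radial profile of the mode `k` -/
noncomputable def HC (k : ℤ) (f : ℂ → ℂ) (t : ℝ) : ℂ := ((Real.exp (-k * t) : ℝ) : ℂ) * FC k f t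

theorem HC_smooth (k : ℤ) {f : ℂ → ℂ} (hf : Sm f) : ContDiff ℝ ∞ (HC k f) :=
  (exp_smooth _).mul (FC_smooth k hf)

theorem exp_deriv (c t : ℝ) : HasDerivAt (fun t : ℝ => ((Real.exp (c * t) : ℝ) : ℂ))
    (c * ((Real.exp (c * t) : ℝ) : ℂ)) t := by
  have h2 : HasDerivAt (fun t : ℝ => Real.exp (c * t)) (Real.exp (c * t) * c) t := by
    have := ((hasDerivAt_id t).const_mul c).exp
    simpa using this
  refine h2.ofReal_comp.congr_deriv ?_
  push_cast
  ring

theorem HC_dzb (k : ℤ) {f : ℂ → ℂ} (hf : Sm f) (t : ℝ) :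
    HC (k + 1) (dzb f) t = (Real.exp (-2 * t) : ℝ) * (deriv (HC k f) t / 2) := by
  have h := ((exp_deriv (-k) t).fun_mul (FC_dzb k hf t)).deriv
  have e : deriv (HC k f) t = _ := h
  rw [e, HC]
  have e3 : ((Real.exp (-((k + 1 : ℤ) : ℝ) * t) : ℝ) : ℂ)
      = (Real.exp (-2 * t) : ℝ) * ((Real.exp (-k * t) : ℝ) : ℂ) * ((Real.exp t : ℝ) : ℂ) := by
    rw [← Complex.ofReal_mul, ← Complex.ofReal_mul, ← Real.exp_add, ← Real.exp_add]
    congr 2
    push_cast
    ring
  rw [e3]
  push_cast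
  ring

theorem HC_dz (k : ℤ) {f : ℂ → ℂ} (hf : Sm f) (t : ℝ) :
    HC (k - 1) (dz f) t = st 1 k (HC k f) t := by
  have h := ((exp_deriv (-k) t).fun_mul (FC_dz k hf t)).deriv
  have e : deriv (HC k f) t = _ := h
  rw [st, e, HC, HC]
  have e3 : ((Real.exp (-((k - 1 : ℤ) : ℝ) * t) : ℝ) : ℂ)
      = ((Real.exp (-k * t) : ℝ) : ℂ) * ((Real.exp t : ℝ) : ℂ) := by
    rw [← Complex.ofReal_mul, ← Real.exp_add]
    congr 2
    push_cast
    ring
  rw [e3]
  push_cast
  ring

theorem HC_dzb_iter (k : ℤ) {f : ℂ → ℂ} (hf : Sm f) (j : ℕ) :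
    HC (k + j) (dzb^[j] f) = BZ (HC k f) j := by
  induction j with
  | zero => simp [BZ]
  | succ j ih =>
    funext t
    rw [Function.iterate_succ_apply']
    have e1 : k + (j + 1 : ℕ) = k + j + 1 := by push_cast; ring
    rw [e1, HC_dzb _ (hf.dzb_iter j), ih]
    rfl

theorem HC_dz_iter (k : ℤ) {f : ℂ → ℂ} (hf : Sm f) (j : ℕ) :
    HC (k - j) (dz^[j] f) = AZ k (HC k f) j := by
  induction j with
  | zero => simp [AZ, Dn]
  | succ j ih =>
    funext t
    rw [Function.iterate_succ_apply']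
    have e1 : k - (j + 1 : ℕ) = k - j - 1 := by push_cast; ring
    have e2 : AZ k (HC k f) (j + 1) = st 1 ((k : ℝ) - j) (AZ k (HC k f) j) := rfl
    rw [e1, HC_dz _ (hf.dz_iter j), ih, e2]
    push_cast
    rfl

end Pool.Agent.D0H14.SV
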