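import Mathlib
import Pool.Agent.D0H14.SV.Fin

/-! The second variation is positive. -/

set_option autoImplicit false

open Set MeasureTheory
open scoped ContDiff

namespace Pool.Agent.D0H14.SV

open Pool.Agent.D0H14.BA

theorem ii_eq {A B : ℝ} (hAB : A ≤ B) {f : ℝ → ℝ} (hf : ∀ t, t ∉ Icc A B → f t = 0) :
    ∫ t in A..B, f t = ∫ t, f t := by
  rw [intervalIntegral.integral_of_le hAB, ← integral_Icc_eq_integral_Ioc, int_Icc hf]

theorem lam_eq {p : ℝ} (hp : 2 < p) : (1 - 1 / p) / (1 / p) = p - 1 := by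
  have : p ≠ 0 := by linarith
  field_simp

/-- joint continuity of the mode sums -/
theorem W_cont (S : Finset ℤ) {w : ℤ → ℝ → ℂ} (hw : ∀ m, Continuous (w m)) :
    Continuous fun x : ℝ × ℝ => TS S (fun m => w m x.1) x.2 := by
  unfold TS
  refine continuous_finset_sum _ fun m _ => ?_
  exact ((ci_smooth 0).continuous.comp (continuous_const.mul continuous_snd)).mul
    ((hw m).comp continuous_fst)

theorem F_cont (S : Finset ℤ) {w : ℤ → ℝ → ℂ} (hw : ∀ m, Continuous (w m)) {p : ℝ} (hp : 2 < p)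
    (ε : ℝ) : Continuous (Function.uncurry fun t θ : ℝ =>
      ‖1 + (ε : ℂ) * TS S (fun m => w m t) θ‖ ^ p) := by
  have h1 : Continuous fun x : ℝ × ℝ => ‖1 + (ε : ℂ) * TS S (fun m => w m x.1) x.2‖ :=
    (continuous_const.add (continuous_const.mul (W_cont S hw))).norm
  exact h1.rpow_const fun x => Or.inr (by linarith)

theorem bound_TS (S : Finset ℤ) {w : ℤ → ℝ → ℂ} {A B : ℝ} (hw : ∀ m, SC A B (w m)) :
    ∃ C : ℝ, 0 ≤ C ∧ ∀ t θ : ℝ, ‖TS S (fun m => w m t) θ‖ ≤ C := by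
  have h1 : ∀ m, ∃ C : ℝ, ∀ t, ‖w m t‖ ≤ C := fun m =>
    (hw m).cpt.exists_bound_of_continuous (hw m).1.continuous
  choose C hC using h1
  have hC0 : ∀ m, 0 ≤ C m := fun m => (norm_nonneg _).trans (hC m 0)
  refine ⟨∑ m ∈ S, C m, Finset.sum_nonneg fun m _ => hC0 m, fun t θ => ?_⟩
  unfold TS
  refine (norm_sum_le _ _).trans (Finset.sum_le_sum fun m _ => ?_)
  rw [norm_mul, ci_norm, one_mul]
  exact hC m t

theorem int_re_TS (S : Finset ℤ) (c : ℤ → ℂ) (h0 : 0 ∈ S) :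
    ∫ θ in (-Real.pi)..Real.pi, (TS S c θ).re = 2 * Real.pi * (c 0).re := by
  have h1 := Complex.reCLM.intervalIntegral_comp_comm
    ((TS_cont S c).intervalIntegrable (-Real.pi) Real.pi) (μ := volume)
  rw [int_TS S c h0] at h1
  simp only [Complex.reCLM_apply] at h1
  rw [h1, Complex.re_ofReal_mul]

/-- the quadratic density -/
noncomputable def Gam (p : ℝ) (S : Finset ℤ) (w w' : ℤ → ℝ → ℂ) (t : ℝ) : ℝ :=
  (QF (p - 1) 1 (w 0 t) - QF (p - 1) 1 (w' 0 t))
    + ∑ m ∈ S.erase 0, (QF 1 1 (w m t) - (p - 1) * QF 1 1 (w' m t))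

/-- the bound on each circle -/
theorem circle_bound (S : Finset ℤ) (c c' : ℤ → ℂ) (h0 : 0 ∈ S) {p : ℝ} (hp : 2 < p) {ε δ : ℝ}
    (h1 : ∀ θ, |‖1 + (ε : ℂ) * TS S c θ‖ ^ p - (1 + p * ε * (TS S c θ).re
      + ε ^ 2 * (p / 2 * QF (p - 1) 1 (TS S c θ)))| ≤ δ * ε ^ 2)
    (h2 : ∀ θ, |‖1 + (ε : ℂ) * TS S c' θ‖ ^ p - (1 + p * ε * (TS S c' θ).re
      + ε ^ 2 * (p / 2 * QF (p - 1) 1 (TS S c' θ)))| ≤ δ * ε ^ 2) :
    2 * Real.pi * p * ε * ((c 0).re - (c' 0).re)
      + ε ^ 2 * (Real.pi * p) * ((QF (p - 1) 1 (c 0) - QF (p - 1) 1 (c' 0))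
        + ∑ m ∈ S.erase 0, (QF 1 1 (c m) - (p - 1) * QF 1 1 (c' m))) - 4 * Real.pi * δ * ε ^ 2
      ≤ (∫ θ in (-Real.pi)..Real.pi, ‖1 + (ε : ℂ) * TS S c θ‖ ^ p)
        - ∫ θ in (-Real.pi)..Real.pi, ‖1 + (ε : ℂ) * TS S c' θ‖ ^ p := by
  have hpi := Real.pi_pos
  have hF : ∀ c : ℤ → ℂ, Continuous fun θ => ‖1 + (ε : ℂ) * TS S c θ‖ ^ p := fun c =>
    ((continuous_const.add (continuous_const.mul (TS_cont S c))).norm).rpow_const
      fun x => Or.inr (by linarith)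
  have hre : ∀ c : ℤ → ℂ, Continuous fun θ => (TS S c θ).re := fun c =>
    Complex.continuous_re.comp (TS_cont S c)
  have hQ : ∀ c : ℤ → ℂ, Continuous fun θ => QF (p - 1) 1 (TS S c θ) := fun c =>
    (QF_cont _ _).comp (TS_cont S c)
  have e1 : ∀ c : ℤ → ℂ, ∫ θ in (-Real.pi)..Real.pi, (1 + p * ε * (TS S c θ).re
      + ε ^ 2 * (p / 2 * QF (p - 1) 1 (TS S c θ)))
      = 2 * Real.pi + p * ε * (2 * Real.pi * (c 0).re)
        + ε ^ 2 * (p / 2 * ∫ θ in (-Real.pi)..Real.pi, QF (p - 1) 1 (TS S c θ)) := by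
    intro c
    have i1 : IntervalIntegrable (fun _ : ℝ => (1 : ℝ)) volume (-Real.pi) Real.pi :=
      continuous_const.intervalIntegrable _ _
    have i2 : IntervalIntegrable (fun θ => p * ε * (TS S c θ).re) volume (-Real.pi) Real.pi :=
      (continuous_const.mul (hre c)).intervalIntegrable _ _
    have i3 : IntervalIntegrable (fun θ => ε ^ 2 * (p / 2 * QF (p - 1) 1 (TS S c θ))) volume
        (-Real.pi) Real.pi :=
      (continuous_const.mul (continuous_const.mul (hQ c))).intervalIntegrable _ _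
    rw [intervalIntegral.integral_add (i1.add i2) i3, intervalIntegral.integral_add i1 i2,
      intervalIntegral.integral_const_mul, intervalIntegral.integral_const_mul,
      intervalIntegral.integral_const_mul, int_re_TS S c h0, intervalIntegral.integral_const,
      smul_eq_mul]
    ring
  have hlow : 2 * Real.pi + p * ε * (2 * Real.pi * (c 0).re)
        + ε ^ 2 * (p / 2 * ∫ θ in (-Real.pi)..Real.pi, QF (p - 1) 1 (TS S c θ))
        - δ * ε ^ 2 * (2 * Real.pi) ≤ ∫ θ in (-Real.pi)..Real.pi, ‖1 + (ε : ℂ) * TS S c θ‖ ^ p := by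
    rw [← e1 c]
    have i1 : IntervalIntegrable (fun θ => 1 + p * ε * (TS S c θ).re
        + ε ^ 2 * (p / 2 * QF (p - 1) 1 (TS S c θ))) volume (-Real.pi) Real.pi :=
      ((continuous_const.add (continuous_const.mul (hre c))).add
        (continuous_const.mul (continuous_const.mul (hQ c)))).intervalIntegrable _ _
    have i2 : IntervalIntegrable (fun _ : ℝ => δ * ε ^ 2) volume (-Real.pi) Real.pi :=
      continuous_const.intervalIntegrable _ _
    have e2 : δ * ε ^ 2 * (2 * Real.pi) = ∫ θ in (-Real.pi)..Real.pi, δ * ε ^ 2 := by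
      rw [intervalIntegral.integral_const, smul_eq_mul]
      ring
    rw [e2, ← intervalIntegral.integral_sub i1 i2]
    apply intervalIntegral.integral_mono_on (by linarith) (i1.sub i2)
      ((hF c).intervalIntegrable _ _)
    intro θ _
    have := (abs_le.mp (h1 θ)).1
    linarith
  have hup : ∫ θ in (-Real.pi)..Real.pi, ‖1 + (ε : ℂ) * TS S c' θ‖ ^ p
      ≤ 2 * Real.pi + p * ε * (2 * Real.pi * (c' 0).re)
        + ε ^ 2 * (p / 2 * ∫ θ in (-Real.pi)..Real.pi, QF (p - 1) 1 (TS S c' θ))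
        + δ * ε ^ 2 * (2 * Real.pi) := by
    rw [← e1 c']
    have i1 : IntervalIntegrable (fun θ => 1 + p * ε * (TS S c' θ).re
        + ε ^ 2 * (p / 2 * QF (p - 1) 1 (TS S c' θ))) volume (-Real.pi) Real.pi :=
      ((continuous_const.add (continuous_const.mul (hre c'))).add
        (continuous_const.mul (continuous_const.mul (hQ c')))).intervalIntegrable _ _
    have i2 : IntervalIntegrable (fun _ : ℝ => δ * ε ^ 2) volume (-Real.pi) Real.pi :=
      continuous_const.intervalIntegrable _ _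
    have e2 : δ * ε ^ 2 * (2 * Real.pi) = ∫ θ in (-Real.pi)..Real.pi, δ * ε ^ 2 := by
      rw [intervalIntegral.integral_const, smul_eq_mul]
      ring
    rw [e2, ← intervalIntegral.integral_add i1 i2]
    apply intervalIntegral.integral_mono_on (by linarith) ((hF c').intervalIntegrable _ _)
      (i1.add i2)
    intro θ _
    have := (abs_le.mp (h2 θ)).2
    linarith
  have b1 := (QF_bounds S c h0 (α := p - 1) (by linarith)).1
  have b2 := (QF_bounds S c' h0 (α := p - 1) (by linarith)).2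
  have b3 : 2 * Real.pi * ((QF (p - 1) 1 (c 0) - QF (p - 1) 1 (c' 0))
        + ∑ m ∈ S.erase 0, (QF 1 1 (c m) - (p - 1) * QF 1 1 (c' m)))
      ≤ (∫ θ in (-Real.pi)..Real.pi, QF (p - 1) 1 (TS S c θ))
        - ∫ θ in (-Real.pi)..Real.pi, QF (p - 1) 1 (TS S c' θ) := by
    rw [Finset.sum_sub_distrib]
    linarith
  have b4 := mul_le_mul_of_nonneg_left b3 (show 0 ≤ ε ^ 2 * (p / 2) by positivity)
  linarith

/-- the bound after integration in `t` -/
theorem total_bound (S : Finset ℤ) (h0 : 0 ∈ S) {p : ℝ} (hp : 2 < p) {A B : ℝ} (hAB : A < B)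
    {w w' : ℤ → ℝ → ℂ} (hw : ∀ m, SC A B (w m)) (hw' : ∀ m, SC A B (w' m))
    (hfv : ∫ t, w 0 t = ∫ t, w' 0 t) {G : ℝ}
    (hG : G = (NQ (p - 1) 1 (w 0) - NQ (p - 1) 1 (w' 0))
      + ∑ m ∈ S.erase 0, (NQ 1 1 (w m) - (p - 1) * NQ 1 1 (w' m))) (hGpos : 0 < G) :
    ∃ ε₀ : ℝ, 0 < ε₀ ∧ ∀ ε : ℝ, |ε| ≤ ε₀ →
      Real.pi * p * G / 2 * ε ^ 2 ≤ ∫ t in A..B,
        ((∫ θ in (-Real.pi)..Real.pi, ‖1 + (ε : ℂ) * TS S (fun m => w m t) θ‖ ^ p)
          - ∫ θ in (-Real.pi)..Real.pi, ‖1 + (ε : ℂ) * TS S (fun m => w' m t) θ‖ ^ p) := by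
  have hpi := Real.pi_pos
  obtain ⟨C, hC, hCb⟩ := bound_TS S hw
  obtain ⟨C', hC', hCb'⟩ := bound_TS S hw'
  obtain ⟨δ, hδ⟩ : ∃ δ, δ = p * G / 8 / (B - A) := ⟨_, rfl⟩
  have hBA : 0 < B - A := by linarith
  have hδ0 : 0 < δ := by rw [hδ]; positivity
  obtain ⟨ε₁, he1, hx1⟩ := expand p C δ hp hC hδ0
  obtain ⟨ε₂, he2, hx2⟩ := expand p C' δ hp hC' hδ0
  refine ⟨min ε₁ ε₂, lt_min he1 he2, fun ε hε => ?_⟩
  have hpt : ∀ t, 2 * Real.pi * p * ε * ((w 0 t).re - (w' 0 t).re)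
      + ε ^ 2 * (Real.pi * p) * Gam p S w w' t - 4 * Real.pi * δ * ε ^ 2
      ≤ (∫ θ in (-Real.pi)..Real.pi, ‖1 + (ε : ℂ) * TS S (fun m => w m t) θ‖ ^ p)
          - ∫ θ in (-Real.pi)..Real.pi, ‖1 + (ε : ℂ) * TS S (fun m => w' m t) θ‖ ^ p := by
    intro t
    exact circle_bound S (fun m => w m t) (fun m => w' m t) h0 hp
      (fun θ => hx1 ε (hε.trans (min_le_left _ _)) _ (hCb t θ))
      (fun θ => hx2 ε (hε.trans (min_le_right _ _)) _ (hCb' t θ))
  have hcw : ∀ m, Continuous (w m) := fun m => (hw m).1.continuous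
  have hcw' : ∀ m, Continuous (w' m) := fun m => (hw' m).1.continuous
  have hcD : Continuous fun t =>
      (∫ θ in (-Real.pi)..Real.pi, ‖1 + (ε : ℂ) * TS S (fun m => w m t) θ‖ ^ p)
          - ∫ θ in (-Real.pi)..Real.pi, ‖1 + (ε : ℂ) * TS S (fun m => w' m t) θ‖ ^ p :=
    (intervalIntegral.continuous_parametric_intervalIntegral_of_continuous'
      (F_cont S hcw hp ε) _ _).sub
    (intervalIntegral.continuous_parametric_intervalIntegral_of_continuous'
      (F_cont S hcw' hp ε) _ _)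
  have hcr : Continuous fun t => (w 0 t).re - (w' 0 t).re :=
    (Complex.continuous_re.comp (hcw 0)).sub (Complex.continuous_re.comp (hcw' 0))
  have hcG : Continuous (Gam p S w w') := by
    unfold Gam
    refine (((QF_cont _ _).comp (hcw 0)).sub ((QF_cont _ _).comp (hcw' 0))).add ?_
    refine continuous_finset_sum _ fun m _ => ?_
    exact ((QF_cont _ _).comp (hcw m)).sub (continuous_const.mul ((QF_cont _ _).comp (hcw' m)))
  have i1 : IntervalIntegrable (fun t => 2 * Real.pi * p * ε * ((w 0 t).re - (w' 0 t).re)) volume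
      A B := (continuous_const.mul hcr).intervalIntegrable _ _
  have i2 : IntervalIntegrable (fun t => ε ^ 2 * (Real.pi * p) * Gam p S w w' t) volume A B :=
    (continuous_const.mul hcG).intervalIntegrable _ _
  have i3 : IntervalIntegrable (fun _ : ℝ => 4 * Real.pi * δ * ε ^ 2) volume A B :=
    continuous_const.intervalIntegrable _ _
  have hmono := intervalIntegral.integral_mono_on hAB.le ((i1.add i2).sub i3)
    (hcD.intervalIntegrable A B) (fun t _ => hpt t)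
  have hI1 : ∫ t in A..B, ((w 0 t).re - (w' 0 t).re) = 0 := by
    rw [ii_eq hAB.le (fun t ht => by rw [(hw 0).2 t ht, (hw' 0).2 t ht, sub_self])]
    have j1 : Integrable (w 0) := (hcw 0).integrable_of_hasCompactSupport (hw 0).cpt
    have j2 : Integrable (w' 0) := (hcw' 0).integrable_of_hasCompactSupport (hw' 0).cpt
    have k1 := Complex.reCLM.integral_comp_comm j1
    have k2 := Complex.reCLM.integral_comp_comm j2
    simp only [Complex.reCLM_apply] at k1 k2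
    rw [integral_sub (f := fun t => (w 0 t).re) (g := fun t => (w' 0 t).re)
      (Complex.reCLM.integrable_comp j1) (Complex.reCLM.integrable_comp j2), k1, k2, hfv, sub_self]
  have hI2 : ∫ t in A..B, Gam p S w w' t = G := by
    rw [ii_eq hAB.le (fun t ht => by
      unfold Gam
      rw [(hw 0).2 t ht, (hw' 0).2 t ht, sub_self, zero_add]
      refine Finset.sum_eq_zero fun m _ => ?_
      rw [(hw m).2 t ht, (hw' m).2 t ht, QF_zero, mul_zero, sub_zero])]
    unfold Gam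
    rw [integral_add, integral_sub, integral_finset_sum, hG]
    · congr 1
      refine Finset.sum_congr rfl fun m _ => ?_
      rw [integral_sub (QF_int (hw m) 1 1) ((QF_int (hw' m) 1 1).const_mul _), integral_const_mul]
      rfl
    · intro m _
      exact (QF_int (hw m) 1 1).sub ((QF_int (hw' m) 1 1).const_mul _)
    · exact QF_int (hw 0) _ _
    · exact QF_int (hw' 0) _ _
    · exact (QF_int (hw 0) _ _).sub (QF_int (hw' 0) _ _)
    · exact integrable_finset_sum _ fun m _ =>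
        (QF_int (hw m) 1 1).sub ((QF_int (hw' m) 1 1).const_mul _)
  rw [intervalIntegral.integral_sub (i1.add i2) i3, intervalIntegral.integral_add i1 i2,
    intervalIntegral.integral_const_mul, intervalIntegral.integral_const_mul, hI1, hI2,
    intervalIntegral.integral_const, smul_eq_mul] at hmono
  refine le_trans (le_of_eq ?_) hmono
  rw [hδ]
  field_simp
  ring

/-- the main statement, with `0 ∈ S` -/
theorem main0 (n : ℕ) (hn : 1 ≤ n) {p : ℝ} (hp : 2 < p) (S : Finset ℤ) (h0 : 0 ∈ S)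
    (ψ : ℤ → ℝ → ℂ) {A B : ℝ} (hAB : A < B) (hψ : ∀ m, SC A B (ψ m))
    (hne : ∃ m ∈ S, ∃ t, ψ m t ≠ 0) :
    ∃ c : ℝ, 0 < c ∧ ∃ ε₀ : ℝ, 0 < ε₀ ∧ ∀ a b : ℝ, 0 < a → a ≤ b →
      (∀ m, ∀ t, t ∉ Icc (Real.log a) (Real.log b) → ψ m t = 0) → ∀ ε : ℝ, |ε| ≤ ε₀ →
      (∫ z in {z : ℂ | a ≤ ‖z‖ ∧ ‖z‖ ≤ b},
          ‖(dz^[n] (fun z => u0 n p z + (ε : ℂ) * pert n p S ψ z)) z‖ ^ p) + c * ε ^ 2
        ≤ K n p ^ p * ∫ z in {z : ℂ | a ≤ ‖z‖ ∧ ‖z‖ ≤ b},
          ‖(dzb^[n] (fun z => u0 n p z + (ε : ℂ) * pert n p S ψ z)) z‖ ^ p := by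
  have hp0 : 0 < p := by linarith
  have hs : 0 < 1 / p := by positivity
  have hs2 : 1 / p < 1 / 2 := one_div_lt_one_div_of_lt (by norm_num) hp
  have hX := RF_pos n hs
  have hY := RF_pos n (show 0 < 1 - 1 / p by linarith)
  have hpi := Real.pi_pos
  obtain ⟨w, hw⟩ : ∃ w : ℤ → ℝ → ℂ, w = fun m => wP n (1 / p) m (ψ m) := ⟨_, rfl⟩
  obtain ⟨w', hw'⟩ : ∃ w' : ℤ → ℝ → ℂ, w' = fun m => wM n (1 / p) m (ψ m) := ⟨_, rfl⟩
  have hwS : ∀ {A B : ℝ}, (∀ m, SC A B (ψ m)) → ∀ m, SC A B (w m) := fun h m => by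
    rw [hw]; exact (h m).wP n _ m
  have hwS' : ∀ {A B : ℝ}, (∀ m, SC A B (ψ m)) → ∀ m, SC A B (w' m) := fun h m => by
    rw [hw']; exact (h m).wM n _ m
  obtain ⟨G, hG⟩ : ∃ G, G = GG n (1 / p) S ψ := ⟨_, rfl⟩
  have hGpos : 0 < G := hG ▸ GG_pos n hn hs hs2 S ψ hψ hne
  have hG2 : G = (NQ (p - 1) 1 (w 0) - NQ (p - 1) 1 (w' 0))
      + ∑ m ∈ S.erase 0, (NQ 1 1 (w m) - (p - 1) * NQ 1 1 (w' m)) := by
    rw [hG, GG, lam_eq hp, hw, hw']
  have hfv : ∫ t, w 0 t = ∫ t, w' 0 t := by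
    rw [hw, hw']
    exact first_var n hs hs2 (hψ 0)
  obtain ⟨ε₀, hε₀, hb⟩ := total_bound S h0 hp hAB (hwS hψ) (hwS' hψ) hfv hG2 hGpos
  refine ⟨RF n (1 - 1 / p) ^ p * (Real.pi * p * G / 2), by positivity, ε₀, hε₀,
    fun a b ha hab hsup ε hε => ?_⟩
  have hψ2 : ∀ m, SC (Real.log a) (Real.log b) (ψ m) := fun m => ⟨(hψ m).1, hsup m⟩
  have hcw : ∀ m, Continuous (w m) := fun m => (hwS hψ m).1.continuous
  have hcw' : ∀ m, Continuous (w' m) := fun m => (hwS' hψ m).1.continuous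
  have hexp : ∀ t : ℝ, Real.exp (-(2 / p) * t) ^ p = Real.exp (-2 * t) := by
    intro t
    rw [← Real.exp_mul]
    congr 1
    field_simp
  have f1 := polar_int (G := dz^[n] (fun z => u0 n p z + (ε : ℂ) * pert n p S ψ z)) (p := p)
    (g := fun t θ => RF n (1 - 1 / p) ^ p * ‖1 + (ε : ℂ) * TS S (fun m => w' m t) θ‖ ^ p)
    (continuous_const.mul (F_cont S hcw' hp ε)) ha hab (by
      intro t θ
      rw [form_dz n hp ε S (fun m => (hψ m).1), norm_mul, norm_mul, Complex.norm_real,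
        Complex.norm_real, Real.norm_of_nonneg (Real.exp_pos _).le, Real.norm_of_nonneg hY.le,
        Real.mul_rpow (by positivity) (norm_nonneg _), Real.mul_rpow (by positivity) hY.le, hexp,
        hw']
      ring)
  have f2 := polar_int (G := dzb^[n] (fun z => u0 n p z + (ε : ℂ) * pert n p S ψ z)) (p := p)
    (g := fun t θ => RF n (1 / p) ^ p * ‖1 + (ε : ℂ) * TS S (fun m => w m t) θ‖ ^ p)
    (continuous_const.mul (F_cont S hcw hp ε)) ha hab (by
      intro t θ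
      rw [form_dzb n hp ε S (fun m => (hψ m).1), norm_mul, norm_mul, norm_mul, norm_mul, norm_pow,
        norm_neg, norm_one, one_pow, ci_norm, one_mul, one_mul, Complex.norm_real,
        Complex.norm_real, Real.norm_of_nonneg (Real.exp_pos _).le, Real.norm_of_nonneg hX.le,
        Real.mul_rpow (by positivity) (norm_nonneg _), Real.mul_rpow (by positivity) hX.le, hexp,
        hw]
      ring)
  rw [f1, f2]
  simp_rw [intervalIntegral.integral_const_mul]
  have hK : K n p ^ p * RF n (1 / p) ^ p = RF n (1 - 1 / p) ^ p := by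
    rw [K_eq, Real.div_rpow hY.le hX.le, div_mul_cancel₀ _ (by positivity)]
  rw [← mul_assoc, hK, mul_assoc, ← mul_add]
  apply mul_le_mul_of_nonneg_left _ (by positivity)
  have hlog : Real.log a ≤ Real.log b := Real.log_le_log ha hab
  have c1 : Continuous fun t => ∫ θ in (-Real.pi)..Real.pi,
      ‖1 + (ε : ℂ) * TS S (fun m => w m t) θ‖ ^ p :=
    intervalIntegral.continuous_parametric_intervalIntegral_of_continuous' (F_cont S hcw hp ε) _ _
  have c2 : Continuous fun t => ∫ θ in (-Real.pi)..Real.pi,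
      ‖1 + (ε : ℂ) * TS S (fun m => w' m t) θ‖ ^ p :=
    intervalIntegral.continuous_parametric_intervalIntegral_of_continuous' (F_cont S hcw' hp ε) _ _
  have hvan : ∀ {A B : ℝ}, (∀ m, SC A B (ψ m)) → ∀ t, t ∉ Icc A B →
      (∫ θ in (-Real.pi)..Real.pi, ‖1 + (ε : ℂ) * TS S (fun m => w m t) θ‖ ^ p)
          - ∫ θ in (-Real.pi)..Real.pi, ‖1 + (ε : ℂ) * TS S (fun m => w' m t) θ‖ ^ p = 0 := by
    intro A B h t ht
    have z1 : ∀ θ, TS S (fun m => w m t) θ = 0 := fun θ => by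
      unfold TS
      exact Finset.sum_eq_zero fun m _ => by
        show _ * w m t = 0
        rw [(hwS h m).2 t ht, mul_zero]
    have z2 : ∀ θ, TS S (fun m => w' m t) θ = 0 := fun θ => by
      unfold TS
      exact Finset.sum_eq_zero fun m _ => by
        show _ * w' m t = 0
        rw [(hwS' h m).2 t ht, mul_zero]
    simp_rw [z1, z2]
    exact sub_self _
  have hfin := hb ε hε
  rw [ii_eq hAB.le (hvan hψ), ← ii_eq hlog (hvan hψ2),
    intervalIntegral.integral_sub (c1.intervalIntegrable _ _) (c2.intervalIntegrable _ _)] at hfin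
  linarith

/-- the main statement -/
theorem main (n : ℕ) (hn : 1 ≤ n) {p : ℝ} (hp : 2 < p) (S : Finset ℤ) (ψ : ℤ → ℝ → ℂ)
    (hψ : ∀ m ∈ S, ContDiff ℝ ∞ (ψ m) ∧ HasCompactSupport (ψ m)) (hne : ∃ m ∈ S, ψ m ≠ 0) :
    ∃ c : ℝ, 0 < c ∧ ∃ ε₀ : ℝ, 0 < ε₀ ∧ ∀ a b : ℝ, 0 < a → a ≤ b →
      (∀ m ∈ S, Function.support (ψ m) ⊆ Icc (Real.log a) (Real.log b)) → ∀ ε : ℝ, |ε| ≤ ε₀ →
      (∫ z in {z : ℂ | a ≤ ‖z‖ ∧ ‖z‖ ≤ b},
          ‖(dz^[n] (fun z => u0 n p z + (ε : ℂ) * pert n p S ψ z)) z‖ ^ p) + c * ε ^ 2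
        ≤ K n p ^ p * ∫ z in {z : ℂ | a ≤ ‖z‖ ∧ ‖z‖ ≤ b},
          ‖(dzb^[n] (fun z => u0 n p z + (ε : ℂ) * pert n p S ψ z)) z‖ ^ p := by
  classical
  obtain ⟨φ, hφ⟩ : ∃ φ : ℤ → ℝ → ℂ, φ = fun m => if m ∈ S then ψ m else 0 := ⟨_, rfl⟩
  have hφS : ∀ m ∈ S, φ m = ψ m := fun m hm => by rw [hφ]; exact if_pos hm
  have hφN : ∀ m, m ∉ S → φ m = 0 := fun m hm => by rw [hφ]; exact if_neg hm
  have hR : ∀ m, ∃ R : ℝ, 0 ≤ R ∧ ∀ t, R < |t| → φ m t = 0 := by
    intro m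
    by_cases hm : m ∈ S
    · obtain ⟨R, hR⟩ := (hψ m hm).2.isCompact.isBounded.subset_closedBall 0
      refine ⟨max R 0, le_max_right _ _, fun t ht => ?_⟩
      rw [hφS m hm]
      by_contra h
      have h1 : t ∈ tsupport (ψ m) := subset_tsupport _ h
      have h2 := hR h1
      rw [Metric.mem_closedBall, Real.dist_eq, sub_zero] at h2
      exact absurd (h2.trans (le_max_left _ _)) (not_le.mpr ht)
    · exact ⟨0, le_rfl, fun t _ => by rw [hφN m hm]; rfl⟩
  choose R hR0 hR using hR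
  obtain ⟨T, hT⟩ : ∃ T, T = (∑ m ∈ S, R m) + 1 := ⟨_, rfl⟩
  have hT1 : ∀ m ∈ S, R m < T := fun m hm => by
    have := Finset.single_le_sum (fun m _ => hR0 m) hm
    rw [hT]; linarith
  have hT0 : 0 < T := by
    rw [hT]
    have := Finset.sum_nonneg (fun m (_ : m ∈ S) => hR0 m)
    linarith
  have hsm : ∀ m, ContDiff ℝ ∞ (φ m) := fun m => by
    by_cases hm : m ∈ S
    · rw [hφS m hm]; exact (hψ m hm).1
    · rw [hφN m hm]; exact contDiff_const
  have hSC : ∀ m, SC (-T) T (φ m) := fun m => ⟨hsm m, fun t ht => by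
    by_cases hm : m ∈ S
    · apply hR m
      by_contra h
      apply ht
      have h1 : |t| < T := lt_of_le_of_lt (not_lt.mp h) (hT1 m hm)
      exact ⟨(abs_lt.mp h1).1.le, (abs_lt.mp h1).2.le⟩
    · rw [hφN m hm]; rfl⟩
  have hne' : ∃ m ∈ insert 0 S, ∃ t, φ m t ≠ 0 := by
    obtain ⟨m, hm, h⟩ := hne
    refine ⟨m, Finset.mem_insert_of_mem hm, ?_⟩
    rw [hφS m hm]
    exact Function.ne_iff.mp h
  obtain ⟨c, hc, ε₀, hε₀, hmain⟩ := main0 n hn hp (insert 0 S) (Finset.mem_insert_self _ _) φ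
    (show -T < T by linarith) hSC hne'
  have hpert : ∀ z, pert n p (insert 0 S) φ z = pert n p S ψ z := by
    intro z
    unfold pert
    congr 1
    symm
    refine (Finset.sum_congr rfl fun m hm => ?_).trans
      (Finset.sum_subset (Finset.subset_insert 0 S) fun m _ hm => ?_)
    · rw [hφS m hm]
    · rw [hφN m hm, Pi.zero_apply, zero_mul]
  refine ⟨c, hc, ε₀, hε₀, fun a b ha hab hsup ε hε => ?_⟩
  have h := hmain a b ha hab (fun m t ht => by
    by_cases hm : m ∈ S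
    · rw [hφS m hm]
      by_contra h
      exact ht (hsup m hm h)
    · rw [hφN m hm]; rfl) ε hε
  simp_rw [hpert] at h
  exact h

/-- the values at the extremal -/
theorem at_u0 (n : ℕ) {p : ℝ} (hp : 2 < p) {z : ℂ} (hz : z ≠ 0) :
    ‖(dz^[n] (u0 n p)) z‖ = K n p * ‖(dzb^[n] (u0 n p)) z‖ ∧ 0 < ‖(dzb^[n] (u0 n p)) z‖ := by
  have hp0 : 0 < p := by linarith
  have hs : 0 < 1 / p := by positivity
  have hs2 : 1 / p < 1 / 2 := one_div_lt_one_div_of_lt (by norm_num) hp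
  have hX := RF_pos n hs
  have hY := RF_pos n (show 0 < 1 - 1 / p by linarith)
  have hn : 0 < ‖z‖ := norm_pos_iff.mpr hz
  have hzp : z = ((Real.exp (Real.log ‖z‖) : ℝ) : ℂ) * ci (Complex.arg z) := by
    rw [Real.exp_log hn, ci]
    exact (Complex.norm_mul_exp_arg_mul_I z).symm
  have e : (fun z => u0 n p z + ((0 : ℝ) : ℂ) * pert n p ∅ (fun _ _ => 0) z) = u0 n p := by
    funext z
    simp
  have f1 := form_dz n hp 0 ∅ (ψ := fun _ _ => 0) (fun _ => contDiff_const) (Real.log ‖z‖)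
    (Complex.arg z)
  have f2 := form_dzb n hp 0 ∅ (ψ := fun _ _ => 0) (fun _ => contDiff_const) (Real.log ‖z‖)
    (Complex.arg z)
  rw [e, ← hzp] at f1 f2
  have g1 : ‖(dz^[n] (u0 n p)) z‖ = Real.exp (-(2 / p) * Real.log ‖z‖) * RF n (1 - 1 / p) := by
    rw [f1]
    simp only [Complex.ofReal_zero, zero_mul, add_zero, mul_one, norm_mul, Complex.norm_real,
      Real.norm_eq_abs, Real.abs_exp, abs_of_pos hY]
  have g2 : ‖(dzb^[n] (u0 n p)) z‖ = Real.exp (-(2 / p) * Real.log ‖z‖) * RF n (1 / p) := by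
    rw [f2]
    simp only [Complex.ofReal_zero, zero_mul, add_zero, mul_one, norm_mul, Complex.norm_real,
      Real.norm_eq_abs, Real.abs_exp, abs_of_pos hX, norm_pow, norm_neg, norm_one, one_pow,
      ci_norm, one_mul]
  rw [g1, g2, K_eq]
  refine ⟨?_, by positivity⟩
  field_simp

end Pool.Agent.D0H14.SV
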