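import Mathlib
import Pool.Agent.D0H14.SV.Coef

/-! Parseval's identity on circles and after integration in `t`. -/

set_option autoImplicit false

open Set MeasureTheory
open scoped ContDiff

namespace Pool.Agent.D0H14.SV

open Pool.Agent.D0H14.BA

/-- Parseval -/
theorem pars {g : ℝ → ℂ} (hg : Continuous g) :
    HasSum (fun m : ℤ => QF 1 1 (F1 m g))
      ((2 * Real.pi)⁻¹ * ∫ θ in (-Real.pi)..Real.pi, QF 1 1 (g θ)) := by
  have hpi := Real.pi_pos
  have hab : -Real.pi < Real.pi := by linarith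
  have hL2 : MemLp g 2 (volume.restrict (Ioc (-Real.pi) Real.pi)) := by
    obtain ⟨C, hC⟩ := (isCompact_Icc (a := -Real.pi) (b := Real.pi)).exists_bound_of_continuousOn
      hg.continuousOn
    refine MemLp.of_bound hg.aestronglyMeasurable C ?_
    rw [ae_restrict_iff' measurableSet_Ioc]
    exact Filter.Eventually.of_forall fun x hx => hC x (Ioc_subset_Icc_self hx)
  have h := hasSum_sq_fourierCoeffOn hab hL2
  have e0 : Real.pi - -Real.pi = 2 * Real.pi := by ring
  have e1 : ∀ m : ℤ, fourierCoeffOn hab g m = F1 m g := by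
    intro m
    rw [fourierCoeffOn_eq_integral, F1, Complex.real_smul]
    congr 1
    · rw [e0, one_div]
    · apply intervalIntegral.integral_congr
      intro θ _
      show fourier (-m) (θ : AddCircle (Real.pi - -Real.pi)) • g θ = g θ * ci (-m * θ)
      rw [fourier_coe_apply, smul_eq_mul, mul_comm, ci]
      congr 2
      rw [e0]
      push_cast
      have : (Real.pi : ℂ) ≠ 0 := by exact_mod_cast hpi.ne'
      field_simp
  simp_rw [e1] at h
  rw [e0, smul_eq_mul] at h
  simp_rw [QF11]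
  exact h

/-- the form `QF` and the mean -/
theorem sq_mean' {g : ℝ → ℝ} (hg : Continuous g) :
    2 * Real.pi * ((2 * Real.pi)⁻¹ * ∫ θ in (-Real.pi)..Real.pi, g θ) ^ 2
      ≤ ∫ θ in (-Real.pi)..Real.pi, g θ ^ 2 := by
  have hpi := Real.pi_pos
  obtain ⟨I, hI⟩ : ∃ I, I = ∫ θ in (-Real.pi)..Real.pi, g θ := ⟨_, rfl⟩
  obtain ⟨c, hc⟩ : ∃ c, c = (2 * Real.pi)⁻¹ * I := ⟨_, rfl⟩
  rw [← hI, ← hc]
  have h0 : 0 ≤ ∫ θ in (-Real.pi)..Real.pi, (g θ - c) ^ 2 :=
    intervalIntegral.integral_nonneg (by linarith) fun θ _ => sq_nonneg _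
  have i1 : IntervalIntegrable (fun θ => g θ ^ 2) volume (-Real.pi) Real.pi :=
    (hg.pow 2).intervalIntegrable _ _
  have i2 : IntervalIntegrable (fun θ => 2 * c * g θ) volume (-Real.pi) Real.pi :=
    (continuous_const.mul hg).intervalIntegrable _ _
  have i3 : IntervalIntegrable (fun _ : ℝ => c ^ 2) volume (-Real.pi) Real.pi :=
    continuous_const.intervalIntegrable _ _
  have e : ∀ θ, (g θ - c) ^ 2 = g θ ^ 2 - 2 * c * g θ + c ^ 2 := fun θ => by ring
  simp_rw [e] at h0
  rw [intervalIntegral.integral_add (i1.sub i2) i3, intervalIntegral.integral_sub i1 i2,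
    intervalIntegral.integral_const_mul, ← hI, intervalIntegral.integral_const, smul_eq_mul] at h0
  have h1 : I = 2 * Real.pi * c := by rw [hc]; field_simp
  rw [h1] at h0
  linarith

theorem F1_zero (g : ℝ → ℂ) : F1 0 g = ((2 * Real.pi)⁻¹ : ℝ) * ∫ θ in (-Real.pi)..Real.pi, g θ := by
  rw [F1]
  simp [ci_zero]

theorem F1_re {g : ℝ → ℂ} (hg : Continuous g) :
    (F1 0 g).re = (2 * Real.pi)⁻¹ * ∫ θ in (-Real.pi)..Real.pi, (g θ).re := by
  have h1 := Complex.reCLM.intervalIntegral_comp_comm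
    (hg.intervalIntegrable (-Real.pi) Real.pi) (μ := volume)
  simp only [Complex.reCLM_apply] at h1
  rw [F1_zero, Complex.re_ofReal_mul, h1]

theorem F1_im {g : ℝ → ℂ} (hg : Continuous g) :
    (F1 0 g).im = (2 * Real.pi)⁻¹ * ∫ θ in (-Real.pi)..Real.pi, (g θ).im := by
  have h1 := Complex.imCLM.intervalIntegral_comp_comm
    (hg.intervalIntegrable (-Real.pi) Real.pi) (μ := volume)
  simp only [Complex.imCLM_apply] at h1
  rw [F1_zero, Complex.im_ofReal_mul, h1]

/-- the two-sided bound for the form on a circle -/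
theorem form_bounds {g : ℝ → ℂ} (hg : Continuous g) {α : ℝ} (hα : 1 ≤ α) :
    2 * Real.pi * (QF α 1 (F1 0 g) - QF 1 1 (F1 0 g)) + ∫ θ in (-Real.pi)..Real.pi, QF 1 1 (g θ)
        ≤ ∫ θ in (-Real.pi)..Real.pi, QF α 1 (g θ) ∧
      ∫ θ in (-Real.pi)..Real.pi, QF α 1 (g θ)
        ≤ 2 * Real.pi * (QF α 1 (F1 0 g) - α * QF 1 1 (F1 0 g))
          + α * ∫ θ in (-Real.pi)..Real.pi, QF 1 1 (g θ) := by
  have hr : Continuous fun θ => (g θ).re := Complex.continuous_re.comp hg
  have hi : Continuous fun θ => (g θ).im := Complex.continuous_im.comp hg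
  have hQ : Continuous fun θ => QF 1 1 (g θ) := (QF_cont 1 1).comp hg
  have s1 := sq_mean' hr
  have s2 := sq_mean' hi
  rw [← F1_re hg] at s1
  rw [← F1_im hg] at s2
  have i0 : IntervalIntegrable (fun θ => QF 1 1 (g θ)) volume (-Real.pi) Real.pi :=
    hQ.intervalIntegrable _ _
  have i0' : IntervalIntegrable (fun θ => α * QF 1 1 (g θ)) volume (-Real.pi) Real.pi :=
    (continuous_const.mul hQ).intervalIntegrable _ _
  have i1 : IntervalIntegrable (fun θ => (α - 1) * (g θ).re ^ 2) volume (-Real.pi) Real.pi :=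
    (continuous_const.mul (hr.pow 2)).intervalIntegrable _ _
  have i2 : IntervalIntegrable (fun θ => (α - 1) * (g θ).im ^ 2) volume (-Real.pi) Real.pi :=
    (continuous_const.mul (hi.pow 2)).intervalIntegrable _ _
  have e1 : ∀ θ, QF α 1 (g θ) = QF 1 1 (g θ) + (α - 1) * (g θ).re ^ 2 := fun θ => by
    unfold QF; ring
  have e2 : ∀ θ, QF α 1 (g θ) = α * QF 1 1 (g θ) - (α - 1) * (g θ).im ^ 2 := fun θ => by
    unfold QF; ring
  have hα0 : 0 ≤ α - 1 := by linarith
  constructor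
  · have h1 : ∫ θ in (-Real.pi)..Real.pi, QF α 1 (g θ)
        = (∫ θ in (-Real.pi)..Real.pi, QF 1 1 (g θ))
          + (α - 1) * ∫ θ in (-Real.pi)..Real.pi, (g θ).re ^ 2 := by
      simp_rw [e1]
      rw [intervalIntegral.integral_add i0 i1, intervalIntegral.integral_const_mul]
    rw [h1]
    have h2 := mul_le_mul_of_nonneg_left s1 hα0
    have h3 : QF α 1 (F1 0 g) - QF 1 1 (F1 0 g) = (α - 1) * (F1 0 g).re ^ 2 := by unfold QF; ring
    rw [h3]
    linarith
  · have h1 : ∫ θ in (-Real.pi)..Real.pi, QF α 1 (g θ)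
        = α * (∫ θ in (-Real.pi)..Real.pi, QF 1 1 (g θ))
          - (α - 1) * ∫ θ in (-Real.pi)..Real.pi, (g θ).im ^ 2 := by
      simp_rw [e2]
      rw [intervalIntegral.integral_sub i0' i2, intervalIntegral.integral_const_mul,
        intervalIntegral.integral_const_mul]
    rw [h1]
    have h2 := mul_le_mul_of_nonneg_left s2 hα0
    have h3 : QF α 1 (F1 0 g) - α * QF 1 1 (F1 0 g) = -((α - 1) * (F1 0 g).im ^ 2) := by
      unfold QF; ring
    rw [h3]
    linarith

/-- Parseval's identity after integration in `t` -/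
theorem pars_t {A B : ℝ} (hAB : A < B) {V : ℝ → ℝ → ℂ} (hV : Continuous (Function.uncurry V))
    (hV0 : ∀ t, t ∉ Icc A B → ∀ θ, V t θ = 0) {w : ℤ → ℝ → ℂ} (hw : ∀ m, SC A B (w m))
    (hc : ∀ m t, F1 m (V t) = w m t) :
    HasSum (fun m : ℤ => NQ 1 1 (w m))
      ((2 * Real.pi)⁻¹ * ∫ t in A..B, ∫ θ in (-Real.pi)..Real.pi, QF 1 1 (V t θ)) := by
  have hVt : ∀ t, Continuous (V t) := fun t => hV.comp (continuous_const.prodMk continuous_id)
  have hp : ∀ t, HasSum (fun m : ℤ => QF 1 1 (w m t))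
      ((2 * Real.pi)⁻¹ * ∫ θ in (-Real.pi)..Real.pi, QF 1 1 (V t θ)) := fun t => by
    have := pars (hVt t)
    simp_rw [hc] at this
    exact this
  have hQ0 : ∀ w : ℂ, 0 ≤ QF 1 1 w := fun w => by unfold QF; positivity
  have hD : Continuous fun t => ∫ θ in (-Real.pi)..Real.pi, QF 1 1 (V t θ) :=
    intervalIntegral.continuous_parametric_intervalIntegral_of_continuous'
      (f := fun t θ => QF 1 1 (V t θ)) ((QF_cont 1 1).comp hV) _ _
  have hDi : Integrable fun t => (2 * Real.pi)⁻¹ * ∫ θ in (-Real.pi)..Real.pi, QF 1 1 (V t θ) := by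
    apply Continuous.integrable_of_hasCompactSupport
    · exact continuous_const.mul hD
    · refine HasCompactSupport.intro isCompact_Icc (K := Icc A B) fun t ht => ?_
      have : ∀ θ, QF 1 1 (V t θ) = 0 := fun θ => by rw [hV0 t ht θ, QF_zero]
      simp [this]
  have hnorm : ∀ m, ∫ t, ‖QF 1 1 (w m t)‖ = NQ 1 1 (w m) := fun m => by
    unfold NQ
    exact integral_congr_ae (Filter.Eventually.of_forall fun t => by
      show ‖QF 1 1 (w m t)‖ = _
      rw [Real.norm_of_nonneg (hQ0 _)])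
  have hsum : Summable fun m : ℤ => ∫ t, ‖QF 1 1 (w m t)‖ := by
    simp_rw [hnorm]
    refine summable_of_sum_le (c := ∫ t, (2 * Real.pi)⁻¹
      * ∫ θ in (-Real.pi)..Real.pi, QF 1 1 (V t θ)) (fun m => NQ_nonneg zero_le_one zero_le_one _)
      fun u => ?_
    unfold NQ
    rw [← integral_finset_sum u fun m _ => QF_int (hw m) 1 1]
    apply integral_mono (integrable_finset_sum u fun m _ => QF_int (hw m) 1 1) hDi
    intro t
    exact sum_le_hasSum u (fun m _ => hQ0 _) (hp t)
  have h := hasSum_integral_of_summable_integral_norm (fun m => QF_int (hw m) 1 1) hsum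
  have e : ∫ t, ∑' m : ℤ, QF 1 1 (w m t)
      = (2 * Real.pi)⁻¹ * ∫ t in A..B, ∫ θ in (-Real.pi)..Real.pi, QF 1 1 (V t θ) := by
    have e1 : ∀ t, ∑' m : ℤ, QF 1 1 (w m t)
        = (2 * Real.pi)⁻¹ * ∫ θ in (-Real.pi)..Real.pi, QF 1 1 (V t θ) := fun t => (hp t).tsum_eq
    simp_rw [e1]
    rw [integral_const_mul]
    congr 1
    rw [intervalIntegral.integral_of_le hAB.le, ← integral_Icc_eq_integral_Ioc, int_Icc]
    intro t ht
    have : ∀ θ, QF 1 1 (V t θ) = 0 := fun θ => by rw [hV0 t ht θ, QF_zero]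
    simp [this]
  rw [e] at h
  exact h

end Pool.Agent.D0H14.SV
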