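import Mathlib
import Pool.Agent.D0H14.SV.Pars
import Pool.Agent.D0H14.SV.Main

/-! The functional along `u₀ + ε v` for an arbitrary smooth `v`. -/

set_option autoImplicit false

open Set MeasureTheory
open scoped ContDiff

namespace Pool.Agent.D0H14.SV

open Pool.Agent.D0H14.BA

theorem dz_add {f g : ℂ → ℂ} (hf : Sm f) (hg : Sm g) (c : ℂ) {z : ℂ} (hz : z ≠ 0) :
    dz (fun z => f z + c * g z) z = dz f z + c * dz g z ∧
    dzb (fun z => f z + c * g z) z = dzb f z + c * dzb g z := by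
  have h := (hf.diff hz).hasFDerivAt.add ((hg.diff hz).hasFDerivAt.const_mul c)
  have e : fderiv ℝ (fun z => f z + c * g z) z = _ := h.fderiv
  constructor
  · rw [dz, dz, dz, e]
    simp only [ContinuousLinearMap.add_apply, ContinuousLinearMap.smul_apply, smul_eq_mul]
    ring
  · rw [dzb, dzb, dzb, e]
    simp only [ContinuousLinearMap.add_apply, ContinuousLinearMap.smul_apply, smul_eq_mul]
    ring

theorem iter_add {f g : ℂ → ℂ} (hf : Sm f) (hg : Sm g) (c : ℂ) (n : ℕ) :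
    (∀ z, z ≠ 0 → (dz^[n] (fun z => f z + c * g z)) z = (dz^[n] f) z + c * (dz^[n] g) z) ∧
    (∀ z, z ≠ 0 → (dzb^[n] (fun z => f z + c * g z)) z = (dzb^[n] f) z + c * (dzb^[n] g) z) := by
  induction n with
  | zero => exact ⟨fun z _ => rfl, fun z _ => rfl⟩
  | succ n ih =>
    refine ⟨fun z hz => ?_, fun z hz => ?_⟩
    · rw [Function.iterate_succ_apply', Function.iterate_succ_apply',
        Function.iterate_succ_apply', congr_dz ih.1 hz]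
      exact (dz_add (hf.dz_iter n) (hg.dz_iter n) c hz).1
    · rw [Function.iterate_succ_apply', Function.iterate_succ_apply',
        Function.iterate_succ_apply', congr_dzb ih.2 hz]
      exact (dz_add (hf.dzb_iter n) (hg.dzb_iter n) c hz).2

theorem u0_Sm (n : ℕ) (p : ℝ) : Sm (u0 n p) := by
  intro z hz
  apply ContDiffAt.contDiffWithinAt
  have h1 : ContDiffAt ℝ ∞ (fun z : ℂ => ‖z‖) z := contDiffAt_norm ℝ hz
  have h2 : ContDiffAt ℝ ∞ (fun z : ℂ => ‖z‖ ^ (-(2 / p))) z :=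
    h1.rpow_const_of_ne (by simpa using hz)
  unfold u0
  exact (contDiff_id.pow n).contDiffAt.mul (Complex.ofRealCLM.contDiff.contDiffAt.comp z h2)

/-- values at the extremal -/
theorem dz_u0 (n : ℕ) {p : ℝ} (hp : 2 < p) (t θ : ℝ) :
    (dz^[n] (u0 n p)) (PO t θ) = ((Real.exp (-(2 / p) * t) : ℝ) : ℂ) * (RF n (1 - 1 / p) : ℝ) := by
  have e : (fun z => u0 n p z + ((0 : ℝ) : ℂ) * pert n p ∅ (fun _ _ => 0) z) = u0 n p := by
    funext z
    simp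
  have f1 := form_dz n hp 0 ∅ (ψ := fun _ _ => 0) (fun _ => contDiff_const) t θ
  rw [e] at f1
  rw [PO, f1]
  simp

theorem dzb_u0 (n : ℕ) {p : ℝ} (hp : 2 < p) (t θ : ℝ) :
    (dzb^[n] (u0 n p)) (PO t θ) = ((-1) ^ n * ci ((2 * n : ℤ) * θ))
      * ((Real.exp (-(2 / p) * t) : ℝ) : ℂ) * (RF n (1 / p) : ℝ) := by
  have e : (fun z => u0 n p z + ((0 : ℝ) : ℂ) * pert n p ∅ (fun _ _ => 0) z) = u0 n p := by
    funext z
    simp
  have f1 := form_dzb n hp 0 ∅ (ψ := fun _ _ => 0) (fun _ => contDiff_const) t θ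
  rw [e] at f1
  rw [PO, f1]
  simp

/-- the normalized `∂̄ ^ n v` -/
noncomputable def WP (n : ℕ) (p : ℝ) (v : ℂ → ℂ) (t θ : ℝ) : ℂ :=
  ((-1) ^ n * ci (-(2 * n : ℤ) * θ)) * ((Real.exp (2 / p * t) : ℝ) : ℂ) * ((RF n (1 / p))⁻¹ : ℝ)
    * (dzb^[n] v) (PO t θ)

/-- the normalized `∂ ^ n v` -/
noncomputable def WM (n : ℕ) (p : ℝ) (v : ℂ → ℂ) (t θ : ℝ) : ℂ :=
  ((Real.exp (2 / p * t) : ℝ) : ℂ) * ((RF n (1 - 1 / p))⁻¹ : ℝ) * (dz^[n] v) (PO t θ)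

theorem exp_cancel (c t : ℝ) : ((Real.exp (-c * t) : ℝ) : ℂ) * ((Real.exp (c * t) : ℝ) : ℂ) = 1 := by
  rw [← Complex.ofReal_mul, ← Real.exp_add]
  have : -c * t + c * t = 0 := by ring
  rw [this, Real.exp_zero, Complex.ofReal_one]

theorem gen_dz (n : ℕ) {p : ℝ} (hp : 2 < p) {v : ℂ → ℂ} (hv : Sm v) (ε t θ : ℝ) :
    (dz^[n] (fun z => u0 n p z + (ε : ℂ) * v z)) (PO t θ)
      = ((Real.exp (-(2 / p) * t) : ℝ) : ℂ) * (RF n (1 - 1 / p) : ℝ)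
        * (1 + (ε : ℂ) * WM n p v t θ) := by
  have hs2 : 1 / p < 1 / 2 := one_div_lt_one_div_of_lt (by norm_num) hp
  have hY := RF_pos n (show 0 < 1 - 1 / p by linarith)
  have h1 : ((RF n (1 - 1 / p) : ℝ) : ℂ) * (((RF n (1 - 1 / p))⁻¹ : ℝ) : ℂ) = 1 := by
    rw [← Complex.ofReal_mul, mul_inv_cancel₀ hY.ne', Complex.ofReal_one]
  have h2 := exp_cancel (2 / p) t
  rw [(iter_add (u0_Sm n p) hv ε n).1 _ (PO_ne t θ), dz_u0 n hp, WM]
  linear_combination (-(ε : ℂ) * (dz^[n] v) (PO t θ)) * h1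
    + (-(ε : ℂ) * (dz^[n] v) (PO t θ) * ((RF n (1 - 1 / p) : ℝ) : ℂ)
      * (((RF n (1 - 1 / p))⁻¹ : ℝ) : ℂ)) * h2

theorem gen_dzb (n : ℕ) {p : ℝ} (hp : 2 < p) {v : ℂ → ℂ} (hv : Sm v) (ε t θ : ℝ) :
    (dzb^[n] (fun z => u0 n p z + (ε : ℂ) * v z)) (PO t θ)
      = ((-1) ^ n * ci ((2 * n : ℤ) * θ)) * ((Real.exp (-(2 / p) * t) : ℝ) : ℂ)
        * (RF n (1 / p) : ℝ) * (1 + (ε : ℂ) * WP n p v t θ) := by
  have hp0 : 0 < p := by linarith
  have hX := RF_pos n (show 0 < 1 / p by positivity)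
  have h1 : ((RF n (1 / p) : ℝ) : ℂ) * (((RF n (1 / p))⁻¹ : ℝ) : ℂ) = 1 := by
    rw [← Complex.ofReal_mul, mul_inv_cancel₀ hX.ne', Complex.ofReal_one]
  have h2 := exp_cancel (2 / p) t
  have h3 : ci (((2 * n : ℤ) : ℝ) * θ) * ci (-((2 * n : ℤ) : ℝ) * θ) = 1 := by
    rw [← ci_add]
    have : ((2 * n : ℤ) : ℝ) * θ + -((2 * n : ℤ) : ℝ) * θ = 0 := by ring
    rw [this, ci_zero]
  have h4 : ((-1 : ℂ)) ^ n * (-1) ^ n = 1 := by rw [← mul_pow]; norm_num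
  rw [(iter_add (u0_Sm n p) hv ε n).2 _ (PO_ne t θ), dzb_u0 n hp, WP]
  obtain ⟨D, hD⟩ : ∃ D, D = (dzb^[n] v) (PO t θ) := ⟨_, rfl⟩
  rw [← hD]
  have h5 : ((-1) ^ n * ci ((2 * n : ℤ) * θ)) * ((Real.exp (-(2 / p) * t) : ℝ) : ℂ)
      * (RF n (1 / p) : ℝ) * (((-1) ^ n * ci (-(2 * n : ℤ) * θ))
      * ((Real.exp (2 / p * t) : ℝ) : ℂ) * ((RF n (1 / p))⁻¹ : ℝ)) = 1 := by
    calc _ = (((-1 : ℂ)) ^ n * (-1) ^ n) * (ci (((2 * n : ℤ) : ℝ) * θ) * ci (-((2 * n : ℤ) : ℝ) * θ))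
          * (((Real.exp (-(2 / p) * t) : ℝ) : ℂ) * ((Real.exp (2 / p * t) : ℝ) : ℂ))
          * (((RF n (1 / p) : ℝ) : ℂ) * (((RF n (1 / p))⁻¹ : ℝ) : ℂ)) := by ring
      _ = 1 := by rw [h1, h2, h3, h4]; ring
  linear_combination (-(ε : ℂ) * D) * h5

theorem WP_cont (n : ℕ) (p : ℝ) {v : ℂ → ℂ} (hv : Sm v) :
    Continuous (Function.uncurry (WP n p v)) := by
  have h1 : Continuous fun x : ℝ × ℝ => ((Real.exp (2 / p * x.1) : ℝ) : ℂ) :=
    Complex.continuous_ofReal.comp (Real.continuous_exp.comp (continuous_const.mul continuous_fst))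
  exact (((continuous_const.mul ((ci_cont _).comp continuous_snd)).mul h1).mul
    continuous_const).mul (hv.dzb_iter n).comp_cont

theorem WM_cont (n : ℕ) (p : ℝ) {v : ℂ → ℂ} (hv : Sm v) :
    Continuous (Function.uncurry (WM n p v)) := by
  have h1 : Continuous fun x : ℝ × ℝ => ((Real.exp (2 / p * x.1) : ℝ) : ℂ) :=
    Complex.continuous_ofReal.comp (Real.continuous_exp.comp (continuous_const.mul continuous_fst))
  exact (h1.mul continuous_const).mul (hv.dz_iter n).comp_cont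

/-- the profile of the mode `m` of `v / u₀` -/
noncomputable def psi (n : ℕ) (p : ℝ) (v : ℂ → ℂ) (m : ℤ) (t : ℝ) : ℂ :=
  ((Real.exp ((2 * (1 / p) + m) * t) : ℝ) : ℂ) * HC (n + m) v t

theorem psi_smooth (n : ℕ) (p : ℝ) {v : ℂ → ℂ} (hv : Sm v) (m : ℤ) :
    ContDiff ℝ ∞ (psi n p v m) := (exp_smooth _).mul (HC_smooth _ hv)

theorem HC_psi (n : ℕ) (p : ℝ) (v : ℂ → ℂ) (m : ℤ) :
    HC (n + m) v = fun t => ((Real.exp (-(2 * (1 / p) + m) * t) : ℝ) : ℂ) * psi n p v m t := by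
  funext t
  rw [psi, ← mul_assoc, exp_cancel, one_mul]

theorem FC_HC (k : ℤ) (f : ℂ → ℂ) (t : ℝ) : FC k f t = ((Real.exp (k * t) : ℝ) : ℂ) * HC k f t := by
  rw [HC, ← mul_assoc, mul_comm ((Real.exp (k * t) : ℝ) : ℂ), exp_cancel, one_mul]

theorem coef_WP (n : ℕ) {p : ℝ} (hp : 2 < p) {v : ℂ → ℂ} (hv : Sm v) (m : ℤ) (t : ℝ) :
    F1 m (WP n p v t) = wP n (1 / p) m (psi n p v m) t := by
  have h1 : F1 m (WP n p v t) = (-1) ^ n * ((Real.exp (2 / p * t) : ℝ) : ℂ)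
      * ((RF n (1 / p))⁻¹ : ℝ) * FC (n + m + n) (dzb^[n] v) t := by
    rw [FC, F1, F1]
    have e : ∀ θ : ℝ, WP n p v t θ * ci (-m * θ) = ((-1) ^ n * ((Real.exp (2 / p * t) : ℝ) : ℂ)
        * ((RF n (1 / p))⁻¹ : ℝ)) * ((dzb^[n] v) (PO t θ) * ci (-(n + m + n : ℤ) * θ)) := by
      intro θ
      have e2 : ci (-((n + m + n : ℤ) : ℝ) * θ) = ci (-((2 * n : ℤ) : ℝ) * θ) * ci (-m * θ) := by
        rw [← ci_add]
        congr 1
        push_cast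
        ring
      rw [WP, e2]
      ring
    simp_rw [e]
    rw [intervalIntegral.integral_const_mul]
    ring
  rw [h1, FC_HC, HC_dzb_iter _ hv, HC_psi n p v m, BZ_exp _ (psi_smooth n p hv m), wP]
  have e3 : (fun l : ℕ => (2 * (1 / p) + (m : ℝ)) / 2 + (l : ℝ)) = fun l : ℕ => 1 / p + m / 2 + l := by
    funext l
    ring
  rw [e3]
  obtain ⟨D, hD⟩ : ∃ D, D = Dn (-1) (fun l : ℕ => 1 / p + (m : ℝ) / 2 + l) n (psi n p v m) t :=
    ⟨_, rfl⟩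
  beta_reduce
  rw [← hD]
  have e4 : ((Real.exp (2 / p * t) : ℝ) : ℂ) * ((Real.exp ((n + m + n : ℤ) * t) : ℝ) : ℂ)
      * ((Real.exp (-(2 * (1 / p) + (m : ℝ) + 2 * n) * t) : ℝ) : ℂ) = 1 := by
    rw [← Complex.ofReal_mul, ← Complex.ofReal_mul, ← Real.exp_add, ← Real.exp_add]
    have : 2 / p * t + ((n + m + n : ℤ) : ℝ) * t + -(2 * (1 / p) + (m : ℝ) + 2 * n) * t = 0 := by
      push_cast
      ring
    rw [this, Real.exp_zero, Complex.ofReal_one]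
  have h4 : ((-1 : ℂ)) ^ n * (-1) ^ n = 1 := by rw [← mul_pow]; norm_num
  linear_combination ((-1) ^ n * (-1) ^ n * (((RF n (1 / p))⁻¹ : ℝ) : ℂ) * D) * e4
    + ((((RF n (1 / p))⁻¹ : ℝ) : ℂ) * D) * h4

theorem coef_WM (n : ℕ) {p : ℝ} (hp : 2 < p) {v : ℂ → ℂ} (hv : Sm v) (m : ℤ) (t : ℝ) :
    F1 m (WM n p v t) = wM n (1 / p) m (psi n p v m) t := by
  have h1 : F1 m (WM n p v t) = ((Real.exp (2 / p * t) : ℝ) : ℂ)
      * ((RF n (1 - 1 / p))⁻¹ : ℝ) * FC (n + m - n) (dz^[n] v) t := by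
    rw [FC, F1, F1]
    have e : ∀ θ : ℝ, WM n p v t θ * ci (-m * θ) = (((Real.exp (2 / p * t) : ℝ) : ℂ)
        * ((RF n (1 - 1 / p))⁻¹ : ℝ)) * ((dz^[n] v) (PO t θ) * ci (-(n + m - n : ℤ) * θ)) := by
      intro θ
      rw [WM, add_sub_cancel_left]
      ring
    simp_rw [e]
    rw [intervalIntegral.integral_const_mul]
    ring
  rw [h1, FC_HC, HC_dz_iter _ hv, HC_psi n p v m, AZ_exp _ _ (psi_smooth n p hv m), wM]
  have e3 : (fun l : ℕ => ((n + m : ℤ) : ℝ) - l + -(2 * (1 / p) + (m : ℝ)) / 2)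
      = fun l : ℕ => (n : ℝ) - l - 1 / p + m / 2 := by
    funext l
    push_cast
    ring
  rw [e3]
  obtain ⟨D, hD⟩ : ∃ D, D = Dn 1 (fun l : ℕ => (n : ℝ) - l - 1 / p + (m : ℝ) / 2) n
    (psi n p v m) t := ⟨_, rfl⟩
  beta_reduce
  rw [← hD]
  have e4 : ((Real.exp (2 / p * t) : ℝ) : ℂ) * ((Real.exp ((n + m - n : ℤ) * t) : ℝ) : ℂ)
      * ((Real.exp (-(2 * (1 / p) + (m : ℝ)) * t) : ℝ) : ℂ) = 1 := by
    rw [← Complex.ofReal_mul, ← Complex.ofReal_mul, ← Real.exp_add, ← Real.exp_add]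
    have : 2 / p * t + ((n + m - n : ℤ) : ℝ) * t + -(2 * (1 / p) + (m : ℝ)) * t = 0 := by
      push_cast
      ring
    rw [this, Real.exp_zero, Complex.ofReal_one]
  linear_combination ((((RF n (1 - 1 / p))⁻¹ : ℝ) : ℂ) * D) * e4

/-- vanishing outside an annulus -/
def Van (A B : ℝ) (f : ℂ → ℂ) : Prop := ∀ z, z ≠ 0 → Real.log ‖z‖ ∉ Icc A B → f z = 0

theorem Van.nhds {A B : ℝ} {f : ℂ → ℂ} (hf : Van A B f) {z : ℂ} (hz : z ≠ 0)
    (h : Real.log ‖z‖ ∉ Icc A B) : f =ᶠ[nhds z] fun _ => 0 := by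
  have hc : ContinuousAt (fun z : ℂ => Real.log ‖z‖) z :=
    (continuous_norm.continuousAt).log (by simpa using hz)
  filter_upwards [nhds_ne hz, hc.preimage_mem_nhds (isClosed_Icc.isOpen_compl.mem_nhds h)]
    with x hx hx2
  exact hf x hx hx2

theorem Van.dz {A B : ℝ} {f : ℂ → ℂ} (hf : Van A B f) : Van A B (dz f) := by
  intro z hz h
  rw [BA.dz, (hf.nhds hz h).fderiv_eq]
  simp

theorem Van.dzb {A B : ℝ} {f : ℂ → ℂ} (hf : Van A B f) : Van A B (dzb f) := by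
  intro z hz h
  rw [BA.dzb, (hf.nhds hz h).fderiv_eq]
  simp

theorem Van.dz_iter {A B : ℝ} {f : ℂ → ℂ} (hf : Van A B f) (n : ℕ) : Van A B (BA.dz^[n] f) := by
  induction n with
  | zero => exact hf
  | succ n ih => rw [Function.iterate_succ_apply']; exact ih.dz

theorem Van.dzb_iter {A B : ℝ} {f : ℂ → ℂ} (hf : Van A B f) (n : ℕ) : Van A B (BA.dzb^[n] f) := by
  induction n with
  | zero => exact hf
  | succ n ih => rw [Function.iterate_succ_apply']; exact ih.dzb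

theorem Van.PO {A B : ℝ} {f : ℂ → ℂ} (hf : Van A B f) {t : ℝ} (ht : t ∉ Icc A B) (θ : ℝ) :
    f (PO t θ) = 0 := hf _ (PO_ne t θ) (by rw [SV.PO, polar_log]; exact ht)

theorem psi_SC (n : ℕ) (p : ℝ) {A B : ℝ} {v : ℂ → ℂ} (hv : Sm v) (hV : Van A B v) (m : ℤ) :
    SC A B (psi n p v m) := by
  refine ⟨psi_smooth n p hv m, fun t ht => ?_⟩
  have h : ∀ θ, v (PO t θ) = 0 := hV.PO ht
  rw [psi, HC, FC, F1]
  simp [h]

theorem WP_van (n : ℕ) (p : ℝ) {A B : ℝ} {v : ℂ → ℂ} (hV : Van A B v) (t : ℝ) (ht : t ∉ Icc A B)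
    (θ : ℝ) : WP n p v t θ = 0 := by
  rw [WP, (hV.dzb_iter n).PO ht, mul_zero]

theorem WM_van (n : ℕ) (p : ℝ) {A B : ℝ} {v : ℂ → ℂ} (hV : Van A B v) (t : ℝ) (ht : t ∉ Icc A B)
    (θ : ℝ) : WM n p v t θ = 0 := by
  rw [WM, (hV.dz_iter n).PO ht, mul_zero]

/-- a nonzero function has a nonzero mode -/
theorem psi_ne (n : ℕ) (p : ℝ) {v : ℂ → ℂ} (hv : Sm v) (hne : ∃ z, z ≠ 0 ∧ v z ≠ 0) :
    ∃ m : ℤ, ∃ t, psi n p v m t ≠ 0 := by
  by_contra hcon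
  push Not at hcon
  obtain ⟨z, hz, hvz⟩ := hne
  have hn : 0 < ‖z‖ := norm_pos_iff.mpr hz
  have hpi := Real.pi_pos
  have hzp : z = PO (Real.log ‖z‖) (Complex.arg z) := by
    rw [PO, Real.exp_log hn, ci]
    exact (Complex.norm_mul_exp_arg_mul_I z).symm
  obtain ⟨t, ht⟩ : ∃ t, t = Real.log ‖z‖ := ⟨_, rfl⟩
  rw [← ht] at hzp
  have hF : ∀ k : ℤ, F1 k (fun θ => v (PO t θ)) = 0 := by
    intro k
    have h1 := hcon (k - n) t
    rw [psi] at h1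
    have h2 : HC (n + (k - n)) v t = 0 := by
      rcases mul_eq_zero.mp h1 with h | h
      · exact absurd h (by exact_mod_cast (Real.exp_pos _).ne')
      · exact h
    have e : (n : ℤ) + (k - n) = k := by ring
    rw [e, HC] at h2
    rcases mul_eq_zero.mp h2 with h | h
    · exact absurd h (by exact_mod_cast (Real.exp_pos _).ne')
    · exact h
  have hp := pars (hv.comp_θ t)
  simp_rw [hF, QF_zero] at hp
  have h0 := hp.unique hasSum_zero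
  have hpos : 0 < ∫ θ in (-Real.pi)..Real.pi, QF 1 1 (v (PO t θ)) := by
    apply intervalIntegral.integral_pos (by linarith)
      (((QF_cont 1 1).comp (hv.comp_θ t)).continuousOn)
    · intro θ _
      show 0 ≤ QF 1 1 (v (PO t θ))
      unfold QF
      positivity
    · refine ⟨Complex.arg z, ⟨(Complex.neg_pi_lt_arg z).le, Complex.arg_le_pi z⟩, ?_⟩
      show 0 < QF 1 1 (v (PO t (Complex.arg z)))
      rw [← hzp, QF11]
      have := norm_pos_iff.mpr hvz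
      positivity
  have : 0 < (2 * Real.pi)⁻¹ * ∫ θ in (-Real.pi)..Real.pi, QF 1 1 (v (PO t θ)) := by positivity
  linarith

end Pool.Agent.D0H14.SV
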