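import Mathlib
import Pool.Agent.D0H14.SV.GenA

/-! The second variation is positive in every smooth compactly supported direction. -/

set_option autoImplicit false

open Set MeasureTheory
open scoped ContDiff

namespace Pool.Agent.D0H14.SV

open Pool.Agent.D0H14.BA

/-- the bound on each circle -/
theorem circle_gen {f g : ℝ → ℂ} (hf : Continuous f) (hg : Continuous g) {p : ℝ} (hp : 2 < p)
    {ε δ : ℝ}
    (h1 : ∀ θ ∈ Icc (-Real.pi) Real.pi, |‖1 + (ε : ℂ) * f θ‖ ^ p - (1 + p * ε * (f θ).re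
      + ε ^ 2 * (p / 2 * QF (p - 1) 1 (f θ)))| ≤ δ * ε ^ 2)
    (h2 : ∀ θ ∈ Icc (-Real.pi) Real.pi, |‖1 + (ε : ℂ) * g θ‖ ^ p - (1 + p * ε * (g θ).re
      + ε ^ 2 * (p / 2 * QF (p - 1) 1 (g θ)))| ≤ δ * ε ^ 2) :
    2 * Real.pi * p * ε * ((F1 0 f).re - (F1 0 g).re)
      + ε ^ 2 * (p / 2) * (2 * Real.pi * ((QF (p - 1) 1 (F1 0 f) - QF 1 1 (F1 0 f))
          - (QF (p - 1) 1 (F1 0 g) - (p - 1) * QF 1 1 (F1 0 g)))
        + ((∫ θ in (-Real.pi)..Real.pi, QF 1 1 (f θ))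
          - (p - 1) * ∫ θ in (-Real.pi)..Real.pi, QF 1 1 (g θ))) - 4 * Real.pi * δ * ε ^ 2
      ≤ (∫ θ in (-Real.pi)..Real.pi, ‖1 + (ε : ℂ) * f θ‖ ^ p)
        - ∫ θ in (-Real.pi)..Real.pi, ‖1 + (ε : ℂ) * g θ‖ ^ p := by
  have hpi := Real.pi_pos
  have hF : ∀ {c : ℝ → ℂ}, Continuous c → Continuous fun θ => ‖1 + (ε : ℂ) * c θ‖ ^ p := fun hc =>
    ((continuous_const.add (continuous_const.mul hc)).norm).rpow_const
      fun x => Or.inr (by linarith)
  have hre : ∀ {c : ℝ → ℂ}, Continuous c → Continuous fun θ => (c θ).re := fun hc =>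
    Complex.continuous_re.comp hc
  have hQ : ∀ {c : ℝ → ℂ}, Continuous c → Continuous fun θ => QF (p - 1) 1 (c θ) := fun hc =>
    (QF_cont _ _).comp hc
  have e1 : ∀ {c : ℝ → ℂ}, Continuous c → ∫ θ in (-Real.pi)..Real.pi, (1 + p * ε * (c θ).re
      + ε ^ 2 * (p / 2 * QF (p - 1) 1 (c θ)))
      = 2 * Real.pi + p * ε * (2 * Real.pi * (F1 0 c).re)
        + ε ^ 2 * (p / 2 * ∫ θ in (-Real.pi)..Real.pi, QF (p - 1) 1 (c θ)) := by
    intro c hc
    have i1 : IntervalIntegrable (fun _ : ℝ => (1 : ℝ)) volume (-Real.pi) Real.pi :=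
      continuous_const.intervalIntegrable _ _
    have i2 : IntervalIntegrable (fun θ => p * ε * (c θ).re) volume (-Real.pi) Real.pi :=
      (continuous_const.mul (hre hc)).intervalIntegrable _ _
    have i3 : IntervalIntegrable (fun θ => ε ^ 2 * (p / 2 * QF (p - 1) 1 (c θ))) volume
        (-Real.pi) Real.pi :=
      (continuous_const.mul (continuous_const.mul (hQ hc))).intervalIntegrable _ _
    rw [intervalIntegral.integral_add (i1.add i2) i3, intervalIntegral.integral_add i1 i2,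
      intervalIntegral.integral_const_mul, intervalIntegral.integral_const_mul,
      intervalIntegral.integral_const_mul, intervalIntegral.integral_const,
      smul_eq_mul, F1_re hc]
    field_simp
    ring
  have hlow : 2 * Real.pi + p * ε * (2 * Real.pi * (F1 0 f).re)
        + ε ^ 2 * (p / 2 * ∫ θ in (-Real.pi)..Real.pi, QF (p - 1) 1 (f θ))
        - δ * ε ^ 2 * (2 * Real.pi) ≤ ∫ θ in (-Real.pi)..Real.pi, ‖1 + (ε : ℂ) * f θ‖ ^ p := by
    rw [← e1 hf]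
    have i1 : IntervalIntegrable (fun θ => 1 + p * ε * (f θ).re
        + ε ^ 2 * (p / 2 * QF (p - 1) 1 (f θ))) volume (-Real.pi) Real.pi :=
      ((continuous_const.add (continuous_const.mul (hre hf))).add
        (continuous_const.mul (continuous_const.mul (hQ hf)))).intervalIntegrable _ _
    have i2 : IntervalIntegrable (fun _ : ℝ => δ * ε ^ 2) volume (-Real.pi) Real.pi :=
      continuous_const.intervalIntegrable _ _
    have e2 : δ * ε ^ 2 * (2 * Real.pi) = ∫ θ in (-Real.pi)..Real.pi, δ * ε ^ 2 := by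
      rw [intervalIntegral.integral_const, smul_eq_mul]
      ring
    rw [e2, ← intervalIntegral.integral_sub i1 i2]
    apply intervalIntegral.integral_mono_on (by linarith) (i1.sub i2)
      ((hF hf).intervalIntegrable _ _)
    intro θ hθ
    have := (abs_le.mp (h1 θ hθ)).1
    linarith
  have hup : ∫ θ in (-Real.pi)..Real.pi, ‖1 + (ε : ℂ) * g θ‖ ^ p
      ≤ 2 * Real.pi + p * ε * (2 * Real.pi * (F1 0 g).re)
        + ε ^ 2 * (p / 2 * ∫ θ in (-Real.pi)..Real.pi, QF (p - 1) 1 (g θ))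
        + δ * ε ^ 2 * (2 * Real.pi) := by
    rw [← e1 hg]
    have i1 : IntervalIntegrable (fun θ => 1 + p * ε * (g θ).re
        + ε ^ 2 * (p / 2 * QF (p - 1) 1 (g θ))) volume (-Real.pi) Real.pi :=
      ((continuous_const.add (continuous_const.mul (hre hg))).add
        (continuous_const.mul (continuous_const.mul (hQ hg)))).intervalIntegrable _ _
    have i2 : IntervalIntegrable (fun _ : ℝ => δ * ε ^ 2) volume (-Real.pi) Real.pi :=
      continuous_const.intervalIntegrable _ _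
    have e2 : δ * ε ^ 2 * (2 * Real.pi) = ∫ θ in (-Real.pi)..Real.pi, δ * ε ^ 2 := by
      rw [intervalIntegral.integral_const, smul_eq_mul]
      ring
    rw [e2, ← intervalIntegral.integral_add i1 i2]
    apply intervalIntegral.integral_mono_on (by linarith) ((hF hg).intervalIntegrable _ _)
      (i1.add i2)
    intro θ hθ
    have := (abs_le.mp (h2 θ hθ)).2
    linarith
  have b1 := (form_bounds hf (α := p - 1) (by linarith)).1
  have b2 := (form_bounds hg (α := p - 1) (by linarith)).2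
  have b3 : 2 * Real.pi * ((QF (p - 1) 1 (F1 0 f) - QF 1 1 (F1 0 f))
          - (QF (p - 1) 1 (F1 0 g) - (p - 1) * QF 1 1 (F1 0 g)))
        + ((∫ θ in (-Real.pi)..Real.pi, QF 1 1 (f θ))
          - (p - 1) * ∫ θ in (-Real.pi)..Real.pi, QF 1 1 (g θ))
      ≤ (∫ θ in (-Real.pi)..Real.pi, QF (p - 1) 1 (f θ))
        - ∫ θ in (-Real.pi)..Real.pi, QF (p - 1) 1 (g θ) := by
    linarith
  have b4 := mul_le_mul_of_nonneg_left b3 (show 0 ≤ ε ^ 2 * (p / 2) by positivity)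
  linarith

theorem bound_V {A B : ℝ} {V : ℝ → ℝ → ℂ} (hV : Continuous (Function.uncurry V))
    (hV0 : ∀ t, t ∉ Icc A B → ∀ θ, V t θ = 0) :
    ∃ C : ℝ, 0 ≤ C ∧ ∀ t, ∀ θ ∈ Icc (-Real.pi) Real.pi, ‖V t θ‖ ≤ C := by
  have hK : IsCompact (Icc A B ×ˢ Icc (-Real.pi) Real.pi : Set (ℝ × ℝ)) :=
    isCompact_Icc.prod isCompact_Icc
  obtain ⟨C, hC⟩ := hK.exists_bound_of_continuousOn hV.continuousOn
  refine ⟨max C 0, le_max_right _ _, fun t θ hθ => ?_⟩
  by_cases ht : t ∈ Icc A B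
  · exact (hC (t, θ) ⟨ht, hθ⟩).trans (le_max_left _ _)
  · rw [hV0 t ht θ, norm_zero]
    exact le_max_right _ _

/-- the mode inequalities, summed over all modes -/
theorem G_pos (n : ℕ) (hn : 1 ≤ n) {p : ℝ} (hp : 2 < p) {A B : ℝ} {ψ : ℤ → ℝ → ℂ}
    (hψ : ∀ m, SC A B (ψ m)) (hne : ∃ m : ℤ, ∃ t, ψ m t ≠ 0) {T : ℝ}
    (hT : HasSum (fun m : ℤ => NQ 1 1 (wP n (1 / p) m (ψ m))
      - (p - 1) * NQ 1 1 (wM n (1 / p) m (ψ m))) T) :
    0 < (NQ (p - 1) 1 (wP n (1 / p) 0 (ψ 0)) - NQ 1 1 (wP n (1 / p) 0 (ψ 0)))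
      - (NQ (p - 1) 1 (wM n (1 / p) 0 (ψ 0)) - (p - 1) * NQ 1 1 (wM n (1 / p) 0 (ψ 0))) + T := by
  have hp0 : 0 < p := by linarith
  have hs : 0 < 1 / p := by positivity
  have hs2 : 1 / p < 1 / 2 := one_div_lt_one_div_of_lt (by norm_num) hp
  obtain ⟨m, hm⟩ := hne
  have h1 := GG_pos n hn hs hs2 {0, m} ψ hψ ⟨m, by simp, hm⟩
  rw [GG, lam_eq hp] at h1
  have h2 : ∀ k : ℤ, k ∉ ({0, m} : Finset ℤ) → 0 ≤ NQ 1 1 (wP n (1 / p) k (ψ k))
      - (p - 1) * NQ 1 1 (wM n (1 / p) k (ψ k)) := by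
    intro k hk
    have hk0 : k ≠ 0 := fun h => hk (by simp [h])
    have h3 := mode_ineq (hψ k) n (lam := (1 - 1 / p) / (1 / p)) (α := 1) (β := 1) k hs hs2
      zero_le_one zero_le_one (cmp n hn k hk0 hs hs2)
    have h4 := gain_pos hs hs2 (gain n hn hs hs2)
    have h5 : 0 ≤ NQ 1 1 (deriv^[n] (ψ k)) / 4 ^ n :=
      div_nonneg (NQ_nonneg zero_le_one zero_le_one _) (by positivity)
    have h6 := mul_nonneg h4.le h5
    rw [lam_eq hp] at h3 h6
    linarith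
  have h3 := sum_le_hasSum ({0, m} : Finset ℤ) h2 hT
  rw [← Finset.add_sum_erase _ _ (show (0 : ℤ) ∈ ({0, m} : Finset ℤ) by simp)] at h3
  linarith

/-- the bound after integration in `t` -/
theorem total_abs {p : ℝ} (hp : 2 < p) {A B : ℝ} (hAB : A < B) {V V' : ℝ → ℝ → ℂ}
    (hP : Continuous (Function.uncurry V)) (hM : Continuous (Function.uncurry V'))
    (hP0 : ∀ t, t ∉ Icc A B → ∀ θ, V t θ = 0) (hM0 : ∀ t, t ∉ Icc A B → ∀ θ, V' t θ = 0)
    {w w' : ℤ → ℝ → ℂ} (hwS : ∀ m, SC A B (w m)) (hwS' : ∀ m, SC A B (w' m))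
    (cP : ∀ m t, F1 m (V t) = w m t) (cM : ∀ m t, F1 m (V' t) = w' m t)
    (hfv : ∫ t, w 0 t = ∫ t, w' 0 t)
    (hpos : ∀ T, HasSum (fun m : ℤ => NQ 1 1 (w m) - (p - 1) * NQ 1 1 (w' m)) T →
      0 < (NQ (p - 1) 1 (w 0) - NQ 1 1 (w 0)) - (NQ (p - 1) 1 (w' 0) - (p - 1) * NQ 1 1 (w' 0)) + T) :
    ∃ c : ℝ, 0 < c ∧ ∃ ε₀ : ℝ, 0 < ε₀ ∧ ∀ ε : ℝ, |ε| ≤ ε₀ →
      c * ε ^ 2 ≤ ∫ t in A..B,
        ((∫ θ in (-Real.pi)..Real.pi, ‖1 + (ε : ℂ) * V t θ‖ ^ p)
          - ∫ θ in (-Real.pi)..Real.pi, ‖1 + (ε : ℂ) * V' t θ‖ ^ p) := by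
  have hpi := Real.pi_pos
  have hPt : ∀ t, Continuous (V t) := fun t => hP.comp (continuous_const.prodMk continuous_id)
  have hMt : ∀ t, Continuous (V' t) := fun t => hM.comp (continuous_const.prodMk continuous_id)
  have sP := pars_t hAB hP hP0 hwS cP
  have sM := pars_t hAB hM hM0 hwS' cM
  obtain ⟨IP, hIP⟩ : ∃ IP, IP = ∫ t in A..B, ∫ θ in (-Real.pi)..Real.pi, QF 1 1 (V t θ) :=
    ⟨_, rfl⟩
  obtain ⟨IM, hIM⟩ : ∃ IM, IM = ∫ t in A..B, ∫ θ in (-Real.pi)..Real.pi, QF 1 1 (V' t θ) :=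
    ⟨_, rfl⟩
  rw [← hIP] at sP
  rw [← hIM] at sM
  have hT : HasSum (fun m : ℤ => NQ 1 1 (w m) - (p - 1) * NQ 1 1 (w' m))
      ((2 * Real.pi)⁻¹ * IP - (p - 1) * ((2 * Real.pi)⁻¹ * IM)) := sP.sub (sM.mul_left _)
  have hGp := hpos _ hT
  obtain ⟨G, hG⟩ : ∃ G, G = (NQ (p - 1) 1 (w 0) - NQ 1 1 (w 0))
      - (NQ (p - 1) 1 (w' 0) - (p - 1) * NQ 1 1 (w' 0))
      + ((2 * Real.pi)⁻¹ * IP - (p - 1) * ((2 * Real.pi)⁻¹ * IM)) := ⟨_, rfl⟩
  have hGpos : 0 < G := by rw [hG]; exact hGp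
  obtain ⟨C, hC, hCb⟩ := bound_V hP hP0
  obtain ⟨C', hC', hCb'⟩ := bound_V hM hM0
  obtain ⟨δ, hδ⟩ : ∃ δ, δ = p * G / 8 / (B - A) := ⟨_, rfl⟩
  have hBA : 0 < B - A := by linarith
  have hδ0 : 0 < δ := by rw [hδ]; positivity
  obtain ⟨ε₁, he1, hx1⟩ := expand p C δ hp hC hδ0
  obtain ⟨ε₂, he2, hx2⟩ := expand p C' δ hp hC' hδ0
  refine ⟨Real.pi * p * G / 2, by positivity, min ε₁ ε₂, lt_min he1 he2, fun ε hε => ?_⟩
  -- the density
  obtain ⟨Γ, hΓ⟩ : ∃ Γ : ℝ → ℝ, Γ = fun t => 2 * Real.pi * ((QF (p - 1) 1 (w 0 t)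
      - QF 1 1 (w 0 t)) - (QF (p - 1) 1 (w' 0 t) - (p - 1) * QF 1 1 (w' 0 t)))
    + ((∫ θ in (-Real.pi)..Real.pi, QF 1 1 (V t θ))
      - (p - 1) * ∫ θ in (-Real.pi)..Real.pi, QF 1 1 (V' t θ)) := ⟨_, rfl⟩
  have hpt : ∀ t, 2 * Real.pi * p * ε * ((w 0 t).re - (w' 0 t).re)
      + ε ^ 2 * (p / 2) * Γ t - 4 * Real.pi * δ * ε ^ 2
      ≤ (∫ θ in (-Real.pi)..Real.pi, ‖1 + (ε : ℂ) * V t θ‖ ^ p)
          - ∫ θ in (-Real.pi)..Real.pi, ‖1 + (ε : ℂ) * V' t θ‖ ^ p := by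
    intro t
    have h := circle_gen (hPt t) (hMt t) hp (ε := ε) (δ := δ)
      (fun θ hθ => hx1 ε (hε.trans (min_le_left _ _)) _ (hCb t θ hθ))
      (fun θ hθ => hx2 ε (hε.trans (min_le_right _ _)) _ (hCb' t θ hθ))
    rw [cP 0 t, cM 0 t] at h
    rw [hΓ]
    exact h
  have hcw : ∀ m, Continuous (w m) := fun m => (hwS m).1.continuous
  have hcw' : ∀ m, Continuous (w' m) := fun m => (hwS' m).1.continuous
  have hFc : ∀ {U : ℝ → ℝ → ℂ}, Continuous (Function.uncurry U) →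
      Continuous fun t => ∫ θ in (-Real.pi)..Real.pi, ‖1 + (ε : ℂ) * U t θ‖ ^ p := fun {U} hU =>
    intervalIntegral.continuous_parametric_intervalIntegral_of_continuous'
      (f := fun t θ => ‖1 + (ε : ℂ) * U t θ‖ ^ p)
      ((continuous_const.add (continuous_const.mul hU)).norm.rpow_const
        fun x => Or.inr (by linarith)) _ _
  have hQc : ∀ {U : ℝ → ℝ → ℂ}, Continuous (Function.uncurry U) →
      Continuous fun t => ∫ θ in (-Real.pi)..Real.pi, QF 1 1 (U t θ) := fun {U} hU =>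
    intervalIntegral.continuous_parametric_intervalIntegral_of_continuous'
      (f := fun t θ => QF 1 1 (U t θ)) ((QF_cont 1 1).comp hU) _ _
  have hcr : Continuous fun t => (w 0 t).re - (w' 0 t).re :=
    (Complex.continuous_re.comp (hcw 0)).sub (Complex.continuous_re.comp (hcw' 0))
  have q1 : Continuous fun t => QF (p - 1) 1 (w 0 t) - QF 1 1 (w 0 t) :=
    ((QF_cont _ _).comp (hcw 0)).sub ((QF_cont _ _).comp (hcw 0))
  have q2 : Continuous fun t => QF (p - 1) 1 (w' 0 t) - (p - 1) * QF 1 1 (w' 0 t) :=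
    ((QF_cont _ _).comp (hcw' 0)).sub (continuous_const.mul ((QF_cont _ _).comp (hcw' 0)))
  have q12 : Continuous fun t => 2 * Real.pi * ((QF (p - 1) 1 (w 0 t)
      - QF 1 1 (w 0 t)) - (QF (p - 1) 1 (w' 0 t) - (p - 1) * QF 1 1 (w' 0 t))) :=
    continuous_const.mul (q1.sub q2)
  have q3 : Continuous fun t => (∫ θ in (-Real.pi)..Real.pi, QF 1 1 (V t θ))
      - (p - 1) * ∫ θ in (-Real.pi)..Real.pi, QF 1 1 (V' t θ) :=
    (hQc hP).sub (continuous_const.mul (hQc hM))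
  have hcG : Continuous Γ := by
    rw [hΓ]
    exact q12.add q3
  have i1 : IntervalIntegrable (fun t => 2 * Real.pi * p * ε * ((w 0 t).re - (w' 0 t).re)) volume
      A B := (continuous_const.mul hcr).intervalIntegrable _ _
  have i2 : IntervalIntegrable (fun t => ε ^ 2 * (p / 2) * Γ t) volume A B :=
    (continuous_const.mul hcG).intervalIntegrable _ _
  have i3 : IntervalIntegrable (fun _ : ℝ => 4 * Real.pi * δ * ε ^ 2) volume A B :=
    continuous_const.intervalIntegrable _ _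
  have hmono := intervalIntegral.integral_mono_on hAB.le ((i1.add i2).sub i3)
    (((hFc hP).sub (hFc hM)).intervalIntegrable A B) (fun t _ => hpt t)
  have hI1 : ∫ t in A..B, ((w 0 t).re - (w' 0 t).re) = 0 := by
    rw [ii_eq hAB.le (fun t ht => by rw [(hwS 0).2 t ht, (hwS' 0).2 t ht, sub_self])]
    have j1 : Integrable (w 0) := (hcw 0).integrable_of_hasCompactSupport (hwS 0).cpt
    have j2 : Integrable (w' 0) := (hcw' 0).integrable_of_hasCompactSupport (hwS' 0).cpt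
    have k1 := Complex.reCLM.integral_comp_comm j1
    have k2 := Complex.reCLM.integral_comp_comm j2
    simp only [Complex.reCLM_apply] at k1 k2
    rw [integral_sub (f := fun t => (w 0 t).re) (g := fun t => (w' 0 t).re)
      (Complex.reCLM.integrable_comp j1) (Complex.reCLM.integrable_comp j2), k1, k2, hfv, sub_self]
  have hJ : ∫ t in A..B, ((QF (p - 1) 1 (w 0 t)
      - QF 1 1 (w 0 t)) - (QF (p - 1) 1 (w' 0 t) - (p - 1) * QF 1 1 (w' 0 t)))
      = (NQ (p - 1) 1 (w 0) - NQ 1 1 (w 0)) - (NQ (p - 1) 1 (w' 0) - (p - 1) * NQ 1 1 (w' 0)) := by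
    rw [ii_eq hAB.le (fun t ht => by
      rw [(hwS 0).2 t ht, (hwS' 0).2 t ht, QF_zero, QF_zero]; ring)]
    have a1 := QF_int (hwS 0) (p - 1) 1
    have a2 := QF_int (hwS 0) 1 1
    have a3 := QF_int (hwS' 0) (p - 1) 1
    have a4 : Integrable fun t => (p - 1) * QF 1 1 (w' 0 t) := (QF_int (hwS' 0) 1 1).const_mul _
    have a12 : Integrable fun t => QF (p - 1) 1 (w 0 t) - QF 1 1 (w 0 t) := a1.sub a2
    have a34 : Integrable fun t => QF (p - 1) 1 (w' 0 t) - (p - 1) * QF 1 1 (w' 0 t) := a3.sub a4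
    rw [integral_sub a12 a34, integral_sub a1 a2, integral_sub a3 a4, integral_const_mul]
    rfl
  have hI2 : ∫ t in A..B, Γ t = 2 * Real.pi * G := by
    rw [hΓ]
    have b1 : IntervalIntegrable (fun t => 2 * Real.pi * ((QF (p - 1) 1 (w 0 t)
      - QF 1 1 (w 0 t)) - (QF (p - 1) 1 (w' 0 t) - (p - 1) * QF 1 1 (w' 0 t)))) volume A B :=
      q12.intervalIntegrable _ _
    have b2 : IntervalIntegrable (fun t => (∫ θ in (-Real.pi)..Real.pi, QF 1 1 (V t θ))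
      - (p - 1) * ∫ θ in (-Real.pi)..Real.pi, QF 1 1 (V' t θ)) volume A B :=
      q3.intervalIntegrable _ _
    have b3 : IntervalIntegrable (fun t => ∫ θ in (-Real.pi)..Real.pi, QF 1 1 (V t θ))
      volume A B := (hQc hP).intervalIntegrable _ _
    have b4 : IntervalIntegrable (fun t => (p - 1) * ∫ θ in (-Real.pi)..Real.pi,
      QF 1 1 (V' t θ)) volume A B := (continuous_const.mul (hQc hM)).intervalIntegrable _ _
    rw [intervalIntegral.integral_add b1 b2, intervalIntegral.integral_sub b3 b4,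
      intervalIntegral.integral_const_mul, intervalIntegral.integral_const_mul, hJ, ← hIP, ← hIM,
      hG]
    field_simp
  rw [intervalIntegral.integral_sub (i1.add i2) i3, intervalIntegral.integral_add i1 i2,
    intervalIntegral.integral_const_mul, intervalIntegral.integral_const_mul, hI1, hI2,
    intervalIntegral.integral_const, smul_eq_mul] at hmono
  refine le_trans (le_of_eq ?_) hmono
  rw [hδ]
  field_simp
  ring

/-- the general statement -/
theorem main_gen (n : ℕ) (hn : 1 ≤ n) {p : ℝ} (hp : 2 < p) {A B : ℝ} (hAB : A < B)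
    {v : ℂ → ℂ} (hv : Sm v) (hV : Van A B v) (hne : ∃ z, z ≠ 0 ∧ v z ≠ 0) :
    ∃ c : ℝ, 0 < c ∧ ∃ ε₀ : ℝ, 0 < ε₀ ∧ ∀ a b : ℝ, 0 < a → a ≤ b →
      Van (Real.log a) (Real.log b) v → ∀ ε : ℝ, |ε| ≤ ε₀ →
      (∫ z in {z : ℂ | a ≤ ‖z‖ ∧ ‖z‖ ≤ b},
          ‖(dz^[n] (fun z => u0 n p z + (ε : ℂ) * v z)) z‖ ^ p) + c * ε ^ 2
        ≤ K n p ^ p * ∫ z in {z : ℂ | a ≤ ‖z‖ ∧ ‖z‖ ≤ b},
          ‖(dzb^[n] (fun z => u0 n p z + (ε : ℂ) * v z)) z‖ ^ p := by
  have hp0 : 0 < p := by linarith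
  have hs : 0 < 1 / p := by positivity
  have hs2 : 1 / p < 1 / 2 := one_div_lt_one_div_of_lt (by norm_num) hp
  have hX := RF_pos n hs
  have hY := RF_pos n (show 0 < 1 - 1 / p by linarith)
  have hψ := psi_SC n p hv hV
  obtain ⟨c, hc, ε₀, hε₀, hb⟩ := total_abs hp hAB (WP_cont n p hv) (WM_cont n p hv)
    (WP_van n p hV) (WM_van n p hV) (fun m => (hψ m).wP n (1 / p) m)
    (fun m => (hψ m).wM n (1 / p) m) (coef_WP n hp hv) (coef_WM n hp hv)
    (first_var n hs hs2 (hψ 0)) (fun T hT => G_pos n hn hp hψ (psi_ne n p hv hne) hT)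
  refine ⟨RF n (1 - 1 / p) ^ p * c, by positivity, ε₀, hε₀, fun a b ha hab hsup ε hε => ?_⟩
  have hfin := hb ε hε
  have hexp : ∀ t : ℝ, Real.exp (-(2 / p) * t) ^ p = Real.exp (-2 * t) := by
    intro t
    rw [← Real.exp_mul]
    congr 1
    field_simp
  have hFj : ∀ {U : ℝ → ℝ → ℂ}, Continuous (Function.uncurry U) →
      Continuous (Function.uncurry fun t θ : ℝ => ‖1 + (ε : ℂ) * U t θ‖ ^ p) := fun hU =>
    (continuous_const.add (continuous_const.mul hU)).norm.rpow_const fun x => Or.inr (by linarith)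
  have f1 := polar_int (G := dz^[n] (fun z => u0 n p z + (ε : ℂ) * v z)) (p := p)
    (g := fun t θ => RF n (1 - 1 / p) ^ p * ‖1 + (ε : ℂ) * WM n p v t θ‖ ^ p)
    (continuous_const.mul (hFj (WM_cont n p hv))) ha hab (by
      intro t θ
      have := gen_dz n hp hv ε t θ
      rw [PO] at this
      rw [this, norm_mul, norm_mul, Complex.norm_real,
        Complex.norm_real, Real.norm_of_nonneg (Real.exp_pos _).le, Real.norm_of_nonneg hY.le,
        Real.mul_rpow (by positivity) (norm_nonneg _), Real.mul_rpow (by positivity) hY.le, hexp]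
      ring)
  have f2 := polar_int (G := dzb^[n] (fun z => u0 n p z + (ε : ℂ) * v z)) (p := p)
    (g := fun t θ => RF n (1 / p) ^ p * ‖1 + (ε : ℂ) * WP n p v t θ‖ ^ p)
    (continuous_const.mul (hFj (WP_cont n p hv))) ha hab (by
      intro t θ
      have := gen_dzb n hp hv ε t θ
      rw [PO] at this
      rw [this, norm_mul, norm_mul, norm_mul, norm_mul, norm_pow,
        norm_neg, norm_one, one_pow, ci_norm, one_mul, one_mul, Complex.norm_real,
        Complex.norm_real, Real.norm_of_nonneg (Real.exp_pos _).le, Real.norm_of_nonneg hX.le,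
        Real.mul_rpow (by positivity) (norm_nonneg _), Real.mul_rpow (by positivity) hX.le, hexp]
      ring)
  rw [f1, f2]
  simp_rw [intervalIntegral.integral_const_mul]
  have hK : K n p ^ p * RF n (1 / p) ^ p = RF n (1 - 1 / p) ^ p := by
    rw [K_eq, Real.div_rpow hY.le hX.le, div_mul_cancel₀ _ (by positivity)]
  rw [← mul_assoc, hK, mul_assoc, ← mul_add]
  apply mul_le_mul_of_nonneg_left _ (by positivity)
  have hlog : Real.log a ≤ Real.log b := Real.log_le_log ha hab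
  have c1 : Continuous fun t => ∫ θ in (-Real.pi)..Real.pi, ‖1 + (ε : ℂ) * WP n p v t θ‖ ^ p :=
    intervalIntegral.continuous_parametric_intervalIntegral_of_continuous'
      (hFj (WP_cont n p hv)) _ _
  have c2 : Continuous fun t => ∫ θ in (-Real.pi)..Real.pi, ‖1 + (ε : ℂ) * WM n p v t θ‖ ^ p :=
    intervalIntegral.continuous_parametric_intervalIntegral_of_continuous'
      (hFj (WM_cont n p hv)) _ _
  have hvan : ∀ {A B : ℝ}, Van A B v → ∀ t, t ∉ Icc A B →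
      (∫ θ in (-Real.pi)..Real.pi, ‖1 + (ε : ℂ) * WP n p v t θ‖ ^ p)
          - ∫ θ in (-Real.pi)..Real.pi, ‖1 + (ε : ℂ) * WM n p v t θ‖ ^ p = 0 := by
    intro A B h t ht
    simp_rw [WP_van n p h t ht, WM_van n p h t ht]
    exact sub_self _
  rw [ii_eq hAB.le (hvan hV), ← ii_eq hlog (hvan hsup),
    intervalIntegral.integral_sub (c1.intervalIntegrable _ _) (c2.intervalIntegrable _ _)] at hfin
  linarith

/-- the statement for smooth functions with compact support in the punctured plane -/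
theorem main_v (n : ℕ) (hn : 1 ≤ n) {p : ℝ} (hp : 2 < p) {v : ℂ → ℂ} (hv : ContDiff ℝ ∞ v)
    (hc : HasCompactSupport v) (h0 : (0 : ℂ) ∉ tsupport v) (hne : v ≠ 0) :
    ∃ c : ℝ, 0 < c ∧ ∃ ε₀ : ℝ, 0 < ε₀ ∧ ∀ a b : ℝ, 0 < a →
      (∀ z, v z ≠ 0 → a ≤ ‖z‖ ∧ ‖z‖ ≤ b) → ∀ ε : ℝ, |ε| ≤ ε₀ →
      (∫ z in {z : ℂ | a ≤ ‖z‖ ∧ ‖z‖ ≤ b},
          ‖(dz^[n] (fun z => u0 n p z + (ε : ℂ) * v z)) z‖ ^ p) + c * ε ^ 2
        ≤ K n p ^ p * ∫ z in {z : ℂ | a ≤ ‖z‖ ∧ ‖z‖ ≤ b},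
          ‖(dzb^[n] (fun z => u0 n p z + (ε : ℂ) * v z)) z‖ ^ p := by
  have hv0 : v 0 = 0 := by
    by_contra h
    exact h0 (subset_tsupport _ h)
  obtain ⟨z₀, hz₀⟩ := Function.ne_iff.mp hne
  have hz₀' : v z₀ ≠ 0 := hz₀
  have hne' : ∃ z, z ≠ 0 ∧ v z ≠ 0 := ⟨z₀, fun h => hz₀' (h ▸ hv0), hz₀'⟩
  have hlogs : ∀ {a b : ℝ}, 0 < a → (∀ z, v z ≠ 0 → a ≤ ‖z‖ ∧ ‖z‖ ≤ b) →
      Van (Real.log a) (Real.log b) v := by
    intro a b ha h z hz hzl
    by_contra hvz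
    obtain ⟨h1, h2⟩ := h z hvz
    exact hzl ⟨Real.log_le_log ha h1, Real.log_le_log (norm_pos_iff.mpr hz) h2⟩
  -- an annulus containing the support
  obtain ⟨r, hr, hball⟩ := Metric.mem_nhds_iff.mp
    ((isClosed_tsupport v).isOpen_compl.mem_nhds h0)
  obtain ⟨R, hR⟩ := hc.isCompact.isBounded.subset_closedBall 0
  have hrR : ∀ z, v z ≠ 0 → r ≤ ‖z‖ ∧ ‖z‖ ≤ max R (r + 1) := by
    intro z hz
    have h1 : z ∈ tsupport v := subset_tsupport _ hz
    constructor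
    · by_contra h
      push Not at h
      exact hball (show z ∈ Metric.ball 0 r by simpa using h) h1
    · have := hR h1
      rw [Metric.mem_closedBall, dist_zero_right] at this
      exact this.trans (le_max_left _ _)
  have hlt : Real.log r < Real.log (max R (r + 1)) :=
    Real.log_lt_log hr (lt_of_lt_of_le (by linarith) (le_max_right _ _))
  obtain ⟨c, hcp, ε₀, hε₀, h⟩ := main_gen n hn hp hlt hv.contDiffOn (hlogs hr hrR) hne'
  refine ⟨c, hcp, ε₀, hε₀, fun a b ha hsup ε hε => ?_⟩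
  have hab : a ≤ b := (hsup z₀ hz₀').1.trans (hsup z₀ hz₀').2
  exact h a b ha hab (hlogs ha hsup) ε hε

end Pool.Agent.D0H14.SV
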