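import Mathlib
import Pool.Agent.D0H14.SV.Poly

/-! The comparison with a constant slightly larger than `(1 - s) / s`. -/

set_option autoImplicit false

open Polynomial Finset

namespace Pool.Agent.D0H14.SV.Gap

open Pool.Agent.D0H14.SV

/-- the admissible constants -/
structure Adm (s lam : ℝ) : Prop where
  s0 : 0 < s
  s1 : s < 1 / 2
  l0 : 0 < lam
  l1 : lam * s ^ 2 < (1 - s) ^ 2
  l2 : ∀ c : ℝ, 1 / 2 ≤ c → lam * s ^ 2 * (1 - s + c) ^ 2 ≤ (1 - s) ^ 2 * (s + c) ^ 2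

/-- comparison for shifts `c ≥ 1/2`, with gain `lam` -/
theorem cmp1 (n : ℕ) {s c lam : ℝ} (ad : Adm s lam) (hc : 1 / 2 ≤ c) :
    PL (C (lam * RF (n + 1) s ^ 2) * TP (n + 1) (1 - s + c))
      (C (RF (n + 1) (1 - s) ^ 2) * TP (n + 1) (s + c)) := by
  have hs := ad.s0
  have hs2 := ad.s1
  induction n with
  | zero =>
    have h : PL (C (lam * s ^ 2) * (X + C ((1 - s + c) ^ 2)))
        (C ((1 - s) ^ 2) * (X + C ((s + c) ^ 2))) :=
      PL.lin (mul_nonneg ad.l0.le (sq_nonneg _)) ad.l1.le (sq_nonneg _) (ad.l2 c hc)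
    simpa [RF, TP] using h
  | succ n ih =>
    have h : PL (C ((s + (n + 1 : ℕ)) ^ 2) * (X + C ((1 - s + c + (n + 1 : ℕ)) ^ 2)))
        (C ((1 - s + (n + 1 : ℕ)) ^ 2) * (X + C ((s + c + (n + 1 : ℕ)) ^ 2))) := by
      have hn : (0 : ℝ) ≤ (n + 1 : ℕ) := Nat.cast_nonneg _
      apply PL.lin (sq_nonneg _)
      · gcongr
        linarith
      · exact sq_nonneg _
      · rw [← mul_pow, ← mul_pow]
        apply pow_le_pow_left₀ (by apply mul_nonneg <;> linarith)
        nlinarith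
    have h2 := ih.mul h
    rw [RF_succ (n + 1), RF_succ (n + 1), TP_succ (n + 1), TP_succ (n + 1)]
    have e1 : (C (lam * (RF (n + 1) s * (s + (n + 1 : ℕ))) ^ 2)
        * (TP (n + 1) (1 - s + c) * (X + C ((1 - s + c + (n + 1 : ℕ)) ^ 2))) : ℝ[X])
        = C (lam * RF (n + 1) s ^ 2) * TP (n + 1) (1 - s + c)
          * (C ((s + (n + 1 : ℕ)) ^ 2) * (X + C ((1 - s + c + (n + 1 : ℕ)) ^ 2))) := by
      simp only [mul_pow, C_mul]; ring
    have e2 : (C ((RF (n + 1) (1 - s) * (1 - s + (n + 1 : ℕ))) ^ 2)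
        * (TP (n + 1) (s + c) * (X + C ((s + c + (n + 1 : ℕ)) ^ 2))) : ℝ[X])
        = C (RF (n + 1) (1 - s) ^ 2) * TP (n + 1) (s + c)
          * (C ((1 - s + (n + 1 : ℕ)) ^ 2) * (X + C ((s + c + (n + 1 : ℕ)) ^ 2))) := by
      rw [mul_pow, C_mul]; ring
    rw [e1, e2]
    exact h2

/-- the constants -/
theorem gain (n : ℕ) (hn : 1 ≤ n) {s lam : ℝ} (ad : Adm s lam) :
    lam * RF n s ^ 2 < RF n (1 - s) ^ 2 := by
  have hs := ad.s0
  have hs2 := ad.s1
  induction n, hn using Nat.le_induction with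
  | base =>
    have : lam * s ^ 2 < (1 - s) ^ 2 := ad.l1
    simpa [RF] using this
  | succ n hn ih =>
    rw [RF_succ, RF_succ, mul_pow, mul_pow, ← mul_assoc]
    have h0 : 0 < lam := ad.l0
    have h1 := RF_pos n hs
    have hn0 : (0 : ℝ) ≤ n := Nat.cast_nonneg _
    apply mul_lt_mul'' ih
    · gcongr
      linarith
    · positivity
    · positivity

/-- the same with `N ≤ n` factors in the product -/
theorem cmp2 (N d : ℕ) (h : 1 ≤ N + d) {s c lam : ℝ} (ad : Adm s lam) (hc : 1 / 2 ≤ c) :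
    PL (C (lam * RF (N + d) s ^ 2) * TP N (1 - s + c))
      (C (RF (N + d) (1 - s) ^ 2) * TP N (s + c)) := by
  have hs := ad.s0
  have hs2 := ad.s1
  induction d with
  | zero =>
    obtain ⟨M, rfl⟩ : ∃ M, N = M + 1 := ⟨N - 1, by omega⟩
    exact cmp1 M ad hc
  | succ d ih =>
    rcases Nat.eq_zero_or_pos (N + d) with h0 | h0
    · have hN : N = 0 := by omega
      have hd : d = 0 := by omega
      subst hN hd
      have h1 : 0 < lam := ad.l0
      have h2 := RF_pos 1 hs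
      have := PL.const (a := lam * RF 1 s ^ 2) (b := RF 1 (1 - s) ^ 2) (by positivity)
        (gain 1 le_rfl ad).le
      simpa [TP] using this
    · have h1 := (ih h0).mul (PL.const (a := (s + (N + d : ℕ)) ^ 2)
        (b := (1 - s + (N + d : ℕ)) ^ 2) (sq_nonneg _) (by
          have hn0 : (0 : ℝ) ≤ (N + d : ℕ) := Nat.cast_nonneg _
          gcongr
          linarith))
      rw [← add_assoc, RF_succ (N + d), RF_succ (N + d)]
      have e1 : (C (lam * (RF (N + d) s * (s + (N + d : ℕ))) ^ 2) * TP N (1 - s + c)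
          : ℝ[X]) = C (lam * RF (N + d) s ^ 2) * TP N (1 - s + c)
            * C ((s + (N + d : ℕ)) ^ 2) := by
        simp only [mul_pow, C_mul]; ring
      have e2 : (C ((RF (N + d) (1 - s) * (1 - s + (N + d : ℕ))) ^ 2) * TP N (s + c)
          : ℝ[X]) = C (RF (N + d) (1 - s) ^ 2) * TP N (s + c)
            * C ((1 - s + (N + d : ℕ)) ^ 2) := by
        rw [mul_pow, C_mul]; ring
      rw [e1, e2]
      exact h1

/-- negative modes, `n ≥ k` -/
theorem cmpn1 (n k : ℕ) (hn : 1 ≤ n) (hk : 1 ≤ k) (hkn : k ≤ n) {s lam : ℝ} (ad : Adm s lam) :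
    PL (C (lam * RF n s ^ 2) * TP n (1 - s - k / 2))
      (C (RF n (1 - s) ^ 2) * TP n (s - k / 2)) := by
  have hs := ad.s0
  have hs2 := ad.s1
  obtain ⟨N, rfl⟩ : ∃ N, n = k + N := ⟨n - k, by omega⟩
  have hk' : (1 : ℝ) ≤ k := by exact_mod_cast hk
  rw [TP_add, TP_add]
  have e1 : 1 - s - (k : ℝ) / 2 + k = 1 - s + k / 2 := by ring
  have e2 : s - (k : ℝ) / 2 + k = s + k / 2 := by ring
  have e3 : TP k (1 - s - (k : ℝ) / 2) = TP k (s - k / 2) := TP_reflect k _ _ (by ring)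
  rw [e1, e2, e3]
  have h1 := (TP_nonneg k (s - k / 2)).mul (cmp2 N k (by omega) (c := k / 2) ad (by linarith))
  rw [add_comm k N]
  convert h1 using 1 <;> ring

/-- negative modes, `n < k` -/
theorem cmpn2 (n k : ℕ) (hn : 1 ≤ n) (hkn : n < k) {s lam : ℝ} (ad : Adm s lam) :
    PL (C (lam * RF n s ^ 2) * TP n (1 - s - k / 2))
      (C (RF n (1 - s) ^ 2) * TP n (s - k / 2)) := by
  have hs := ad.s0
  have hs2 := ad.s1
  have h0 : 0 < lam := ad.l0
  have h1 := RF_pos n hs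
  refine (PL.const (by positivity) (gain n hn ad).le).mul ?_
  have hfac : ∀ N : ℕ, 2 * N ≤ k → PL (TP N (1 - s - k / 2)) (TP N (s - k / 2)) := by
    intro N hN
    refine PL.prod fun j hj => ?_
    have h := PL.lin (c := 1) (d := 1) (a := (1 - s - k / 2 + j) ^ 2) (b := (s - k / 2 + j) ^ 2)
      zero_le_one le_rfl (sq_nonneg _) (by
        have h2 : (2 * (j : ℝ) + 2) ≤ k := by exact_mod_cast (by omega : 2 * j + 2 ≤ k)
        have h3 : (s - k / 2 + j) ^ 2 - (1 - s - k / 2 + j) ^ 2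
            = (1 - 2 * s) * (k - 2 * j - 1) := by ring
        have h4 : 0 ≤ (1 - 2 * s) * (k - 2 * j - 1) := by
          apply mul_nonneg <;> linarith
        linarith)
    simpa using h
  rcases le_or_gt (2 * n) k with h2 | h2
  · exact hfac n h2
  · obtain ⟨N, hN⟩ : ∃ N, k = n + N := ⟨k - n, by omega⟩
    obtain ⟨M, hM⟩ : ∃ M, n = N + M := ⟨n - N, by omega⟩
    have e3 : TP M (1 - s - (k : ℝ) / 2 + N) = TP M (s - k / 2 + N) := by
      apply TP_reflect
      rw [hN, hM]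
      push_cast
      ring
    have h3 := (hfac N (by omega)).mul (TP_nonneg M (s - k / 2 + N))
    have e4 : TP n (1 - s - (k : ℝ) / 2) = TP N (1 - s - k / 2) * TP M (s - k / 2 + N) := by
      rw [← e3, ← TP_add, ← hM]
    have e5 : TP n (s - (k : ℝ) / 2) = TP N (s - k / 2) * TP M (s - k / 2 + N) := by
      rw [← TP_add, ← hM]
    rw [e4, e5]
    exact h3

/-- all modes `m ≠ 0` -/
theorem cmp (n : ℕ) (hn : 1 ≤ n) (m : ℤ) (hm : m ≠ 0) {s lam : ℝ} (ad : Adm s lam) :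
    PL (C (lam * RF n s ^ 2) * TP n (1 - s + m / 2))
      (C (RF n (1 - s) ^ 2) * TP n (s + m / 2)) := by
  have hs := ad.s0
  have hs2 := ad.s1
  rcases lt_or_gt_of_ne hm with h | h
  · obtain ⟨k, hk⟩ := Int.eq_ofNat_of_zero_le (show 0 ≤ -m by omega)
    have hm' : (m : ℝ) = -(k : ℝ) := by
      have : m = -(k : ℤ) := by omega
      rw [this]; push_cast; ring
    have e1 : 1 - s + (m : ℝ) / 2 = 1 - s - k / 2 := by rw [hm']; ring
    have e2 : s + (m : ℝ) / 2 = s - k / 2 := by rw [hm']; ring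
    rw [e1, e2]
    rcases le_or_gt k n with h2 | h2
    · exact cmpn1 n k hn (by omega) h2 ad
    · exact cmpn2 n k hn h2 ad
  · obtain ⟨N, rfl⟩ : ∃ N, n = N + 1 := ⟨n - 1, by omega⟩
    have : (1 : ℝ) ≤ m := by exact_mod_cast h
    exact cmp1 N ad (by linarith)


/-- an admissible constant larger than `(1 - s) / s` -/
theorem adm {s : ℝ} (hs : 0 < s) (hs2 : s < 1 / 2) : ∃ lam : ℝ, (1 - s) / s < lam ∧ Adm s lam := by
  obtain ⟨κ, hκ⟩ : ∃ κ, κ = (1 - 2 * s) ^ 3 / 4 := ⟨_, rfl⟩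
  have h0 : 0 < 1 - 2 * s := by linarith
  have hκ0 : 0 < κ := by rw [hκ]; positivity
  have hκ1 : κ ≤ (1 - 2 * s) / 4 := by
    rw [hκ]
    have : (1 - 2 * s) ^ 3 ≤ (1 - 2 * s) ^ 1 :=
      pow_le_pow_of_le_one h0.le (by linarith) (by norm_num)
    linarith
  have h1 : 0 < 1 - κ := by linarith
  have hl : (1 - s) / s / (1 - κ) * s ^ 2 = (1 - s) * s / (1 - κ) := by field_simp
  refine ⟨(1 - s) / s / (1 - κ), ?_, hs, hs2, div_pos (div_pos (by linarith) hs) h1, ?_,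
    fun c hc => ?_⟩
  · rw [lt_div_iff₀ h1]
    have : 0 < (1 - s) / s := div_pos (by linarith) hs
    nlinarith
  · rw [hl, div_lt_iff₀ h1]
    nlinarith
  · rw [hl, div_mul_eq_mul_div, div_le_iff₀ h1]
    have h2 : s * (1 - s) ≤ 4 * (s * (1 - s)) * c ^ 2 := by
      have h3 : 0 ≤ s * (1 - s) := mul_nonneg hs.le (by linarith)
      have h4 : 1 ≤ 4 * c ^ 2 := by nlinarith
      nlinarith
    have h3 : (s + c) ^ 2 ≤ 4 * c ^ 2 := by nlinarith
    have h4 : κ * (1 - s) * (s + c) ^ 2 ≤ (1 - 2 * s) * (c ^ 2 - s * (1 - s)) := by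
      have h5 : κ * (1 - s) * (s + c) ^ 2 ≤ κ * 1 * (4 * c ^ 2) := by
        apply mul_le_mul _ h3 (sq_nonneg _) (by positivity)
        apply mul_le_mul_of_nonneg_left _ hκ0.le
        linarith
      have h6 : κ * 1 * (4 * c ^ 2) = (1 - 2 * s) * ((1 - 2 * s) ^ 2 * c ^ 2) := by
        rw [hκ]; ring
      have h7 : (1 - 2 * s) ^ 2 * c ^ 2 ≤ c ^ 2 - s * (1 - s) := by nlinarith
      have h8 := mul_le_mul_of_nonneg_left h7 h0.le
      linarith
    have h5 : (1 - s) * (s + c) ^ 2 - s * (1 - s + c) ^ 2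
        = (1 - 2 * s) * (c ^ 2 - s * (1 - s)) := by ring
    have h6 : s * (1 - s + c) ^ 2 ≤ (1 - s) * (s + c) ^ 2 * (1 - κ) := by linarith
    have h7 := mul_le_mul_of_nonneg_left h6 (show 0 ≤ 1 - s by linarith)
    calc (1 - s) * s * (1 - s + c) ^ 2 = (1 - s) * (s * (1 - s + c) ^ 2) := by ring
      _ ≤ (1 - s) * ((1 - s) * (s + c) ^ 2 * (1 - κ)) := h7
      _ = (1 - s) ^ 2 * (s + c) ^ 2 * (1 - κ) := by ring

end Pool.Agent.D0H14.SV.Gap
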