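import Mathlib
import Pool.Agent.D0H14.SV.PolyG
import Pool.Agent.D0H14.SV.GenB

/-! A uniform neighbourhood of the extremal. -/

set_option autoImplicit false

open Set MeasureTheory Filter Topology
open scoped ContDiff

namespace Pool.Agent.D0H14.SV

open Pool.Agent.D0H14.BA

/-- two-sided second order bounds for `‖1 + w‖ ^ p` -/
theorem one_add {p δ : ℝ} (hp : 2 < p) (hδ : 0 < δ) : ∃ η : ℝ, 0 < η ∧ ∀ w : ℂ, ‖w‖ ≤ η →
    (p / 2 - δ) * ‖w‖ ^ 2 ≤ ‖1 + w‖ ^ p - 1 - p * w.re ∧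
    ‖1 + w‖ ^ p - 1 - p * w.re ≤ (p / 2 * (p - 1) + δ) * ‖w‖ ^ 2 := by
  obtain ⟨η, hη, h⟩ := expand p 1 δ hp zero_le_one hδ
  refine ⟨η, hη, fun w hw => ?_⟩
  by_cases hw0 : w = 0
  · subst hw0
    simp
  have hn : 0 < ‖w‖ := norm_pos_iff.mpr hw0
  have hnc : ((‖w‖ : ℝ) : ℂ) ≠ 0 := by exact_mod_cast hn.ne'
  have h1 := h ‖w‖ (by rwa [abs_norm]) (w / ‖w‖) (by
    rw [norm_div, Complex.norm_real, norm_norm, div_self hn.ne'])
  have e1 : ((‖w‖ : ℝ) : ℂ) * (w / ‖w‖) = w := by field_simp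
  have e2 : (w / (‖w‖ : ℂ)).re = w.re / ‖w‖ := by rw [Complex.div_ofReal_re]
  have e3 : (w / (‖w‖ : ℂ)).im = w.im / ‖w‖ := by rw [Complex.div_ofReal_im]
  have hsq : w.re ^ 2 + w.im ^ 2 = ‖w‖ ^ 2 := by
    rw [← Complex.normSq_eq_norm_sq, Complex.normSq_apply]; ring
  rw [e1, e2, QF, e2, e3] at h1
  have e4 : p * ‖w‖ * (w.re / ‖w‖) = p * w.re := by field_simp
  have e5 : ‖w‖ ^ 2 * (p / 2 * ((p - 1) * (w.re / ‖w‖) ^ 2 + 1 * (w.im / ‖w‖) ^ 2))
      = p / 2 * ((p - 1) * w.re ^ 2 + w.im ^ 2) := by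
    field_simp
  rw [e4, e5] at h1
  have h2 := abs_le.mp h1
  have h3 : ‖w‖ ^ 2 ≤ (p - 1) * w.re ^ 2 + w.im ^ 2 := by nlinarith [sq_nonneg w.re]
  have h4 : (p - 1) * w.re ^ 2 + w.im ^ 2 ≤ (p - 1) * ‖w‖ ^ 2 := by nlinarith [sq_nonneg w.im]
  have hp2 : 0 ≤ p / 2 := by linarith
  have h5 := mul_le_mul_of_nonneg_left h3 hp2
  have h6 := mul_le_mul_of_nonneg_left h4 hp2
  constructor
  · linarith [h2.1]
  · linarith [h2.2]

/-- the same at a point near `1` -/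
theorem near_one {p c₁ c₂ : ℝ} (hp : 2 < p) (h1 : c₁ < p / 2) (h2 : p / 2 * (p - 1) < c₂) :
    ∃ η : ℝ, 0 < η ∧ η < 1 ∧ ∀ a u : ℂ, ‖a - 1‖ ≤ η → ‖u‖ ≤ η →
      c₁ * ‖u‖ ^ 2 ≤ ‖a + u‖ ^ p - ‖a‖ ^ p - p * ‖a‖ ^ p * (u / a).re ∧
      ‖a + u‖ ^ p - ‖a‖ ^ p - p * ‖a‖ ^ p * (u / a).re ≤ c₂ * ‖u‖ ^ 2 := by
  obtain ⟨δ, hδ⟩ : ∃ δ, δ = min ((p / 2 - c₁) / 2) ((c₂ - p / 2 * (p - 1)) / 2) := ⟨_, rfl⟩
  have hδ0 : 0 < δ := by rw [hδ]; apply lt_min <;> linarith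
  have hδ1 : c₁ < p / 2 - δ := by
    have := min_le_left ((p / 2 - c₁) / 2) ((c₂ - p / 2 * (p - 1)) / 2)
    rw [← hδ] at this
    linarith
  have hδ2 : p / 2 * (p - 1) + δ < c₂ := by
    have := min_le_right ((p / 2 - c₁) / 2) ((c₂ - p / 2 * (p - 1)) / 2)
    rw [← hδ] at this
    linarith
  obtain ⟨η₁, hη₁, hw⟩ := one_add hp hδ0
  have hcont : ContinuousAt (fun a : ℂ => ‖a‖ ^ (p - 2)) 1 :=
    (continuous_norm.continuousAt).rpow_const (Or.inl (by simp))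
  have hv : (fun a : ℂ => ‖a‖ ^ (p - 2)) 1 = 1 := by simp
  have ev1 : ∀ᶠ a : ℂ in 𝓝 1, c₁ < (p / 2 - δ) * ‖a‖ ^ (p - 2) := by
    have := (hcont.const_mul (p / 2 - δ)).tendsto
    simp only [norm_one, Real.one_rpow, mul_one] at this
    exact this.eventually (lt_mem_nhds hδ1)
  have ev2 : ∀ᶠ a : ℂ in 𝓝 1, (p / 2 * (p - 1) + δ) * ‖a‖ ^ (p - 2) < c₂ := by
    have := (hcont.const_mul (p / 2 * (p - 1) + δ)).tendsto
    simp only [norm_one, Real.one_rpow, mul_one] at this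
    exact this.eventually (gt_mem_nhds hδ2)
  obtain ⟨ρ, hρ, hball⟩ := Metric.eventually_nhds_iff.mp (ev1.and ev2)
  refine ⟨min (min (ρ / 2) (1 / 2)) (η₁ / 2), by positivity,
    lt_of_le_of_lt ((min_le_left _ _).trans (min_le_right _ _)) (by norm_num),
    fun a u ha hu => ?_⟩
  have ha1 : ‖a - 1‖ < ρ := lt_of_le_of_lt (ha.trans ((min_le_left _ _).trans (min_le_left _ _)))
    (by linarith)
  have ha2 : ‖a - 1‖ ≤ 1 / 2 := ha.trans ((min_le_left _ _).trans (min_le_right _ _))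
  have hu1 : ‖u‖ ≤ η₁ / 2 := hu.trans (min_le_right _ _)
  have hna : 1 / 2 ≤ ‖a‖ := by
    have h := norm_sub_norm_le (1 : ℂ) (1 - a)
    rw [sub_sub_cancel, norm_one, norm_sub_rev] at h
    linarith
  have hna0 : 0 < ‖a‖ := by linarith
  have ha0 : a ≠ 0 := norm_pos_iff.mp hna0
  have hwa : ‖u / a‖ ≤ η₁ := by
    rw [norm_div, div_le_iff₀ hna0]
    nlinarith
  obtain ⟨g1, g2⟩ := hw (u / a) hwa
  obtain ⟨k1, k2⟩ := hball (show dist a 1 < ρ by rw [dist_eq_norm]; exact ha1)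
  have e1 : ‖a + u‖ ^ p = ‖a‖ ^ p * ‖1 + u / a‖ ^ p := by
    rw [← Real.mul_rpow (norm_nonneg _) (norm_nonneg _), ← norm_mul]
    congr 2
    field_simp
  have e2 : ‖a‖ ^ p * ‖u / a‖ ^ 2 = ‖a‖ ^ (p - 2) * ‖u‖ ^ 2 := by
    rw [norm_div, div_pow, Real.rpow_sub hna0]
    have : ‖a‖ ^ (2 : ℝ) = ‖a‖ ^ 2 := by norm_cast
    rw [this]
    field_simp
  have hap : 0 < ‖a‖ ^ p := by positivity
  have e3 : ‖a + u‖ ^ p - ‖a‖ ^ p - p * ‖a‖ ^ p * (u / a).re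
      = ‖a‖ ^ p * (‖1 + u / a‖ ^ p - 1 - p * (u / a).re) := by rw [e1]; ring
  rw [e3]
  have m1 := mul_le_mul_of_nonneg_left g1 hap.le
  have m2 := mul_le_mul_of_nonneg_left g2 hap.le
  have q1 : ‖a‖ ^ p * ((p / 2 - δ) * ‖u / a‖ ^ 2) = (p / 2 - δ) * ‖a‖ ^ (p - 2) * ‖u‖ ^ 2 := by
    linear_combination (p / 2 - δ) * e2
  have q2 : ‖a‖ ^ p * ((p / 2 * (p - 1) + δ) * ‖u / a‖ ^ 2)
      = (p / 2 * (p - 1) + δ) * ‖a‖ ^ (p - 2) * ‖u‖ ^ 2 := by
    linear_combination (p / 2 * (p - 1) + δ) * e2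
  rw [q1] at m1
  rw [q2] at m2
  have hu2 : 0 ≤ ‖u‖ ^ 2 := sq_nonneg _
  exact ⟨(mul_le_mul_of_nonneg_right k1.le hu2).trans m1,
    m2.trans (mul_le_mul_of_nonneg_right k2.le hu2)⟩

/-- the mean is bounded by the supremum -/
theorem F1_bound {f : ℝ → ℂ} {B : ℝ} (hf : ∀ θ, ‖f θ‖ ≤ B) : ‖F1 0 f‖ ≤ B := by
  have hpi := Real.pi_pos
  rw [F1_zero, norm_mul, Complex.norm_real, Real.norm_of_nonneg (by positivity)]
  have h := intervalIntegral.norm_integral_le_of_norm_le_const (a := -Real.pi) (b := Real.pi)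
    (f := f) (C := B) (fun θ _ => hf θ)
  have e : |Real.pi - -Real.pi| = 2 * Real.pi := by
    rw [abs_of_pos (by linarith)]; ring
  rw [e] at h
  calc (2 * Real.pi)⁻¹ * ‖∫ θ in (-Real.pi)..Real.pi, f θ‖ ≤ (2 * Real.pi)⁻¹ * (B * (2 * Real.pi)) := by
        gcongr
    _ = B := by field_simp

/-- the bounds on a circle -/
theorem circle_near {p c₁ c₂ η : ℝ} (hp : 2 < p)
    (h : ∀ a u : ℂ, ‖a - 1‖ ≤ η → ‖u‖ ≤ η →
      c₁ * ‖u‖ ^ 2 ≤ ‖a + u‖ ^ p - ‖a‖ ^ p - p * ‖a‖ ^ p * (u / a).re ∧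
      ‖a + u‖ ^ p - ‖a‖ ^ p - p * ‖a‖ ^ p * (u / a).re ≤ c₂ * ‖u‖ ^ 2)
    {f : ℝ → ℂ} (hf : Continuous f) (hb : ∀ θ, ‖f θ‖ ≤ η / 2) :
    2 * Real.pi * ‖1 + F1 0 f‖ ^ p
        + c₁ * ((∫ θ in (-Real.pi)..Real.pi, QF 1 1 (f θ)) - 2 * Real.pi * QF 1 1 (F1 0 f))
      ≤ ∫ θ in (-Real.pi)..Real.pi, ‖1 + f θ‖ ^ p ∧
    ∫ θ in (-Real.pi)..Real.pi, ‖1 + f θ‖ ^ p ≤ 2 * Real.pi * ‖1 + F1 0 f‖ ^ p
        + c₂ * ((∫ θ in (-Real.pi)..Real.pi, QF 1 1 (f θ)) - 2 * Real.pi * QF 1 1 (F1 0 f)) := by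
  have hpi := Real.pi_pos
  obtain ⟨c0, hc0⟩ : ∃ c0, c0 = F1 0 f := ⟨_, rfl⟩
  rw [← hc0]
  have hc0b : ‖c0‖ ≤ η / 2 := hc0 ▸ F1_bound hb
  have hη : 0 ≤ η := by
    have := (norm_nonneg _).trans hc0b
    linarith
  have hint : ∫ θ in (-Real.pi)..Real.pi, f θ = (2 * Real.pi : ℝ) * c0 := by
    rw [hc0, F1_zero, ← mul_assoc, ← Complex.ofReal_mul, mul_inv_cancel₀ (by positivity),
      Complex.ofReal_one, one_mul]
  obtain ⟨a, ha⟩ : ∃ a, a = 1 + c0 := ⟨_, rfl⟩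
  rw [← ha]
  have hpt : ∀ θ, c₁ * ‖f θ - c0‖ ^ 2 ≤ ‖1 + f θ‖ ^ p - ‖a‖ ^ p - p * ‖a‖ ^ p * ((f θ - c0) / a).re ∧
      ‖1 + f θ‖ ^ p - ‖a‖ ^ p - p * ‖a‖ ^ p * ((f θ - c0) / a).re ≤ c₂ * ‖f θ - c0‖ ^ 2 := by
    intro θ
    have h1 := h a (f θ - c0) (by rw [ha]; simpa using hc0b.trans (by linarith))
      ((norm_sub_le _ _).trans (by linarith [hb θ]))
    have e : a + (f θ - c0) = 1 + f θ := by rw [ha]; ring
    rwa [e] at h1
  have hU : Continuous fun θ => f θ - c0 := hf.sub continuous_const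
  have hUr : Continuous fun θ => ((f θ - c0) / a).re :=
    Complex.continuous_re.comp (hU.div_const _)
  have hL0 : ∫ θ in (-Real.pi)..Real.pi, ((f θ - c0) / a).re = 0 := by
    have h1 := Complex.reCLM.intervalIntegral_comp_comm
      ((hU.div_const a).intervalIntegrable (-Real.pi) Real.pi) (μ := volume)
    simp only [Complex.reCLM_apply] at h1
    rw [h1, intervalIntegral.integral_div, intervalIntegral.integral_sub
      (hf.intervalIntegrable _ _) (continuous_const.intervalIntegrable _ _), hint,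
      intervalIntegral.integral_const]
    have : (2 * Real.pi : ℝ) * c0 - (Real.pi - -Real.pi) • c0 = 0 := by
      rw [Complex.real_smul]
      push_cast
      ring
    rw [this]
    simp
  have hSq : ∫ θ in (-Real.pi)..Real.pi, ‖f θ - c0‖ ^ 2
      = (∫ θ in (-Real.pi)..Real.pi, QF 1 1 (f θ)) - 2 * Real.pi * QF 1 1 c0 := by
    have hre := F1_re hf
    have him := F1_im hf
    rw [← hc0] at hre him
    have cr : Continuous fun θ => (f θ).re := Complex.continuous_re.comp hf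
    have ci' : Continuous fun θ => (f θ).im := Complex.continuous_im.comp hf
    have i1 : IntervalIntegrable (fun θ => QF 1 1 (f θ)) volume (-Real.pi) Real.pi :=
      ((QF_cont 1 1).comp hf).intervalIntegrable _ _
    have i2 : IntervalIntegrable (fun θ => 2 * c0.re * (f θ).re) volume (-Real.pi) Real.pi :=
      (continuous_const.mul cr).intervalIntegrable _ _
    have i3 : IntervalIntegrable (fun θ => 2 * c0.im * (f θ).im) volume (-Real.pi) Real.pi :=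
      (continuous_const.mul ci').intervalIntegrable _ _
    have i4 : IntervalIntegrable (fun _ : ℝ => QF 1 1 c0) volume (-Real.pi) Real.pi :=
      continuous_const.intervalIntegrable _ _
    have e : ∀ θ, ‖f θ - c0‖ ^ 2 = QF 1 1 (f θ) - 2 * c0.re * (f θ).re - 2 * c0.im * (f θ).im
        + QF 1 1 c0 := by
      intro θ
      rw [← QF11]
      simp only [QF, Complex.sub_re, Complex.sub_im]
      ring
    simp_rw [e]
    rw [intervalIntegral.integral_add ((i1.sub i2).sub i3) i4,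
      intervalIntegral.integral_sub (i1.sub i2) i3, intervalIntegral.integral_sub i1 i2,
      intervalIntegral.integral_const_mul, intervalIntegral.integral_const_mul,
      intervalIntegral.integral_const, smul_eq_mul]
    have r1 : ∫ θ in (-Real.pi)..Real.pi, (f θ).re = 2 * Real.pi * c0.re := by
      rw [hre]; field_simp
    have r2 : ∫ θ in (-Real.pi)..Real.pi, (f θ).im = 2 * Real.pi * c0.im := by
      rw [him]; field_simp
    rw [r1, r2]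
    unfold QF
    ring
  have hF : Continuous fun θ => ‖1 + f θ‖ ^ p :=
    (continuous_const.add hf).norm.rpow_const fun x => Or.inr (by linarith)
  have j1 : IntervalIntegrable (fun θ => ‖1 + f θ‖ ^ p) volume (-Real.pi) Real.pi :=
    hF.intervalIntegrable _ _
  have j2 : IntervalIntegrable (fun _ : ℝ => ‖a‖ ^ p) volume (-Real.pi) Real.pi :=
    continuous_const.intervalIntegrable _ _
  have j3 : IntervalIntegrable (fun θ => p * ‖a‖ ^ p * ((f θ - c0) / a).re) volume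
      (-Real.pi) Real.pi := (continuous_const.mul hUr).intervalIntegrable _ _
  have j4 : ∀ c : ℝ, IntervalIntegrable (fun θ => c * ‖f θ - c0‖ ^ 2) volume
      (-Real.pi) Real.pi := fun c => (continuous_const.mul (hU.norm.pow 2)).intervalIntegrable _ _
  have hval : ∫ θ in (-Real.pi)..Real.pi, (‖1 + f θ‖ ^ p - ‖a‖ ^ p
      - p * ‖a‖ ^ p * ((f θ - c0) / a).re)
      = (∫ θ in (-Real.pi)..Real.pi, ‖1 + f θ‖ ^ p) - 2 * Real.pi * ‖a‖ ^ p := by
    rw [intervalIntegral.integral_sub (j1.sub j2) j3, intervalIntegral.integral_sub j1 j2,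
      intervalIntegral.integral_const_mul, hL0, intervalIntegral.integral_const, smul_eq_mul]
    ring
  have m1 := intervalIntegral.integral_mono_on (by linarith : -Real.pi ≤ Real.pi) (j4 c₁)
    ((j1.sub j2).sub j3) (fun θ _ => (hpt θ).1)
  have m2 := intervalIntegral.integral_mono_on (by linarith : -Real.pi ≤ Real.pi)
    ((j1.sub j2).sub j3) (j4 c₂) (fun θ _ => (hpt θ).2)
  rw [hval, intervalIntegral.integral_const_mul, hSq] at m1 m2
  constructor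
  · linarith
  · linarith

end Pool.Agent.D0H14.SV
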