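import Mathlib
import Pool.Agent.D0H14.SV.Loc

/-! Near the extremal the functional decreases under the projection on the mode of the extremal. -/

set_option autoImplicit false

open Set MeasureTheory
open scoped ContDiff

namespace Pool.Agent.D0H14.SV

open Pool.Agent.D0H14.BA

theorem total_near {p c₁ c₂ η lam : ℝ} (hp : 2 < p)
    (h : ∀ a u : ℂ, ‖a - 1‖ ≤ η → ‖u‖ ≤ η →
      c₁ * ‖u‖ ^ 2 ≤ ‖a + u‖ ^ p - ‖a‖ ^ p - p * ‖a‖ ^ p * (u / a).re ∧
      ‖a + u‖ ^ p - ‖a‖ ^ p - p * ‖a‖ ^ p * (u / a).re ≤ c₂ * ‖u‖ ^ 2)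
    (hc₁ : 0 < c₁) (hcc : c₂ = lam * c₁) {A B : ℝ} (hAB : A < B) {V V' : ℝ → ℝ → ℂ}
    (hP : Continuous (Function.uncurry V)) (hM : Continuous (Function.uncurry V'))
    (hP0 : ∀ t, t ∉ Icc A B → ∀ θ, V t θ = 0) (hM0 : ∀ t, t ∉ Icc A B → ∀ θ, V' t θ = 0)
    {w w' : ℤ → ℝ → ℂ} (hwS : ∀ m, SC A B (w m)) (hwS' : ∀ m, SC A B (w' m))
    (cP : ∀ m t, F1 m (V t) = w m t) (cM : ∀ m t, F1 m (V' t) = w' m t)
    (bP : ∀ t θ, ‖V t θ‖ ≤ η / 2) (bM : ∀ t θ, ‖V' t θ‖ ≤ η / 2)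
    (hmode : ∀ m : ℤ, m ≠ 0 → lam * NQ 1 1 (w' m) ≤ NQ 1 1 (w m)) :
    (∫ t in A..B, (2 * Real.pi * ‖1 + w 0 t‖ ^ p - 2 * Real.pi * ‖1 + w' 0 t‖ ^ p)
      ≤ ∫ t in A..B, ((∫ θ in (-Real.pi)..Real.pi, ‖1 + V t θ‖ ^ p)
          - ∫ θ in (-Real.pi)..Real.pi, ‖1 + V' t θ‖ ^ p)) ∧
    ((∃ m : ℤ, m ≠ 0 ∧ lam * NQ 1 1 (w' m) < NQ 1 1 (w m)) →
      ∫ t in A..B, (2 * Real.pi * ‖1 + w 0 t‖ ^ p - 2 * Real.pi * ‖1 + w' 0 t‖ ^ p)
      < ∫ t in A..B, ((∫ θ in (-Real.pi)..Real.pi, ‖1 + V t θ‖ ^ p)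
          - ∫ θ in (-Real.pi)..Real.pi, ‖1 + V' t θ‖ ^ p)) := by
  have hpi := Real.pi_pos
  have hPt : ∀ t, Continuous (V t) := fun t => hP.comp (continuous_const.prodMk continuous_id)
  have hMt : ∀ t, Continuous (V' t) := fun t => hM.comp (continuous_const.prodMk continuous_id)
  have sP := pars_t hAB hP hP0 hwS cP
  have sM := pars_t hAB hM hM0 hwS' cM
  obtain ⟨IP, hIP⟩ : ∃ IP, IP = ∫ t in A..B, ∫ θ in (-Real.pi)..Real.pi, QF 1 1 (V t θ) :=
    ⟨_, rfl⟩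
  obtain ⟨IM, hIM⟩ : ∃ IM, IM = ∫ t in A..B, ∫ θ in (-Real.pi)..Real.pi, QF 1 1 (V' t θ) :=
    ⟨_, rfl⟩
  rw [← hIP] at sP
  rw [← hIM] at sM
  have hT : HasSum (fun m : ℤ => c₁ * NQ 1 1 (w m) - c₂ * NQ 1 1 (w' m))
      (c₁ * ((2 * Real.pi)⁻¹ * IP) - c₂ * ((2 * Real.pi)⁻¹ * IM)) :=
    (sP.mul_left _).sub (sM.mul_left _)
  have hterm : ∀ m : ℤ, m ≠ 0 → 0 ≤ c₁ * NQ 1 1 (w m) - c₂ * NQ 1 1 (w' m) := by
    intro m hm
    have h1 := mul_le_mul_of_nonneg_left (hmode m hm) hc₁.le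
    rw [hcc]
    linarith
  -- the pointwise bound
  have hpt : ∀ t, (2 * Real.pi * ‖1 + w 0 t‖ ^ p - 2 * Real.pi * ‖1 + w' 0 t‖ ^ p)
      + (c₁ * ((∫ θ in (-Real.pi)..Real.pi, QF 1 1 (V t θ)) - 2 * Real.pi * QF 1 1 (w 0 t))
        - c₂ * ((∫ θ in (-Real.pi)..Real.pi, QF 1 1 (V' t θ)) - 2 * Real.pi * QF 1 1 (w' 0 t)))
      ≤ (∫ θ in (-Real.pi)..Real.pi, ‖1 + V t θ‖ ^ p)
          - ∫ θ in (-Real.pi)..Real.pi, ‖1 + V' t θ‖ ^ p := by
    intro t
    have h1 := (circle_near hp h (hPt t) (bP t)).1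
    have h2 := (circle_near hp h (hMt t) (bM t)).2
    rw [cP 0 t] at h1
    rw [cM 0 t] at h2
    linarith
  have hcw : ∀ m, Continuous (w m) := fun m => (hwS m).1.continuous
  have hcw' : ∀ m, Continuous (w' m) := fun m => (hwS' m).1.continuous
  have hFc : ∀ {U : ℝ → ℝ → ℂ}, Continuous (Function.uncurry U) →
      Continuous fun t => ∫ θ in (-Real.pi)..Real.pi, ‖1 + U t θ‖ ^ p := fun {U} hU =>
    intervalIntegral.continuous_parametric_intervalIntegral_of_continuous'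
      (f := fun t θ => ‖1 + U t θ‖ ^ p)
      ((continuous_const.add hU).norm.rpow_const fun x => Or.inr (by linarith)) _ _
  have hQc : ∀ {U : ℝ → ℝ → ℂ}, Continuous (Function.uncurry U) →
      Continuous fun t => ∫ θ in (-Real.pi)..Real.pi, QF 1 1 (U t θ) := fun {U} hU =>
    intervalIntegral.continuous_parametric_intervalIntegral_of_continuous'
      (f := fun t θ => QF 1 1 (U t θ)) ((QF_cont 1 1).comp hU) _ _
  have r1 : Continuous fun t => 2 * Real.pi * ‖1 + w 0 t‖ ^ p - 2 * Real.pi * ‖1 + w' 0 t‖ ^ p :=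
    (continuous_const.mul ((continuous_const.add (hcw 0)).norm.rpow_const
      fun x => Or.inr (by linarith))).sub
    (continuous_const.mul ((continuous_const.add (hcw' 0)).norm.rpow_const
      fun x => Or.inr (by linarith)))
  have r2 : Continuous fun t => c₁ * ((∫ θ in (-Real.pi)..Real.pi, QF 1 1 (V t θ))
      - 2 * Real.pi * QF 1 1 (w 0 t)) :=
    continuous_const.mul ((hQc hP).sub (continuous_const.mul ((QF_cont 1 1).comp (hcw 0))))
  have r3 : Continuous fun t => c₂ * ((∫ θ in (-Real.pi)..Real.pi, QF 1 1 (V' t θ))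
      - 2 * Real.pi * QF 1 1 (w' 0 t)) :=
    continuous_const.mul ((hQc hM).sub (continuous_const.mul ((QF_cont 1 1).comp (hcw' 0))))
  have i1 := r1.intervalIntegrable (μ := volume) A B
  have i2 := r2.intervalIntegrable (μ := volume) A B
  have i3 := r3.intervalIntegrable (μ := volume) A B
  have iD : IntervalIntegrable (fun t => (∫ θ in (-Real.pi)..Real.pi, ‖1 + V t θ‖ ^ p)
      - ∫ θ in (-Real.pi)..Real.pi, ‖1 + V' t θ‖ ^ p) volume A B :=
    ((hFc hP).sub (hFc hM)).intervalIntegrable A B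
  have hmono := intervalIntegral.integral_mono_on hAB.le (i1.add (i2.sub i3)) iD
    (fun t _ => hpt t)
  have hN : ∀ {f : ℝ → ℂ}, SC A B f → ∫ t in A..B, QF 1 1 (f t) = NQ 1 1 f := fun {f} hf => by
    rw [ii_eq hAB.le (fun t ht => by rw [hf.2 t ht, QF_zero])]
    rfl
  have e2 : ∫ t in A..B, c₁ * ((∫ θ in (-Real.pi)..Real.pi, QF 1 1 (V t θ))
      - 2 * Real.pi * QF 1 1 (w 0 t)) = c₁ * (IP - 2 * Real.pi * NQ 1 1 (w 0)) := by
    have j1 := (hQc hP).intervalIntegrable (μ := volume) A B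
    have j2 : IntervalIntegrable (fun t => 2 * Real.pi * QF 1 1 (w 0 t)) volume A B :=
      (continuous_const.mul ((QF_cont 1 1).comp (hcw 0))).intervalIntegrable _ _
    rw [intervalIntegral.integral_const_mul, intervalIntegral.integral_sub j1 j2,
      intervalIntegral.integral_const_mul, hN (hwS 0), ← hIP]
  have e3 : ∫ t in A..B, c₂ * ((∫ θ in (-Real.pi)..Real.pi, QF 1 1 (V' t θ))
      - 2 * Real.pi * QF 1 1 (w' 0 t)) = c₂ * (IM - 2 * Real.pi * NQ 1 1 (w' 0)) := by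
    have j1 := (hQc hM).intervalIntegrable (μ := volume) A B
    have j2 : IntervalIntegrable (fun t => 2 * Real.pi * QF 1 1 (w' 0 t)) volume A B :=
      (continuous_const.mul ((QF_cont 1 1).comp (hcw' 0))).intervalIntegrable _ _
    rw [intervalIntegral.integral_const_mul, intervalIntegral.integral_sub j1 j2,
      intervalIntegral.integral_const_mul, hN (hwS' 0), ← hIM]
  rw [intervalIntegral.integral_add i1 (i2.sub i3), intervalIntegral.integral_sub i2 i3, e2, e3]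
    at hmono
  have hkey : ∀ x : ℝ, c₁ * NQ 1 1 (w 0) - c₂ * NQ 1 1 (w' 0) + x
      ≤ c₁ * ((2 * Real.pi)⁻¹ * IP) - c₂ * ((2 * Real.pi)⁻¹ * IM) →
      2 * Real.pi * x ≤ c₁ * (IP - 2 * Real.pi * NQ 1 1 (w 0))
        - c₂ * (IM - 2 * Real.pi * NQ 1 1 (w' 0)) := by
    intro x hx
    have h1 := mul_le_mul_of_nonneg_left hx (show 0 ≤ 2 * Real.pi by positivity)
    have h2 : 2 * Real.pi * (c₁ * ((2 * Real.pi)⁻¹ * IP) - c₂ * ((2 * Real.pi)⁻¹ * IM))
        = c₁ * IP - c₂ * IM := by field_simp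
    rw [h2] at h1
    linarith
  constructor
  · have h1 := sum_le_hasSum ({0} : Finset ℤ) (fun m hm => hterm m (by simpa using hm)) hT
    rw [Finset.sum_singleton] at h1
    have h2 := hkey 0 (by linarith)
    linarith
  · rintro ⟨m, hm, hlt⟩
    have h1 := sum_le_hasSum ({0, m} : Finset ℤ) (fun k hk => hterm k (fun h0 => hk (by simp [h0]))) hT
    rw [Finset.sum_pair (Ne.symm hm)] at h1
    have h2 := hkey _ h1
    have h3 : 0 < c₁ * NQ 1 1 (w m) - c₂ * NQ 1 1 (w' m) := by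
      have h4 := mul_lt_mul_of_pos_left hlt hc₁
      rw [hcc]
      linarith
    have h4 : 0 < 2 * Real.pi * (c₁ * NQ 1 1 (w m) - c₂ * NQ 1 1 (w' m)) := by positivity
    linarith

/-- the part of `v` with the angular dependence of `u₀` -/
noncomputable def proj (n : ℕ) (v : ℂ → ℂ) (z : ℂ) : ℂ :=
  ((2 * Real.pi)⁻¹ : ℝ) * ∫ α in (-Real.pi)..Real.pi,
    Complex.exp (-(n * α) * Complex.I) * v (Complex.exp (α * Complex.I) * z)

theorem PO_add (t θ α : ℝ) : ci α * PO t θ = PO t (θ + α) := by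
  rw [PO, PO, ci_add]; ring

theorem PO_per (t : ℝ) : Function.Periodic (fun θ => PO t θ) (2 * Real.pi) := by
  intro θ
  show PO t (θ + 2 * Real.pi) = PO t θ
  rw [PO, PO, ci_periodic θ]

theorem proj_PO (n : ℕ) (v : ℂ → ℂ) (t θ : ℝ) :
    proj n v (PO t θ) = ci (n * θ) * FC n v t := by
  have e1 : ∀ α : ℝ, Complex.exp (-(n * α) * Complex.I) * v (Complex.exp (α * Complex.I) * PO t θ)
      = ci (n * θ) * (v (PO t (θ + α)) * ci (-(n : ℤ) * (θ + α))) := by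
    intro α
    have h1 : Complex.exp (α * Complex.I) * PO t θ = PO t (θ + α) := PO_add t θ α
    have h2 : Complex.exp (-(n * α) * Complex.I) = ci (-(n : ℝ) * α) := by
      rw [ci]; push_cast; ring_nf
    have h3 : ci (-(n : ℝ) * α) = ci (n * θ) * ci (-((n : ℤ) : ℝ) * (θ + α)) := by
      rw [← ci_add]
      congr 1
      push_cast
      ring
    rw [h1, h2, h3]
    ring
  rw [proj]
  simp_rw [e1]
  rw [intervalIntegral.integral_const_mul]
  have hper : Function.Periodic (fun β : ℝ => v (PO t β) * ci (-((n : ℤ) : ℝ) * β))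
      (2 * Real.pi) := by
    intro β
    show v (PO t (β + 2 * Real.pi)) * ci (-((n : ℤ) : ℝ) * (β + 2 * Real.pi)) = _
    have h1 : PO t (β + 2 * Real.pi) = PO t β := PO_per t β
    have h2 : -((n : ℤ) : ℝ) * (β + 2 * Real.pi) = -((n : ℤ) : ℝ) * β - (n : ℤ) * (2 * Real.pi) := by
      ring
    rw [h1, h2, ci_periodic.sub_int_mul_eq]
  have e2 : ∫ α in (-Real.pi)..Real.pi, v (PO t (θ + α)) * ci (-((n : ℤ) : ℝ) * (θ + α))
      = ∫ β in (-Real.pi)..Real.pi, v (PO t β) * ci (-((n : ℤ) : ℝ) * β) := by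
    rw [intervalIntegral.integral_comp_add_left
      (fun β : ℝ => v (PO t β) * ci (-((n : ℤ) : ℝ) * β)) θ]
    have h1 := hper.intervalIntegral_add_eq (θ + -Real.pi) (-Real.pi)
    have h2 : θ + -Real.pi + 2 * Real.pi = θ + Real.pi := by ring
    have h3 : -Real.pi + 2 * Real.pi = Real.pi := by ring
    rw [h2, h3] at h1
    exact h1
  rw [e2, FC, F1]
  ring

theorem proj_pert (n : ℕ) (p : ℝ) (v : ℂ → ℂ) {z : ℂ} (hz : z ≠ 0) :
    proj n v z = pert n p {0} (psi n p v) z := by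
  have hn : 0 < ‖z‖ := norm_pos_iff.mpr hz
  have hzp : z = PO (Real.log ‖z‖) (Complex.arg z) := by
    rw [PO, Real.exp_log hn, ci]
    exact (Complex.norm_mul_exp_arg_mul_I z).symm
  obtain ⟨t, ht⟩ : ∃ t, t = Real.log ‖z‖ := ⟨_, rfl⟩
  obtain ⟨θ, hθ⟩ : ∃ θ, θ = Complex.arg z := ⟨_, rfl⟩
  rw [← ht, ← hθ] at hzp
  have h1 : u0 n p z = ((Real.exp (n * t) : ℝ) : ℂ) * ci (n * θ)
      * ((Real.exp (-(2 / p) * t) : ℝ) : ℂ) := by
    rw [u0]
    congr 1
    · have := zpow_polar n t θ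
      rw [zpow_natCast] at this
      push_cast at this
      rw [hzp, PO]
      push_cast
      exact this
    · rw [Real.rpow_def_of_pos hn, ← ht]
      congr 2
      ring
  rw [pert, Finset.sum_singleton, zpow_zero, mul_one, ← ht, h1, psi, HC, hzp, proj_PO]
  have e : ((Real.exp (n * t) : ℝ) : ℂ) * ((Real.exp (-(2 / p) * t) : ℝ) : ℂ)
      * (((Real.exp ((2 * (1 / p) + ((0 : ℤ) : ℝ)) * t) : ℝ) : ℂ)
        * ((Real.exp (-((n + 0 : ℤ) : ℝ) * t) : ℝ) : ℂ)) = 1 := by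
    rw [← Complex.ofReal_mul, ← Complex.ofReal_mul, ← Complex.ofReal_mul, ← Real.exp_add,
      ← Real.exp_add, ← Real.exp_add]
    have : n * t + -(2 / p) * t + ((2 * (1 / p) + ((0 : ℤ) : ℝ)) * t + -((n + 0 : ℤ) : ℝ) * t)
        = 0 := by
      push_cast
      ring
    rw [this, Real.exp_zero, Complex.ofReal_one]
  have e2 : FC ((n : ℤ) + 0) v t = FC n v t := by rw [add_zero]
  rw [e2]
  linear_combination (-(ci (n * θ)) * FC n v t) * e

theorem iter_congr {f g : ℂ → ℂ} (h : ∀ z, z ≠ 0 → f z = g z) (n : ℕ) :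
    (∀ z, z ≠ 0 → (dz^[n] f) z = (dz^[n] g) z) ∧ (∀ z, z ≠ 0 → (dzb^[n] f) z = (dzb^[n] g) z) := by
  induction n with
  | zero => exact ⟨h, h⟩
  | succ n ih =>
    refine ⟨fun z hz => ?_, fun z hz => ?_⟩
    · rw [Function.iterate_succ_apply', Function.iterate_succ_apply', congr_dz ih.1 hz]
    · rw [Function.iterate_succ_apply', Function.iterate_succ_apply', congr_dzb ih.2 hz]

end Pool.Agent.D0H14.SV
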