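import Mathlib
import Pool.Agent.D0H14.SV.LocB

/-! The uniform statement near the extremal. -/

set_option autoImplicit false

open Set MeasureTheory
open scoped ContDiff

namespace Pool.Agent.D0H14.SV

open Pool.Agent.D0H14.BA

/-- the mode inequality with a constant larger than `p - 1` -/
theorem mode_gap (n : ℕ) (hn : 1 ≤ n) {s lam : ℝ} (ad : Gap.Adm s lam) {A B : ℝ} {f : ℝ → ℂ}
    (hf : SC A B f) (m : ℤ) (hm : m ≠ 0) :
    lam * NQ 1 1 (wM n s m f) ≤ NQ 1 1 (wP n s m f) ∧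
    ((∃ t, f t ≠ 0) → lam * NQ 1 1 (wM n s m f) < NQ 1 1 (wP n s m f)) := by
  have h := mode_ineq hf n (lam := lam) (α := 1) (β := 1) m ad.s0 ad.s1 zero_le_one zero_le_one
    (Gap.cmp n hn m hm ad)
  have h1 := gain_pos ad.s0 ad.s1 (Gap.gain n hn ad)
  have h2 : 0 ≤ NQ 1 1 (deriv^[n] f) / 4 ^ n :=
    div_nonneg (NQ_nonneg zero_le_one zero_le_one _) (by positivity)
  have h3 := mul_nonneg h1.le h2
  refine ⟨by linarith, fun hne => ?_⟩
  have h4 : ∃ t, deriv^[n] f t ≠ 0 := by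
    by_contra hcon
    push Not at hcon
    obtain ⟨t, ht⟩ := hne
    exact ht (zero_of_iter hf n hcon t)
  have h5 : 0 < NQ 1 1 (deriv^[n] f) / 4 ^ n :=
    div_pos (NQ_pos (hf.iter n) zero_lt_one zero_lt_one h4) (by positivity)
  have h6 := mul_pos h1 h5
  linarith

/-- a function which is not its projection has another mode -/
theorem other_mode (n : ℕ) (p : ℝ) {v : ℂ → ℂ} (hv : Sm v)
    (hne : ∃ z, z ≠ 0 ∧ v z ≠ proj n v z) : ∃ m : ℤ, m ≠ 0 ∧ ∃ t, psi n p v m t ≠ 0 := by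
  by_contra hcon
  push Not at hcon
  obtain ⟨z, hz, hvz⟩ := hne
  have hn : 0 < ‖z‖ := norm_pos_iff.mpr hz
  have hpi := Real.pi_pos
  have hzp : z = PO (Real.log ‖z‖) (Complex.arg z) := by
    rw [PO, Real.exp_log hn, ci]
    exact (Complex.norm_mul_exp_arg_mul_I z).symm
  obtain ⟨t, ht⟩ : ∃ t, t = Real.log ‖z‖ := ⟨_, rfl⟩
  rw [← ht] at hzp
  have hF : ∀ k : ℤ, k ≠ n → FC k v t = 0 := by
    intro k hk
    have h1 := hcon (k - n) (sub_ne_zero.mpr hk) t
    rw [psi] at h1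
    have h2 : HC (n + (k - n)) v t = 0 := by
      rcases mul_eq_zero.mp h1 with h | h
      · exact absurd h (by exact_mod_cast (Real.exp_pos _).ne')
      · exact h
    have e : (n : ℤ) + (k - n) = k := by ring
    rw [e, HC] at h2
    rcases mul_eq_zero.mp h2 with h | h
    · exact absurd h (by exact_mod_cast (Real.exp_pos _).ne')
    · exact h
  have hg : Continuous fun θ => v (PO t θ) - ci (n * θ) * FC n v t :=
    (hv.comp_θ t).sub ((ci_cont n).mul continuous_const)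
  have hG : ∀ k : ℤ, F1 k (fun θ => v (PO t θ) - ci (n * θ) * FC n v t) = 0 := by
    intro k
    have c1 : Continuous fun θ : ℝ => v (PO t θ) * ci (-k * θ) := (hv.comp_θ t).mul (ci_cont _)
    have c2 : Continuous fun θ : ℝ => FC n v t * ci ((n - k : ℤ) * θ) :=
      continuous_const.mul (ci_cont _)
    have e : ∀ θ : ℝ, (v (PO t θ) - ci (n * θ) * FC n v t) * ci (-k * θ)
        = v (PO t θ) * ci (-k * θ) - FC n v t * ci ((n - k : ℤ) * θ) := by
      intro θ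
      have e2 : ci (((n - k : ℤ) : ℝ) * θ) = ci (n * θ) * ci (-k * θ) := by
        rw [← ci_add]
        congr 1
        push_cast
        ring
      rw [e2]
      ring
    rw [F1]
    simp_rw [e]
    rw [intervalIntegral.integral_sub (c1.intervalIntegrable _ _) (c2.intervalIntegrable _ _),
      intervalIntegral.integral_const_mul, int_ci, mul_sub]
    have e3 : ((2 * Real.pi)⁻¹ : ℝ) * ∫ θ in (-Real.pi)..Real.pi, v (PO t θ) * ci (-k * θ)
        = FC k v t := rfl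
    rw [e3]
    by_cases hk : k = n
    · subst hk
      rw [sub_self, if_pos rfl]
      have e4 : (((2 * Real.pi)⁻¹ : ℝ) : ℂ) * ((2 * Real.pi : ℝ) : ℂ) = 1 := by
        rw [← Complex.ofReal_mul, inv_mul_cancel₀ (by positivity), Complex.ofReal_one]
      linear_combination (-(FC (n : ℤ) v t)) * e4
    · rw [if_neg (sub_ne_zero.mpr (Ne.symm hk)), hF k hk]
      simp
  have hp := pars hg
  simp_rw [hG, QF_zero] at hp
  have h0 := hp.unique hasSum_zero
  have hpos : 0 < ∫ θ in (-Real.pi)..Real.pi, QF 1 1 (v (PO t θ) - ci (n * θ) * FC n v t) := by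
    apply intervalIntegral.integral_pos (by linarith)
      (((QF_cont 1 1).comp hg).continuousOn)
    · intro θ _
      show 0 ≤ QF 1 1 (v (PO t θ) - ci (n * θ) * FC n v t)
      unfold QF
      positivity
    · refine ⟨Complex.arg z, ⟨(Complex.neg_pi_lt_arg z).le, Complex.arg_le_pi z⟩, ?_⟩
      show 0 < QF 1 1 (v (PO t (Complex.arg z)) - ci (n * Complex.arg z) * FC n v t)
      rw [← proj_PO, ← hzp, QF11]
      have := norm_pos_iff.mpr (sub_ne_zero.mpr hvz)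
      positivity
  have : 0 < (2 * Real.pi)⁻¹ * ∫ θ in (-Real.pi)..Real.pi,
      QF 1 1 (v (PO t θ) - ci (n * θ) * FC n v t) := by positivity
  linarith

theorem TS_zero (c : ℤ → ℂ) (θ : ℝ) : TS {0} c θ = c 0 := by
  rw [TS, Finset.sum_singleton]
  simp [ci_zero]

/-- the constants -/
theorem consts {p lam : ℝ} (hp : 2 < p) (hl : p - 1 < lam) : ∃ c₁ c₂ : ℝ, 0 < c₁ ∧ c₁ < p / 2 ∧
    p / 2 * (p - 1) < c₂ ∧ c₂ = lam * c₁ := by
  have hl0 : 0 < lam := by linarith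
  have h1 : (p - 1) / lam < 1 := by rw [div_lt_one hl0]; exact hl
  have h0 : 0 < (p - 1) / lam := div_pos (by linarith) hl0
  have h2 : lam * ((p - 1) / lam) = p - 1 := by field_simp
  refine ⟨p / 2 * (((p - 1) / lam + 1) / 2), _, by positivity, ?_, ?_, rfl⟩
  · have : ((p - 1) / lam + 1) / 2 < 1 := by linarith
    nlinarith
  · have h3 : lam * (p / 2 * (((p - 1) / lam + 1) / 2)) = p / 2 * ((p - 1 + lam) / 2) := by
      linear_combination (p / 4) * h2
    rw [h3]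
    have : p - 1 < (p - 1 + lam) / 2 := by linarith
    nlinarith

theorem main_loc (n : ℕ) (hn : 1 ≤ n) {p : ℝ} (hp : 2 < p) : ∃ η : ℝ, 0 < η ∧
    ∀ v : ℂ → ℂ, ContDiff ℝ ∞ v → HasCompactSupport v → (0 : ℂ) ∉ tsupport v →
      (∀ z, z ≠ 0 → ‖(dzb^[n] v) z‖ ≤ η * ‖(dzb^[n] (u0 n p)) z‖) →
      (∀ z, z ≠ 0 → ‖(dz^[n] v) z‖ ≤ η * ‖(dz^[n] (u0 n p)) z‖) →
      ∀ a b : ℝ, 0 < a → a ≤ b → (∀ z, v z ≠ 0 → a ≤ ‖z‖ ∧ ‖z‖ ≤ b) →
      ((K n p ^ p * ∫ z in {z : ℂ | a ≤ ‖z‖ ∧ ‖z‖ ≤ b},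
            ‖(dzb^[n] (fun z => u0 n p z + proj n v z)) z‖ ^ p)
          - (∫ z in {z : ℂ | a ≤ ‖z‖ ∧ ‖z‖ ≤ b},
            ‖(dz^[n] (fun z => u0 n p z + proj n v z)) z‖ ^ p)
        ≤ (K n p ^ p * ∫ z in {z : ℂ | a ≤ ‖z‖ ∧ ‖z‖ ≤ b},
            ‖(dzb^[n] (fun z => u0 n p z + v z)) z‖ ^ p)
          - ∫ z in {z : ℂ | a ≤ ‖z‖ ∧ ‖z‖ ≤ b},
            ‖(dz^[n] (fun z => u0 n p z + v z)) z‖ ^ p) ∧
      (v ≠ proj n v →
        (K n p ^ p * ∫ z in {z : ℂ | a ≤ ‖z‖ ∧ ‖z‖ ≤ b},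
            ‖(dzb^[n] (fun z => u0 n p z + proj n v z)) z‖ ^ p)
          - (∫ z in {z : ℂ | a ≤ ‖z‖ ∧ ‖z‖ ≤ b},
            ‖(dz^[n] (fun z => u0 n p z + proj n v z)) z‖ ^ p)
        < (K n p ^ p * ∫ z in {z : ℂ | a ≤ ‖z‖ ∧ ‖z‖ ≤ b},
            ‖(dzb^[n] (fun z => u0 n p z + v z)) z‖ ^ p)
          - ∫ z in {z : ℂ | a ≤ ‖z‖ ∧ ‖z‖ ≤ b},
            ‖(dz^[n] (fun z => u0 n p z + v z)) z‖ ^ p) := by
  have hp0 : 0 < p := by linarith
  have hs : 0 < 1 / p := by positivity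
  have hs2 : 1 / p < 1 / 2 := one_div_lt_one_div_of_lt (by norm_num) hp
  have hX := RF_pos n hs
  have hY := RF_pos n (show 0 < 1 - 1 / p by linarith)
  obtain ⟨lam, hlam, ad⟩ := Gap.adm hs hs2
  rw [lam_eq hp] at hlam
  obtain ⟨c₁, c₂, hc₁, h1, h2, hcc⟩ := consts hp hlam
  obtain ⟨η₀, hη₀, _, hnear⟩ := near_one hp h1 h2
  refine ⟨η₀ / 2, by positivity, fun v hvs hc h0 hb1 hb2 a b ha hab hsup => ?_⟩
  have hv : Sm v := hvs.contDiffOn
  have hv0 : v 0 = 0 := by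
    by_contra h
    exact h0 (subset_tsupport _ h)
  have hlogs : ∀ {a b : ℝ}, 0 < a → (∀ z, v z ≠ 0 → a ≤ ‖z‖ ∧ ‖z‖ ≤ b) →
      Van (Real.log a) (Real.log b) v := by
    intro a b ha h z hz hzl
    by_contra hvz
    obtain ⟨h1, h2⟩ := h z hvz
    exact hzl ⟨Real.log_le_log ha h1, Real.log_le_log (norm_pos_iff.mpr hz) h2⟩
  obtain ⟨r, hr, hball⟩ := Metric.mem_nhds_iff.mp
    ((isClosed_tsupport v).isOpen_compl.mem_nhds h0)
  obtain ⟨R, hR⟩ := hc.isCompact.isBounded.subset_closedBall 0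
  have hrR : ∀ z, v z ≠ 0 → r ≤ ‖z‖ ∧ ‖z‖ ≤ max R (r + 1) := by
    intro z hz
    have h1 : z ∈ tsupport v := subset_tsupport _ hz
    constructor
    · by_contra h
      push Not at h
      exact hball (show z ∈ Metric.ball 0 r by simpa using h) h1
    · have := hR h1
      rw [Metric.mem_closedBall, dist_zero_right] at this
      exact this.trans (le_max_left _ _)
  obtain ⟨A, hA⟩ : ∃ A, A = Real.log r := ⟨_, rfl⟩
  obtain ⟨B, hB⟩ : ∃ B, B = Real.log (max R (r + 1)) := ⟨_, rfl⟩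
  have hAB : A < B := by
    rw [hA, hB]
    exact Real.log_lt_log hr (lt_of_lt_of_le (by linarith) (le_max_right _ _))
  have hV : Van A B v := by rw [hA, hB]; exact hlogs hr hrR
  have hV2 := hlogs ha hsup
  have hψ := psi_SC n p hv hV
  have hψ2 := psi_SC n p hv hV2
  obtain ⟨w, hw⟩ : ∃ w : ℤ → ℝ → ℂ, w = fun m => wP n (1 / p) m (psi n p v m) := ⟨_, rfl⟩
  obtain ⟨w', hw'⟩ : ∃ w' : ℤ → ℝ → ℂ, w' = fun m => wM n (1 / p) m (psi n p v m) := ⟨_, rfl⟩
  have hwS : ∀ m, SC A B (w m) := fun m => by rw [hw]; exact (hψ m).wP n _ m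
  have hwS' : ∀ m, SC A B (w' m) := fun m => by rw [hw']; exact (hψ m).wM n _ m
  have hwT : ∀ m, SC (Real.log a) (Real.log b) (w m) := fun m => by
    rw [hw]; exact (hψ2 m).wP n _ m
  have hwT' : ∀ m, SC (Real.log a) (Real.log b) (w' m) := fun m => by
    rw [hw']; exact (hψ2 m).wM n _ m
  -- the bounds
  have bP : ∀ t θ, ‖WP n p v t θ‖ ≤ η₀ / 2 := by
    intro t θ
    have h3 := hb1 _ (PO_ne t θ)
    rw [dzb_u0 n hp] at h3
    rw [WP]
    simp only [norm_mul, norm_pow, norm_neg, norm_one, one_pow, ci_norm, one_mul,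
      Complex.norm_real, Real.norm_eq_abs, Real.abs_exp, abs_of_pos hX,
      abs_of_pos (inv_pos.mpr hX)] at h3 ⊢
    have e : Real.exp (2 / p * t) * Real.exp (-(2 / p) * t) = 1 := by
      rw [← Real.exp_add]
      have : 2 / p * t + -(2 / p) * t = 0 := by ring
      rw [this, Real.exp_zero]
    calc Real.exp (2 / p * t) * (RF n (1 / p))⁻¹ * ‖(dzb^[n] v) (PO t θ)‖
        ≤ Real.exp (2 / p * t) * (RF n (1 / p))⁻¹
          * (η₀ / 2 * (Real.exp (-(2 / p) * t) * RF n (1 / p))) := by gcongr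
      _ = η₀ / 2 * (Real.exp (2 / p * t) * Real.exp (-(2 / p) * t))
          * ((RF n (1 / p))⁻¹ * RF n (1 / p)) := by ring
      _ = η₀ / 2 := by rw [e, inv_mul_cancel₀ hX.ne']; ring
  have bM : ∀ t θ, ‖WM n p v t θ‖ ≤ η₀ / 2 := by
    intro t θ
    have h3 := hb2 _ (PO_ne t θ)
    rw [dz_u0 n hp] at h3
    rw [WM]
    simp only [norm_mul, Complex.norm_real, Real.norm_eq_abs, Real.abs_exp, abs_of_pos hY,
      abs_of_pos (inv_pos.mpr hY)] at h3 ⊢
    have e : Real.exp (2 / p * t) * Real.exp (-(2 / p) * t) = 1 := by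
      rw [← Real.exp_add]
      have : 2 / p * t + -(2 / p) * t = 0 := by ring
      rw [this, Real.exp_zero]
    calc Real.exp (2 / p * t) * (RF n (1 - 1 / p))⁻¹ * ‖(dz^[n] v) (PO t θ)‖
        ≤ Real.exp (2 / p * t) * (RF n (1 - 1 / p))⁻¹
          * (η₀ / 2 * (Real.exp (-(2 / p) * t) * RF n (1 - 1 / p))) := by gcongr
      _ = η₀ / 2 * (Real.exp (2 / p * t) * Real.exp (-(2 / p) * t))
          * ((RF n (1 - 1 / p))⁻¹ * RF n (1 - 1 / p)) := by ring
      _ = η₀ / 2 := by rw [e, inv_mul_cancel₀ hY.ne']; ring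
  have htot := total_near hp hnear hc₁ hcc hAB (WP_cont n p hv) (WM_cont n p hv)
    (WP_van n p hV) (WM_van n p hV) hwS hwS'
    (fun m t => by rw [hw]; exact coef_WP n hp hv m t)
    (fun m t => by rw [hw']; exact coef_WM n hp hv m t) bP bM
    (fun m hm => by rw [hw, hw']; exact (mode_gap n hn ad (hψ m) m hm).1)
  -- the integrals in polar coordinates
  have hexp : ∀ t : ℝ, Real.exp (-(2 / p) * t) ^ p = Real.exp (-2 * t) := by
    intro t
    rw [← Real.exp_mul]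
    congr 1
    field_simp
  have hFj : ∀ {U : ℝ → ℝ → ℂ}, Continuous (Function.uncurry U) →
      Continuous (Function.uncurry fun t θ : ℝ => ‖1 + U t θ‖ ^ p) := fun hU =>
    (continuous_const.add hU).norm.rpow_const fun x => Or.inr (by linarith)
  have hwc : Continuous (Function.uncurry fun t (_ : ℝ) => w 0 t) :=
    (hwS 0).1.continuous.comp continuous_fst
  have hwc' : Continuous (Function.uncurry fun t (_ : ℝ) => w' 0 t) :=
    (hwS' 0).1.continuous.comp continuous_fst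
  have pz : ∀ {c x : ℝ} {q : ℂ}, 0 < c → ‖((Real.exp (-(2 / p) * x) : ℝ) : ℂ) * (c : ℂ) * q‖ ^ p
      = Real.exp (-2 * x) * (c ^ p * ‖q‖ ^ p) := by
    intro c x q hc
    rw [norm_mul, norm_mul, Complex.norm_real, Complex.norm_real,
      Real.norm_of_nonneg (Real.exp_pos _).le, Real.norm_of_nonneg hc.le,
      Real.mul_rpow (by positivity) (norm_nonneg _), Real.mul_rpow (by positivity) hc.le, hexp]
    ring
  have f1 := polar_int (G := dz^[n] (fun z => u0 n p z + v z)) (p := p)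
    (g := fun t θ => RF n (1 - 1 / p) ^ p * ‖1 + WM n p v t θ‖ ^ p)
    (continuous_const.mul (hFj (WM_cont n p hv))) ha hab (by
      intro t θ
      have := gen_dz n hp hv 1 t θ
      simp only [Complex.ofReal_one, one_mul] at this
      rw [PO] at this
      rw [this, pz hY])
  have f2 := polar_int (G := dzb^[n] (fun z => u0 n p z + v z)) (p := p)
    (g := fun t θ => RF n (1 / p) ^ p * ‖1 + WP n p v t θ‖ ^ p)
    (continuous_const.mul (hFj (WP_cont n p hv))) ha hab (by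
      intro t θ
      have := gen_dzb n hp hv 1 t θ
      simp only [Complex.ofReal_one, one_mul] at this
      rw [PO] at this
      rw [this, mul_assoc, mul_assoc, norm_mul, norm_mul, norm_pow, norm_neg, norm_one, one_pow,
        ci_norm, one_mul, one_mul, ← mul_assoc, pz hX])
  have hcg : ∀ z, z ≠ 0 → u0 n p z + proj n v z
      = u0 n p z + ((1 : ℝ) : ℂ) * pert n p {0} (psi n p v) z := by
    intro z hz
    rw [proj_pert n p v hz, Complex.ofReal_one, one_mul]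
  have f3 := polar_int (G := dz^[n] (fun z => u0 n p z + proj n v z)) (p := p)
    (g := fun t _ => RF n (1 - 1 / p) ^ p * ‖1 + w' 0 t‖ ^ p)
    (continuous_const.mul (hFj hwc')) ha hab (by
      intro t θ
      have h3 := (iter_congr hcg n).1 _ (polar_ne t θ)
      have h4 := form_dz n hp 1 {0} (fun m => (hψ m).1) t θ
      rw [TS_zero] at h4
      rw [h3, h4, Complex.ofReal_one, one_mul, pz hY, hw'])
  have f4 := polar_int (G := dzb^[n] (fun z => u0 n p z + proj n v z)) (p := p)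
    (g := fun t _ => RF n (1 / p) ^ p * ‖1 + w 0 t‖ ^ p)
    (continuous_const.mul (hFj hwc)) ha hab (by
      intro t θ
      have h3 := (iter_congr hcg n).2 _ (polar_ne t θ)
      have h4 := form_dzb n hp 1 {0} (fun m => (hψ m).1) t θ
      rw [TS_zero] at h4
      rw [h3, h4, Complex.ofReal_one, one_mul, mul_assoc, mul_assoc, norm_mul, norm_mul, norm_pow,
        norm_neg, norm_one, one_pow, ci_norm, one_mul, one_mul, ← mul_assoc, pz hX, hw])
  have hK : K n p ^ p * RF n (1 / p) ^ p = RF n (1 - 1 / p) ^ p := by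
    rw [K_eq, Real.div_rpow hY.le hX.le, div_mul_cancel₀ _ (by positivity)]
  have hYp : 0 < RF n (1 - 1 / p) ^ p := by positivity
  have hlog : Real.log a ≤ Real.log b := Real.log_le_log ha hab
  have c1 : Continuous fun t => ∫ θ in (-Real.pi)..Real.pi, ‖1 + WP n p v t θ‖ ^ p :=
    intervalIntegral.continuous_parametric_intervalIntegral_of_continuous'
      (hFj (WP_cont n p hv)) _ _
  have c2 : Continuous fun t => ∫ θ in (-Real.pi)..Real.pi, ‖1 + WM n p v t θ‖ ^ p :=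
    intervalIntegral.continuous_parametric_intervalIntegral_of_continuous'
      (hFj (WM_cont n p hv)) _ _
  have c3 : Continuous fun t => 2 * Real.pi * ‖1 + w 0 t‖ ^ p :=
    continuous_const.mul ((continuous_const.add (hwS 0).1.continuous).norm.rpow_const
      fun x => Or.inr (by linarith))
  have c4 : Continuous fun t => 2 * Real.pi * ‖1 + w' 0 t‖ ^ p :=
    continuous_const.mul ((continuous_const.add (hwS' 0).1.continuous).norm.rpow_const
      fun x => Or.inr (by linarith))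
  have hvan : ∀ {A B : ℝ}, Van A B v → ∀ t, t ∉ Icc A B →
      (∫ θ in (-Real.pi)..Real.pi, ‖1 + WP n p v t θ‖ ^ p)
          - ∫ θ in (-Real.pi)..Real.pi, ‖1 + WM n p v t θ‖ ^ p = 0 := by
    intro A B h t ht
    simp_rw [WP_van n p h t ht, WM_van n p h t ht]
    exact sub_self _
  have hvan2 : ∀ {A B : ℝ}, SC A B (w 0) → SC A B (w' 0) → ∀ t, t ∉ Icc A B →
      2 * Real.pi * ‖1 + w 0 t‖ ^ p - 2 * Real.pi * ‖1 + w' 0 t‖ ^ p = 0 := by
    intro A B h h' t ht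
    rw [h.2 t ht, h'.2 t ht, sub_self]
  have t1 : ∫ t in A..B, ((∫ θ in (-Real.pi)..Real.pi, ‖1 + WP n p v t θ‖ ^ p)
          - ∫ θ in (-Real.pi)..Real.pi, ‖1 + WM n p v t θ‖ ^ p)
      = (∫ t in (Real.log a)..(Real.log b), ∫ θ in (-Real.pi)..Real.pi, ‖1 + WP n p v t θ‖ ^ p)
        - ∫ t in (Real.log a)..(Real.log b), ∫ θ in (-Real.pi)..Real.pi, ‖1 + WM n p v t θ‖ ^ p := by
    rw [ii_eq hAB.le (hvan hV), ← ii_eq hlog (hvan hV2),
      intervalIntegral.integral_sub (c1.intervalIntegrable _ _) (c2.intervalIntegrable _ _)]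
  have t2 : ∫ t in A..B, (2 * Real.pi * ‖1 + w 0 t‖ ^ p - 2 * Real.pi * ‖1 + w' 0 t‖ ^ p)
      = (∫ t in (Real.log a)..(Real.log b), 2 * Real.pi * ‖1 + w 0 t‖ ^ p)
        - ∫ t in (Real.log a)..(Real.log b), 2 * Real.pi * ‖1 + w' 0 t‖ ^ p := by
    rw [ii_eq hAB.le (hvan2 (hwS 0) (hwS' 0)), ← ii_eq hlog (hvan2 (hwT 0) (hwT' 0)),
      intervalIntegral.integral_sub (c3.intervalIntegrable _ _) (c4.intervalIntegrable _ _)]
  have ec : ∀ x : ℝ, ∫ _θ in (-Real.pi)..Real.pi, x = 2 * Real.pi * x := by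
    intro x
    rw [intervalIntegral.integral_const, smul_eq_mul]
    ring
  have s1 : (K n p ^ p * ∫ z in {z : ℂ | a ≤ ‖z‖ ∧ ‖z‖ ≤ b},
            ‖(dzb^[n] (fun z => u0 n p z + proj n v z)) z‖ ^ p)
          - (∫ z in {z : ℂ | a ≤ ‖z‖ ∧ ‖z‖ ≤ b},
            ‖(dz^[n] (fun z => u0 n p z + proj n v z)) z‖ ^ p)
      = RF n (1 - 1 / p) ^ p * ∫ t in A..B,
        (2 * Real.pi * ‖1 + w 0 t‖ ^ p - 2 * Real.pi * ‖1 + w' 0 t‖ ^ p) := by
    rw [f3, f4, t2]
    simp_rw [ec]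
    have e1 : ∀ (C : ℝ) (y : ℝ → ℂ), ∫ t in (Real.log a)..(Real.log b),
        2 * Real.pi * (C * ‖1 + y t‖ ^ p)
        = C * ∫ t in (Real.log a)..(Real.log b), 2 * Real.pi * ‖1 + y t‖ ^ p := by
      intro C y
      rw [← intervalIntegral.integral_const_mul]
      congr 1
      funext t
      ring
    rw [e1, e1, ← mul_assoc, hK]
    ring
  have s2 : (K n p ^ p * ∫ z in {z : ℂ | a ≤ ‖z‖ ∧ ‖z‖ ≤ b},
            ‖(dzb^[n] (fun z => u0 n p z + v z)) z‖ ^ p)
          - (∫ z in {z : ℂ | a ≤ ‖z‖ ∧ ‖z‖ ≤ b},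
            ‖(dz^[n] (fun z => u0 n p z + v z)) z‖ ^ p)
      = RF n (1 - 1 / p) ^ p * ∫ t in A..B,
        ((∫ θ in (-Real.pi)..Real.pi, ‖1 + WP n p v t θ‖ ^ p)
          - ∫ θ in (-Real.pi)..Real.pi, ‖1 + WM n p v t θ‖ ^ p) := by
    rw [f1, f2, t1]
    simp_rw [intervalIntegral.integral_const_mul]
    rw [← mul_assoc, hK]
    ring
  rw [s1, s2]
  refine ⟨mul_le_mul_of_nonneg_left htot.1 hYp.le, fun hne => ?_⟩
  apply mul_lt_mul_of_pos_left _ hYp
  apply htot.2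
  obtain ⟨z, hz⟩ := Function.ne_iff.mp hne
  have hz0 : z ≠ 0 := by
    rintro rfl
    apply hz
    rw [hv0, proj]
    simp [hv0]
  obtain ⟨m, hm, hmt⟩ := other_mode n p hv ⟨z, hz0, hz⟩
  refine ⟨m, hm, ?_⟩
  rw [hw, hw']
  exact (mode_gap n hn ad (hψ m) m hm).2 hmt

end Pool.Agent.D0H14.SV
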